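import Pool.Agent.H22.DE.Sym

/-!
Dense spaces of skew-symmetric matrices: local search and rank formula (helper22, MP_966f71_lc).
-/

set_option autoImplicit false
set_option linter.unusedSectionVars false

open Module Matrix

namespace Pool.Agent.H22.DE

variable {F : Type*} [Field F]

section selection

variable {E E' : Type*} [AddCommGroup E] [Module F E] [AddCommGroup E'] [Module F E']

/-- linear maps with dependent values are proportional -/
lemma rank_one (V : Submodule F E) (f g : E →ₗ[F] E') (T : Submodule F E')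
    (h : ∀ v ∈ V, f v ∈ T ∨ ∃ c : F, g v - c • f v ∈ T)
    (hr : ∀ e : E', ∃ v ∈ V, f v ∉ T ⊔ Submodule.span F {e}) :
    ∃ c : F, ∀ v ∈ V, g v - c • f v ∈ T := by
  obtain ⟨v₁, hv₁, h1⟩ := hr 0
  have hT : T ≤ T ⊔ Submodule.span F {f v₁} := le_sup_left
  have h1' : f v₁ ∉ T := fun h => h1 (Submodule.mem_sup_left h)
  obtain ⟨c, hc⟩ := (h v₁ hv₁).resolve_left h1'
  have hf₁ : f v₁ ∈ T ⊔ Submodule.span F {f v₁} :=
    Submodule.mem_sup_right (Submodule.mem_span_singleton_self _)
  have claim : ∀ v ∈ V, f v ∉ T ⊔ Submodule.span F {f v₁} → g v - c • f v ∈ T := by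
    intro v hv hfv
    obtain ⟨d, hd⟩ := (h v hv).resolve_left (fun h => hfv (hT h))
    have h2 : f (v + v₁) ∉ T := by
      intro h3
      refine hfv ?_
      have := Submodule.sub_mem _ (hT h3) hf₁
      simpa using this
    obtain ⟨e, he⟩ := (h (v + v₁) (V.add_mem hv hv₁)).resolve_left h2
    -- `(d - e) f v + (c - e) f v₁ ∈ T`
    have h3 : (d - e) • f v + (c - e) • f v₁ ∈ T := by
      have h4 := T.sub_mem (T.sub_mem he hd) hc
      have e1 : g (v + v₁) - e • f (v + v₁) - (g v - d • f v) - (g v₁ - c • f v₁) =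
          (d - e) • f v + (c - e) • f v₁ := by
        rw [map_add, map_add, smul_add, sub_smul, sub_smul]
        abel
      rwa [e1] at h4
    have h5 : d = e := by
      by_contra hne
      have hne' : d - e ≠ 0 := sub_ne_zero.2 hne
      refine hfv ?_
      have h6 : f v = (d - e)⁻¹ • ((d - e) • f v + (c - e) • f v₁) -
          ((d - e)⁻¹ * (c - e)) • f v₁ := by
        rw [smul_add, smul_smul, smul_smul, inv_mul_cancel₀ hne', one_smul]
        abel
      rw [h6]
      exact Submodule.sub_mem _ (hT (T.smul_mem _ h3)) (Submodule.smul_mem _ _ hf₁)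
    rw [h5, sub_self, zero_smul, zero_add] at h3
    have h7 : c = e := by
      by_contra hne
      have hne' : c - e ≠ 0 := sub_ne_zero.2 hne
      refine h1' ?_
      have := T.smul_mem (c - e)⁻¹ h3
      rwa [smul_smul, inv_mul_cancel₀ hne', one_smul] at this
    rw [h7, ← h5]
    exact hd
  obtain ⟨v₂, hv₂, h2⟩ := hr (f v₁)
  refine ⟨c, fun v hv => ?_⟩
  by_cases hfv : f v ∈ T ⊔ Submodule.span F {f v₁}
  · have h3 : f (v + v₂) ∉ T ⊔ Submodule.span F {f v₁} := by
      intro h4
      refine h2 ?_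
      have := Submodule.sub_mem _ h4 hfv
      simpa using this
    have h4 := T.sub_mem (claim _ (V.add_mem hv hv₂) h3) (claim v₂ hv₂ h2)
    have e1 : g (v + v₂) - c • f (v + v₂) - (g v₂ - c • f v₂) = g v - c • f v := by
      rw [map_add, map_add, smul_add]
      abel
    rwa [e1] at h4
  · exact claim v hv hfv

variable [FiniteDimensional F E']

lemma finrank_sup_lt (T : Submodule F E') {e : E'} (h : e ∉ T) :
    finrank F T + 1 ≤ finrank F ↥(T ⊔ Submodule.span F {e}) := by
  refine Submodule.finrank_lt_finrank_of_lt (lt_of_le_of_ne le_sup_left ?_)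
  intro h1
  refine h ?_
  rw [h1]
  exact Submodule.mem_sup_right (Submodule.mem_span_singleton_self _)

lemma finrank_sup_le (T : Submodule F E') (e : E') :
    finrank F ↥(T ⊔ Submodule.span F {e}) ≤ finrank F T + 1 := by
  have h1 := Submodule.finrank_add_le_finrank_add_finrank T (Submodule.span F {e})
  have h2 := finrank_span_le_card (R := F) ({e} : Set E')
  simp only [Set.toFinset_singleton, Finset.card_singleton] at h2
  omega

/-- selection of pairs -/
lemma select_pairs (V : Submodule F E) (f g : E →ₗ[F] E') (μ : ℕ)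
    (hf : 2 * μ ≤ finrank F (V.map f))
    (hg : ∀ c : F, 2 * μ ≤ finrank F (V.map (g - c • f)) + 1) (b : ℕ) (hb : b ≤ μ) :
    ∃ B : Fin b → E, (∀ i, B i ∈ V) ∧
      2 * b ≤ finrank F ↥(Submodule.span F (Set.range fun i => f (B i)) ⊔
        Submodule.span F (Set.range fun i => g (B i))) := by
  induction b with
  | zero => exact ⟨Fin.elim0, fun i => i.elim0, by omega⟩
  | succ b ih =>
    obtain ⟨B, hB, h1⟩ := ih (by omega)
    set T := Submodule.span F (Set.range fun i => f (B i)) ⊔
        Submodule.span F (Set.range fun i => g (B i)) with hT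
    have hTle : finrank F T ≤ 2 * b := by
      have h2 := Submodule.finrank_add_le_finrank_add_finrank
        (Submodule.span F (Set.range fun i => f (B i)))
        (Submodule.span F (Set.range fun i => g (B i)))
      have h3 := finrank_range_le_card (R := F) (fun i => f (B i))
      have h4 := finrank_range_le_card (R := F) (fun i => g (B i))
      rw [Fintype.card_fin] at h3 h4
      rw [Set.finrank] at h3 h4
      rw [← hT] at h2
      omega
    obtain ⟨v, hv, hv1, hv2⟩ : ∃ v ∈ V, f v ∉ T ∧ ∀ c : F, g v - c • f v ∉ T := by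
      by_contra hno
      push Not at hno
      obtain ⟨c, hc⟩ := rank_one V f g T (fun v hv => or_iff_not_imp_left.2 (hno v hv)) (by
        intro e
        by_contra hno
        push Not at hno
        have h2 : V.map f ≤ T ⊔ Submodule.span F {e} := by
          rintro _ ⟨v, hv, rfl⟩
          exact hno v hv
        have h3 := Submodule.finrank_mono h2
        have h4 := finrank_sup_le T e
        omega)
      have h2 : V.map (g - c • f) ≤ T := by
        rintro _ ⟨v, hv, rfl⟩
        exact hc v hv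
      have h3 := Submodule.finrank_mono h2
      have h4 := hg c
      omega
    refine ⟨Fin.cons v B, ?_, ?_⟩
    · intro i
      refine Fin.cases ?_ (fun i => ?_) i
      · exact hv
      · exact hB i
    · have h2 := finrank_sup_lt T hv1
      have h3 : g v ∉ T ⊔ Submodule.span F {f v} := by
        intro h4
        obtain ⟨t, ht, s, hs, hts⟩ := Submodule.mem_sup.1 h4
        obtain ⟨c, rfl⟩ := Submodule.mem_span_singleton.1 hs
        refine hv2 c ?_
        rw [← hts]
        simpa using ht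
      have h4 := finrank_sup_lt _ h3
      have h5 : T ⊔ Submodule.span F {f v} ⊔ Submodule.span F {g v} ≤
          Submodule.span F (Set.range fun i => f ((Fin.cons v B : Fin (b + 1) → E) i)) ⊔
            Submodule.span F (Set.range fun i => g ((Fin.cons v B : Fin (b + 1) → E) i)) := by
        refine sup_le (sup_le (sup_le ?_ ?_) ?_) ?_
        · refine le_sup_of_le_left (Submodule.span_mono ?_)
          rintro _ ⟨i, rfl⟩
          exact ⟨i.succ, rfl⟩
        · refine le_sup_of_le_right (Submodule.span_mono ?_)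
          rintro _ ⟨i, rfl⟩
          exact ⟨i.succ, rfl⟩
        · refine le_sup_of_le_left (Submodule.span_mono ?_)
          rintro _ rfl
          exact ⟨0, rfl⟩
        · refine le_sup_of_le_right (Submodule.span_mono ?_)
          rintro _ rfl
          exact ⟨0, rfl⟩
      have h6 := Submodule.finrank_mono h5
      omega

end selection

variable {σ : Type*} [Fintype σ] {ι : Type*} [Fintype ι] [DecidableEq ι]

/-- a skew-symmetric generalized inverse -/
lemma alt_ginv {A : Matrix ι ι F} (hA : Aᵀ = -A) :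
    ∃ P : Matrix ι ι F, A * P * A = A ∧ Pᵀ = -P := by
  obtain ⟨G, hG⟩ := exists_ginv A
  have hG' : A * Gᵀ * A = -A := by
    have := congrArg Matrix.transpose hG
    rw [Matrix.transpose_mul, Matrix.transpose_mul, hA, Matrix.mul_neg, Matrix.neg_mul,
      Matrix.mul_neg, neg_neg, ← Matrix.mul_assoc] at this
    exact this
  refine ⟨-(G * A * Gᵀ), ?_, ?_⟩
  · rw [Matrix.mul_neg, Matrix.neg_mul, ← Matrix.mul_assoc, ← Matrix.mul_assoc, hG, hG', neg_neg]
  · rw [Matrix.transpose_neg, Matrix.transpose_mul, Matrix.transpose_mul,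
      Matrix.transpose_transpose, hA, Matrix.neg_mul, Matrix.mul_neg, ← Matrix.mul_assoc]

lemma mulVec_alt {M : Matrix ι ι F} (h : Mᵀ = -M) (x : ι → F) : x ᵥ* M = -(M *ᵥ x) := by
  rw [← Matrix.mulVec_transpose, h, Matrix.neg_mulVec]

private lemma alt_arith {N c w S D K : ℕ}
    (h1 : D ≤ S + K) (hS : S = (2 * c + 4) * N)
    (hK : 2 * K + (N - w) ≤ (N - w) * (N - w)) (hw : 4 * c + 8 ≤ w) (hwN : w ≤ N)
    (hD : N * N ≤ 2 * D + 2 * (c + 2) * N + N)
    (hc : 8 * (c + 2) + 2 < N) : False := by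
  obtain ⟨q, hq⟩ := Nat.exists_eq_add_of_le hwN
  obtain ⟨r, hr⟩ := Nat.exists_eq_add_of_le (show 4 * c + 8 ≤ N by omega)
  have h2 : N - w = q := by omega
  rw [h2] at hK
  have h3 : q ≤ r := by omega
  have h4 : q * q + r ≤ r * r + q := by
    obtain ⟨p, rfl⟩ := Nat.exists_eq_add_of_le h3
    nlinarith [Nat.zero_le p, Nat.zero_le q, Nat.mul_le_mul_left p (Nat.zero_le q)]
  have h5 : 4 * c + 11 ≤ r := by omega
  have h6 : (c + 2) * (4 * c + 11) ≤ (c + 2) * r := Nat.mul_le_mul_left _ h5
  clear hw hwN hq h2 h3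
  subst hr
  nlinarith

/-- **kernel pairs** -/
lemma alt_key [Infinite F] (h2 : (2 : F) ≠ 0) {A P : Matrix ι ι F}
    {V : Submodule F (Matrix ι ι F)} (hs : ∀ M ∈ V, Mᵀ = -M) (hA : Aᵀ = -A) (hP : Pᵀ = -P)
    (h : Idt A P V) {c : ℕ}
    (hV : Fintype.card ι * Fintype.card ι ≤
      2 * finrank F V + 2 * c * Fintype.card ι + Fintype.card ι)
    (hc : 8 * (c + 2) + 2 < Fintype.card ι) {k l : ι → F} (hk : A *ᵥ k = 0) (hl : A *ᵥ l = 0)
    (hk' : 4 * c + 8 ≤ finrank F (V.map (evR k)))
    (hl' : ∀ s : F, 4 * c + 7 ≤ finrank F (V.map (evR (l - s • k)))) : False := by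
  have hlA : l ᵥ* A = 0 := by rw [mulVec_alt hA, hl, neg_zero]
  set D := ann V k l with hDdef
  have hPinj : ∀ B ∈ V, ∀ z, A *ᵥ z = 0 → A *ᵥ (P *ᵥ (B *ᵥ z)) = B *ᵥ z := by
    intro B hB z hz
    have := h B hB z hz 0 (by norm_num)
    rwa [pow_zero, Matrix.one_mulVec] at this
  have hX : ∀ z, A *ᵥ z = 0 → finrank F (V.map (P.mulVecLin ∘ₗ evR z)) =
      finrank F (V.map (evR z)) := by
    intro z hz
    rw [Submodule.map_comp]
    refine finrank_map_P (A := A) _ ?_
    rintro _ ⟨B, hB, rfl⟩
    exact hPinj B hB z hz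
  obtain ⟨B, hBV, hB⟩ := select_pairs V (P.mulVecLin ∘ₗ evR k) (P.mulVecLin ∘ₗ evR l) (2 * c + 4)
    (by rw [hX k hk]; omega) (by
      intro s
      have e : P.mulVecLin ∘ₗ evR l - s • (P.mulVecLin ∘ₗ evR k) =
          P.mulVecLin ∘ₗ evR (m := ι) (l - s • k) := by
        refine LinearMap.ext fun M => ?_
        show P *ᵥ (M *ᵥ l) - s • (P *ᵥ (M *ᵥ k)) = P *ᵥ (M *ᵥ (l - s • k))
        rw [Matrix.mulVec_sub, Matrix.mulVec_sub, Matrix.mulVec_smul, Matrix.mulVec_smul]
      have h3 := hl' s
      rw [e, hX _ (by rw [Matrix.mulVec_sub, Matrix.mulVec_smul, hk, hl, smul_zero, sub_zero])]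
      omega) (2 * c + 4) le_rfl
  let x : Fin (2 * c + 4) → ι → F := fun i => P *ᵥ (B i *ᵥ k)
  let y : Fin (2 * c + 4) → ι → F := fun i => P *ᵥ (B i *ᵥ l)
  let Z : Fin (2 * c + 4) → Submodule F (ι → F) := fun i => (D.map (evR (x i))).map P.mulVecLin
  have hZ : ∀ i, finrank F (Z i) = finrank F (D.map (evR (x i))) := by
    intro i
    refine finrank_map_P (A := A) _ ?_
    rintro _ ⟨C, hC, rfl⟩
    exact idt_one h hk (hBV i) hC
  have hc1 := cutR D x (fun i => D.map (evR (x i))) (fun M hM i => Submodule.mem_map_of_mem hM)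
  set K := D ⊓ kill (Submodule.span F (Set.range x)) (⊥ : Submodule F (ι → F)) with hK
  have hc2 := cutR K y (fun i => perp (Z i)) (by
    rintro C' ⟨hC', hCX, -⟩ i _ ⟨_, ⟨C, hC, rfl⟩, rfl⟩
    have h1 := idt_polar h hk hlA (hBV i) hC hC'
    have h3 : C' *ᵥ (P *ᵥ (B i *ᵥ k)) = 0 := hCX _ (Submodule.subset_span ⟨i, rfl⟩)
    rw [h3, Matrix.mulVec_zero, Matrix.mulVec_zero, Matrix.mulVec_zero, dotProduct_zero,
      zero_add] at h1
    have hC1' := hs C' (mem_ann.1 hC').1
    rw [mulVec_alt (hs _ (hBV i)), Matrix.dotProduct_mulVec, Matrix.neg_vecMul, mulVec_alt hP,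
      neg_neg, Matrix.dotProduct_mulVec, mulVec_alt hC1', neg_dotProduct, neg_eq_zero] at h1
    exact h1)
  set K' := K ⊓ kill (Submodule.span F (Set.range y)) (⊥ : Submodule F (ι → F)) with hK'
  have hc3 := finrank_kill_alt h2 K' (Submodule.span F (Set.range x) ⊔
    Submodule.span F (Set.range y)) (fun M hM => hs M (mem_ann.1 hM.1.1).1) (by
      intro M hM z hz
      obtain ⟨a, ha, b, hb, rfl⟩ := Submodule.mem_sup.1 hz
      rw [Matrix.mulVec_add, hM.1.2.1 a ha, hM.2.1 b hb, add_zero])
  have hS : ∑ i, finrank F (D.map (evR (x i))) + ∑ i, finrank F (perp (Z i)) =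
      (2 * c + 4) * Fintype.card ι := by
    rw [← Finset.sum_add_distrib, Finset.sum_congr rfl (fun i _ => show
      finrank F (D.map (evR (x i))) + finrank F (perp (Z i)) = Fintype.card ι by
        have h2 := finrank_perp (Z i)
        rw [hZ i] at h2
        omega)]
    simp
  have hw := Submodule.finrank_le (Submodule.span F (Set.range x) ⊔
    Submodule.span F (Set.range y))
  rw [finrank_fintype_fun_eq_card] at hw
  have hD := finrank_ann V k l
  rw [← hDdef] at hD
  have e : 2 * (c + 2) * Fintype.card ι = 2 * c * Fintype.card ι + 2 * (2 * Fintype.card ι) := by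
    ring
  exact alt_arith (K := finrank F K') (D := finrank F D) (by omega) hS hc3
    (show 4 * c + 8 ≤ _ by have := hB; simp only [LinearMap.comp_apply] at this; change 2 * (2 * c + 4) ≤ finrank F ↥(Submodule.span F (Set.range x) ⊔ Submodule.span F (Set.range y)) at this; omega) hw (by omega) hc

private lemma alt_arith' {N c S D : ℕ}
    (h1 : 2 * D + (N - (2 * c + 1)) ≤ 2 * S + (N - (2 * c + 1)) * (N - (2 * c + 1)))
    (hS : S ≤ (2 * c + 1) * (4 * c + 7)) (hD : N * N ≤ 2 * D + 2 * c * N + N)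
    (hc : 10 * (c + 2) ≤ N) : False := by
  obtain ⟨q, hq⟩ := Nat.exists_eq_add_of_le (show 2 * c + 1 ≤ N by omega)
  have h2 : N - (2 * c + 1) = q := by omega
  rw [h2] at h1
  have h3 : 8 * c + 19 ≤ q := by omega
  have h4 : (2 * c + 2) * (8 * c + 19) ≤ (2 * c + 2) * q := Nat.mul_le_mul_left _ h3
  subst hq
  nlinarith

lemma finrank_sm_alt (h2 : (2 : F) ≠ 0) (V : Submodule F (Matrix ι ι F))
    (hs : ∀ M ∈ V, Mᵀ = -M) {c : ℕ}
    (hV : Fintype.card ι * Fintype.card ι ≤
      2 * finrank F V + 2 * c * Fintype.card ι + Fintype.card ι)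
    (hc : 10 * (c + 2) ≤ Fintype.card ι) :
    finrank F (Submodule.span F (sm V (4 * c + 7))) ≤ 2 * c := by
  by_contra hcon
  push Not at hcon
  obtain ⟨u, hu, hus⟩ := exists_indep (F := F) (sm V (4 * c + 7)) (b := 2 * c + 1) hcon
  have h1 := cntA h2 V hs u hu
  have h3 : ∑ i, finrank F (V.map (evR (u i))) ≤ (2 * c + 1) * (4 * c + 7) := by
    refine (Finset.sum_le_sum fun i _ => hus i).trans ?_
    simp
  exact alt_arith' h1 h3 hV hc

/-- the rank of a skew-symmetric matrix is even -/
lemma even_rank (h2 : (2 : F) ≠ 0) (A : Matrix ι ι F) (hA : Aᵀ = -A) : Even A.rank := by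
  have hskew : ∀ i j, A i j = -A j i := by
    intro i j
    have := congrFun (congrFun hA j) i
    rwa [Matrix.transpose_apply, Matrix.neg_apply] at this
  obtain ⟨u, hu, hus⟩ := exists_indep (F := F) (Set.range A.row) (b := A.rank)
    (by rw [Matrix.rank_eq_finrank_span_row])
  choose f hf using hus
  have hspan : Submodule.span F (Set.range u) = Submodule.span F (Set.range A.row) := by
    refine Submodule.eq_of_le_of_finrank_eq (Submodule.span_mono ?_) ?_
    · rintro _ ⟨i, rfl⟩
      exact ⟨f i, hf i⟩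
    · rw [finrank_span_eq_card hu, Fintype.card_fin, Matrix.rank_eq_finrank_span_row]
  have hL : ∀ i, ∃ c : Fin A.rank → F, ∑ j, c j • u j = A.row i := by
    intro i
    rw [← Submodule.mem_span_range_iff_exists_fun, hspan]
    exact Submodule.subset_span ⟨i, rfl⟩
  choose L hL using hL
  have hLA : ∀ i j, A i j = ∑ k, L i k * A (f k) j := by
    intro i j
    have h1 := congrFun (hL i) j
    rw [Finset.sum_apply] at h1
    have h3 : A.row i j = A i j := rfl
    rw [← h3, ← h1]
    refine Finset.sum_congr rfl fun k _ => ?_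
    rw [Pi.smul_apply, smul_eq_mul, ← hf k]
    rfl
  have hfac : A = Matrix.of L * (A.submatrix f f * (Matrix.of L)ᵀ) := by
    ext i j
    rw [Matrix.mul_apply, hLA i j]
    refine Finset.sum_congr rfl fun k _ => ?_
    rw [Matrix.mul_apply, Matrix.of_apply]
    congr 1
    rw [hskew (f k) j, hLA j (f k), ← Finset.sum_neg_distrib]
    refine Finset.sum_congr rfl fun l _ => ?_
    rw [Matrix.submatrix_apply, Matrix.transpose_apply, Matrix.of_apply, hskew (f k) (f l)]
    ring
  have hr : A.rank ≤ (A.submatrix f f).rank := by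
    conv_lhs => rw [hfac]
    exact (Matrix.rank_mul_le_right _ _).trans (Matrix.rank_mul_le_left _ _)
  have hunit : IsUnit (A.submatrix f f) := by
    refine Matrix.linearIndependent_rows_iff_isUnit.1
      (linearIndependent_iff_card_le_finrank_span.2 ?_)
    rw [Fintype.card_fin, Set.finrank, ← Matrix.rank_eq_finrank_span_row]
    exact hr
  have hdet : (A.submatrix f f).det ≠ 0 :=
    ((Matrix.isUnit_iff_isUnit_det _).1 hunit).ne_zero
  by_contra hodd
  rw [Nat.not_even_iff_odd] at hodd
  have h3 : (A.submatrix f f)ᵀ = -(A.submatrix f f) := by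
    ext i j
    rw [Matrix.transpose_apply, Matrix.neg_apply, Matrix.submatrix_apply, Matrix.submatrix_apply]
    exact hskew _ _
  have h4 := congrArg Matrix.det h3
  rw [Matrix.det_transpose, Matrix.det_neg, Fintype.card_fin, hodd.neg_one_pow] at h4
  have h5 : (2 : F) * (A.submatrix f f).det = 0 := by linear_combination h4
  exact hdet ((mul_eq_zero.1 h5).resolve_left h2)

lemma lin_alt (A₀ : Matrix ι ι F) (A : σ → Matrix ι ι F) (h0 : A₀ᵀ = -A₀)
    (h : ∀ i, (A i)ᵀ = -A i) (x : σ → F) : (lin A₀ A x)ᵀ = -lin A₀ A x := by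
  rw [lin, Matrix.transpose_add, Matrix.transpose_sum, h0, neg_add, ← Finset.sum_neg_distrib]
  congr 1
  refine Finset.sum_congr rfl fun i _ => ?_
  rw [Matrix.transpose_smul, h i, smul_neg]

lemma span_alt (A : σ → Matrix ι ι F) (h : ∀ i, (A i)ᵀ = -A i) :
    ∀ M ∈ Submodule.span F (Set.range A), Mᵀ = -M := by
  intro M hM
  obtain ⟨x, rfl⟩ := mem_span_lin A hM
  exact lin_alt 0 A (by rw [Matrix.transpose_zero, neg_zero]) h x

/-- **Skew-symmetric case**: rank formula and optimality of locally optimal points -/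
theorem alt_all [Infinite F] (h2 : (2 : F) ≠ 0) (A₀ : Matrix ι ι F) (A : σ → Matrix ι ι F)
    (h0 : A₀ᵀ = -A₀) (hs : ∀ i, (A i)ᵀ = -A i) {c : ℕ}
    (hV : Fintype.card ι * Fintype.card ι ≤
      2 * finrank F (Submodule.span F (Set.range A)) + 2 * c * Fintype.card ι + Fintype.card ι)
    (hc : 10 * (c + 2) ≤ Fintype.card ι) :
    ∃ (u : ℕ) (P : Matrix ι (Fin u) F), u ≤ 2 * c ∧ P.rank = u ∧
      (∀ j, (fun i => P i j) ∈ sm (Submodule.span F (Set.range A)) (4 * c + 7)) ∧
      (sr (sy A₀ A) =
        2 * ((Fintype.card ι + sr (sy A₀ A * P.map (MvPolynomial.C (σ := σ))) - u) / 2)) ∧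
      ∀ b : σ → F, (∀ G : Matrix ι ι F, lin A₀ A b * G * lin A₀ A b = lin A₀ A b →
        Idt (lin A₀ A b) G (Submodule.span F (Set.range A))) →
        sr (sy A₀ A * P.map (MvPolynomial.C (σ := σ))) = (lin A₀ A b * P).rank →
        sr (sy A₀ A) ≤ (lin A₀ A b).rank := by
  classical
  set V := Submodule.span F (Set.range A) with hVdef
  have hsV := span_alt A hs
  obtain ⟨P, hP1, hP2, hP3⟩ := exists_cols (sm V (4 * c + 7))
  have hu := finrank_sm_alt h2 V hsV hV hc
  have hker : ∀ b : σ → F, (∀ G : Matrix ι ι F, lin A₀ A b * G * lin A₀ A b = lin A₀ A b →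
      Idt (lin A₀ A b) G V) → (lin A₀ A b).rank =
        2 * ((Fintype.card ι + (lin A₀ A b * P).rank - P.rank) / 2) := by
    intro b hId
    have hA := lin_alt A₀ A h0 hs b
    obtain ⟨G, hG, hG'⟩ := alt_ginv hA
    have h3 : ∃ k : ι → F, LinearMap.ker (lin A₀ A b).mulVecLin ≤
        (LinearMap.range P.mulVecLin ⊓ LinearMap.ker (lin A₀ A b).mulVecLin) ⊔
          Submodule.span F {k} := by
      by_cases hk : ∃ k, lin A₀ A b *ᵥ k = 0 ∧ k ∉ Submodule.span F (sm V (4 * c + 7))
      · obtain ⟨k, hk, hkU⟩ := hk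
        refine ⟨k, fun l hl => ?_⟩
        have hl0 : lin A₀ A b *ᵥ l = 0 := by simpa using hl
        obtain ⟨s, hs⟩ : ∃ s : F, l - s • k ∈ Submodule.span F (sm V (4 * c + 7)) := by
          by_contra hno
          push Not at hno
          have hlarge : ∀ z, z ∉ Submodule.span F (sm V (4 * c + 7)) →
              4 * c + 8 ≤ finrank F (V.map (evR z)) := by
            intro z hz
            by_contra hlt
            exact hz (Submodule.subset_span
              (show finrank F (V.map (evR z)) ≤ 4 * c + 7 by omega))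
          exact alt_key h2 hsV hA hG' (hId G hG) hV (by omega) hk hl0 (hlarge k hkU)
            (fun s => le_trans (by omega) (hlarge _ (hno s)))
        have e : l = (l - s • k) + s • k := by abel
        rw [e]
        refine Submodule.add_mem_sup ⟨?_, ?_⟩ (Submodule.smul_mem _ _
          (Submodule.mem_span_singleton_self _))
        · rw [hP2]
          exact hs
        · show lin A₀ A b *ᵥ (l - s • k) = 0
          rw [Matrix.mulVec_sub, Matrix.mulVec_smul, hk, hl0, smul_zero, sub_zero]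
      · push Not at hk
        refine ⟨0, fun l hl => Submodule.mem_sup_left ⟨?_, hl⟩⟩
        rw [hP2]
        exact hk l (by simpa using hl)
    obtain ⟨k, hk⟩ := h3
    have h4 := Submodule.finrank_mono hk
    have h5 := finrank_sup_le (LinearMap.range P.mulVecLin ⊓
      LinearMap.ker (lin A₀ A b).mulVecLin) k
    have h6 := rank_mul_add (lin A₀ A b) P
    have h7 := rank_add_ker (lin A₀ A b)
    have h8 := defect_le (lin A₀ A b) P
    obtain ⟨r, hr⟩ := even_rank h2 _ hA
    omega
  obtain ⟨g, hg, hg1, -⟩ := exists_generic A₀ A P (0 : Matrix (Fin 0) ι F)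
  have hfor : sr (sy A₀ A) =
        2 * ((Fintype.card ι + sr (sy A₀ A * P.map (MvPolynomial.C (σ := σ))) -
          finrank F (Submodule.span F (sm V (4 * c + 7)))) / 2) := by
    have h3 := hker g (idt_of_stuck A₀ A g (fun b' _ => by
      rw [hg]
      exact lin_le_sr _ _ _))
    rw [hg1, ← hg, h3, hP1]
  refine ⟨_, P, hu, hP1, hP3, hfor, ?_⟩
  intro b hId h1
  have h3 := hker b hId
  rw [hP1, ← h1, ← hfor] at h3
  exact h3.ge

/-- **Skew-symmetric case: local search** -/
theorem alt_search [Infinite F] (h2 : (2 : F) ≠ 0) (A₀ : Matrix ι ι F) (A : σ → Matrix ι ι F)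
    (h0 : A₀ᵀ = -A₀) (hs : ∀ i, (A i)ᵀ = -A i) {c : ℕ}
    (hV : Fintype.card ι * Fintype.card ι ≤
      2 * finrank F (Submodule.span F (Set.range A)) + 2 * c * Fintype.card ι + Fintype.card ι)
    (a : σ → F) (ha : (lin A₀ A a).rank < sr (sy A₀ A)) :
    ∃ b : σ → F, nd b a ≤ 10 * (c + 2) ∧ (lin A₀ A a).rank < (lin A₀ A b).rank := by
  by_cases hc : 10 * (c + 2) ≤ Fintype.card ι
  · obtain ⟨u, P, hu, -, -, -, hopt⟩ := alt_all h2 A₀ A h0 hs hV hc
    exact search A₀ A P (0 : Matrix (Fin 0) ι F) (by omega) (fun b h1 h3 _ => hopt b h1 h3) a ha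
  · obtain ⟨b, hb, hb'⟩ := exists_small A₀ A a ha
    exact ⟨b, by omega, hb'⟩

end Pool.Agent.H22.DE
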