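import Mathlib

/-!
Counting lemmas for spaces of matrices (dense symbolic matrices, MP_966f71_lc), helper22.

* `evR u`, `evL w`: `M ↦ M u`, `M ↦ w M`.
* `finrank_le_of_ker`: rank-nullity in the form needed.
* `finrank_perp`: dimension of `{r | r z = 0 for z ∈ Z}`.
* `finrank_kill`: dimension of `{M | M X = 0, Y M = 0}` (upper bound).
* `cnt1`, `cntL`, `cnt2`: the counting lemmas.
-/

set_option autoImplicit false

open Module Matrix

namespace Pool.Agent.H22.DE

variable {F : Type*} [Field F] {m n : Type*} [Fintype m] [Fintype n] [DecidableEq m] [DecidableEq n]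

/-- `M ↦ M u` -/
def evR (u : n → F) : Matrix m n F →ₗ[F] (m → F) where
  toFun M := M *ᵥ u
  map_add' M N := Matrix.add_mulVec M N u
  map_smul' c M := by simp [Matrix.smul_mulVec]

/-- `M ↦ w M` -/
def evL (w : m → F) : Matrix m n F →ₗ[F] (n → F) where
  toFun M := w ᵥ* M
  map_add' M N := Matrix.vecMul_add M N w
  map_smul' c M := by simp [Matrix.vecMul_smul]

omit [Fintype m] [DecidableEq m] [DecidableEq n] in
@[simp] lemma evR_apply (u : n → F) (M : Matrix m n F) : evR u M = M *ᵥ u := rfl

omit [Fintype n] [DecidableEq m] [DecidableEq n] in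
@[simp] lemma evL_apply (w : m → F) (M : Matrix m n F) : evL w M = w ᵥ* M := rfl

section general

variable {E E' : Type*} [AddCommGroup E] [Module F E] [FiniteDimensional F E]
  [AddCommGroup E'] [Module F E'] [FiniteDimensional F E']

/-- rank-nullity for the restriction of a linear map to a subspace -/
lemma finrank_le_of_ker (V W : Submodule F E) (f : V →ₗ[F] E')
    (h : ∀ v : V, f v = 0 → (v : E) ∈ W) :
    finrank F V ≤ finrank F E' + finrank F W := by
  have h1 := LinearMap.finrank_range_add_finrank_ker f
  have h2 : finrank F (LinearMap.range f) ≤ finrank F E' := Submodule.finrank_le _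
  have h3 : finrank F (LinearMap.ker f) ≤ finrank F W := by
    let g : LinearMap.ker f →ₗ[F] W :=
      ((V.subtype.comp (LinearMap.ker f).subtype)).codRestrict W
        (fun v => h v.1 (LinearMap.mem_ker.1 v.2))
    refine LinearMap.finrank_le_finrank_of_injective (f := g) ?_
    intro a b hab
    have := congrArg Subtype.val hab
    exact Subtype.ext (Subtype.ext this)
  omega

/-- the same with the image in a subspace -/
lemma finrank_le_map_add (V W : Submodule F E) (f : E →ₗ[F] E') (V' : Submodule F E')
    (h : ∀ v ∈ V, f v ∈ V') (h0 : ∀ v ∈ V, f v = 0 → v ∈ W) :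
    finrank F V ≤ finrank F V' + finrank F W := by
  refine finrank_le_of_ker V W ((f.domRestrict V).codRestrict V' (fun v => h v.1 v.2)) ?_
  intro v hv
  exact h0 v.1 v.2 (by simpa using congrArg Subtype.val hv)

omit [FiniteDimensional F E'] in
/-- rank-nullity on a subspace -/
lemma finrank_eq_map_add (V : Submodule F E) (f : E →ₗ[F] E') :
    finrank F V = finrank F (V.map f) + finrank F (V ⊓ LinearMap.ker f : Submodule F E) := by
  have h1 := LinearMap.finrank_range_add_finrank_ker (f.domRestrict V)
  rw [LinearMap.range_domRestrict, LinearMap.ker_domRestrict] at h1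
  have h2 : finrank F (Submodule.comap V.subtype (LinearMap.ker f)) =
      finrank F (V ⊓ LinearMap.ker f : Submodule F E) := by
    rw [inf_comm]
    have e := Submodule.comapSubtypeEquivOfLe (p := V ⊓ LinearMap.ker f) (q := V) inf_le_left
    have h3 : Submodule.comap V.subtype (V ⊓ LinearMap.ker f) =
        Submodule.comap V.subtype (LinearMap.ker f) := by
      ext x
      simp
    rw [h3] at e
    rw [inf_comm]
    exact e.finrank_eq
  omega

end general

/-- the orthogonal space of `Z` -/
def perp (Z : Submodule F (n → F)) : Submodule F (n → F) where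
  carrier := {r | ∀ z ∈ Z, r ⬝ᵥ z = 0}
  add_mem' := by
    intro a b ha hb z hz
    rw [add_dotProduct, ha z hz, hb z hz, add_zero]
  zero_mem' := by
    intro z _
    exact zero_dotProduct z
  smul_mem' := by
    intro c a ha z hz
    rw [smul_dotProduct, ha z hz, smul_zero]

omit [DecidableEq n] in
lemma mem_perp {Z : Submodule F (n → F)} {r : n → F} : r ∈ perp Z ↔ ∀ z ∈ Z, r ⬝ᵥ z = 0 := Iff.rfl

lemma finrank_perp (Z : Submodule F (n → F)) :
    finrank F (perp Z) + finrank F Z = Fintype.card n := by
  have h1 := Subspace.finrank_add_finrank_dualAnnihilator_eq Z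
  have h2 : perp Z = (Z.dualAnnihilator).comap (dotProductEquiv F n).toLinearMap := by
    ext r
    simp only [mem_perp, Submodule.mem_comap, Submodule.mem_dualAnnihilator]
    rfl
  have h3 : finrank F (perp Z) = finrank F Z.dualAnnihilator := by
    rw [h2]
    exact (LinearEquiv.ofSubmodule' (dotProductEquiv F n) Z.dualAnnihilator).finrank_eq
  rw [finrank_fintype_fun_eq_card] at h1
  omega

/-- matrices that kill `X` on the right and `Y` on the left -/
def kill (X : Submodule F (n → F)) (Y : Submodule F (m → F)) : Submodule F (Matrix m n F) where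
  carrier := {M | (∀ x ∈ X, M *ᵥ x = 0) ∧ ∀ y ∈ Y, y ᵥ* M = 0}
  add_mem' := by
    rintro a b ⟨ha, ha'⟩ ⟨hb, hb'⟩
    refine ⟨fun x hx => ?_, fun y hy => ?_⟩
    · rw [Matrix.add_mulVec, ha x hx, hb x hx, add_zero]
    · rw [Matrix.vecMul_add, ha' y hy, hb' y hy, add_zero]
  zero_mem' := ⟨fun x _ => Matrix.zero_mulVec x, fun y _ => Matrix.vecMul_zero y⟩
  smul_mem' := by
    rintro c a ⟨ha, ha'⟩
    refine ⟨fun x hx => ?_, fun y hy => ?_⟩
    · rw [Matrix.smul_mulVec, ha x hx, smul_zero]
    · rw [Matrix.vecMul_smul, ha' y hy, smul_zero]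

lemma finrank_kill (X : Submodule F (n → F)) (Y : Submodule F (m → F)) :
    finrank F (kill X Y) ≤
      (Fintype.card n - finrank F X) * (Fintype.card m - finrank F Y) := by
  obtain ⟨X', hX'⟩ := Submodule.exists_isCompl X
  have hc : finrank F X' = Fintype.card n - finrank F X := by
    have := Submodule.finrank_add_eq_of_isCompl hX'
    rw [finrank_fintype_fun_eq_card] at this
    omega
  have hY : finrank F (perp Y) = Fintype.card m - finrank F Y := by
    have := finrank_perp Y
    omega
  let g : kill X Y →ₗ[F] (X' →ₗ[F] perp Y) :=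
    { toFun := fun M => ((Matrix.mulVecLin M.1).domRestrict X').codRestrict (perp Y) (by
        intro x y hy
        show (M.1 *ᵥ x.1) ⬝ᵥ y = 0
        rw [dotProduct_comm, dotProduct_mulVec, M.2.2 y hy, zero_dotProduct])
      map_add' := by
        intro M N
        ext x : 2
        show (M.1 + N.1) *ᵥ x.1 = M.1 *ᵥ x.1 + N.1 *ᵥ x.1
        exact Matrix.add_mulVec _ _ _
      map_smul' := by
        intro c M
        ext x : 2
        show (c • M.1) *ᵥ x.1 = c • (M.1 *ᵥ x.1)
        exact Matrix.smul_mulVec _ _ _ }
  have hinj : Function.Injective g := by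
    refine (injective_iff_map_eq_zero g).2 ?_
    intro M hM
    apply Subtype.ext
    have h1 : ∀ x ∈ X', M.1 *ᵥ x = 0 := by
      intro x hx
      have := congrArg (fun f : X' →ₗ[F] perp Y => ((f ⟨x, hx⟩ : perp Y) : m → F)) hM
      exact this
    have h2 : ∀ x, M.1 *ᵥ x = 0 := by
      intro x
      obtain ⟨a, ha, b, hb, rfl⟩ := Submodule.mem_sup.1
        (show x ∈ X ⊔ X' by rw [hX'.sup_eq_top]; trivial)
      rw [Matrix.mulVec_add, M.2.1 a ha, h1 b hb, add_zero]
    ext i j
    have := congrFun (h2 (Pi.single j 1)) i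
    simpa using this
  have h3 := LinearMap.finrank_le_finrank_of_injective hinj
  rw [Module.finrank_linearMap, hc, hY] at h3
  exact h3

omit [Fintype m] [DecidableEq m] [DecidableEq n] in
lemma kill_mem_span {ι : Type*} (M : Matrix m n F) (u : ι → n → F) (h : ∀ i, M *ᵥ u i = 0) :
    ∀ x ∈ Submodule.span F (Set.range u), M *ᵥ x = 0 := by
  intro x hx
  have : Submodule.span F (Set.range u) ≤ LinearMap.ker (Matrix.mulVecLin M) := by
    rw [Submodule.span_le]
    rintro _ ⟨i, rfl⟩
    simpa using h i
  simpa using this hx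

omit [Fintype n] [DecidableEq m] [DecidableEq n] in
lemma kill_mem_spanL {ι : Type*} (M : Matrix m n F) (w : ι → m → F) (h : ∀ i, w i ᵥ* M = 0) :
    ∀ y ∈ Submodule.span F (Set.range w), y ᵥ* M = 0 := by
  intro y hy
  have : Submodule.span F (Set.range w) ≤ LinearMap.ker (Matrix.vecMulLinear M) := by
    rw [Submodule.span_le]
    rintro _ ⟨i, rfl⟩
    simpa using h i
  simpa using this hy

/-- Lemma (L1): independent vectors `u_i` with small images force large codimension. -/
lemma cnt1 (V : Submodule F (Matrix m n F)) {b : ℕ} (u : Fin b → n → F)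
    (hu : LinearIndependent F u) :
    finrank F V ≤ ∑ i, finrank F (V.map (evR (u i))) +
      (Fintype.card n - b) * Fintype.card m := by
  have h1 := finrank_le_of_ker (E' := ∀ i, V.map (evR (m := m) (u i))) V
    (kill (Submodule.span F (Set.range u)) ⊥)
    (LinearMap.pi fun i => ((evR (u i)).domRestrict V).codRestrict (V.map (evR (u i)))
      (fun v => Submodule.mem_map_of_mem v.2)) (by
        intro v hv
        refine ⟨kill_mem_span v.1 u fun i => ?_, ?_⟩
        · have := congrArg (fun f => ((f i : V.map (evR (m := m) (u i))) : m → F)) hv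
          exact this
        · intro y hy
          rw [(Submodule.mem_bot F).1 hy, Matrix.zero_vecMul])
  rw [finrank_pi_fintype] at h1
  have h2 := finrank_kill (m := m) (Submodule.span F (Set.range u)) (⊥ : Submodule F (m → F))
  rw [finrank_span_eq_card hu, Fintype.card_fin, finrank_bot, Nat.sub_zero] at h2
  omega

/-- The same for row vectors. -/
lemma cntL (V : Submodule F (Matrix m n F)) {b : ℕ} (w : Fin b → m → F)
    (hw : LinearIndependent F w) :
    finrank F V ≤ ∑ i, finrank F (V.map (evL (w i))) +
      Fintype.card n * (Fintype.card m - b) := by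
  have h1 := finrank_le_of_ker (E' := ∀ i, V.map (evL (n := n) (w i))) V
    (kill ⊥ (Submodule.span F (Set.range w)))
    (LinearMap.pi fun i => ((evL (w i)).domRestrict V).codRestrict (V.map (evL (w i)))
      (fun v => Submodule.mem_map_of_mem v.2)) (by
        intro v hv
        refine ⟨?_, kill_mem_spanL v.1 w fun i => ?_⟩
        · intro y hy
          rw [(Submodule.mem_bot F).1 hy, Matrix.mulVec_zero]
        · have := congrArg (fun f => ((f i : V.map (evL (n := n) (w i))) : n → F)) hv
          exact this)
  rw [finrank_pi_fintype] at h1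
  have h2 := finrank_kill (n := n) (⊥ : Submodule F (n → F)) (Submodule.span F (Set.range w))
  rw [finrank_span_eq_card hw, Fintype.card_fin, finrank_bot, Nat.sub_zero] at h2
  omega

/-- restricting to the matrices that kill the vectors `u_i` -/
lemma cutR (V : Submodule F (Matrix m n F)) {b : ℕ} (u : Fin b → n → F)
    (S : Fin b → Submodule F (m → F)) (h : ∀ M ∈ V, ∀ i, M *ᵥ u i ∈ S i) :
    finrank F V ≤ ∑ i, finrank F (S i) +
      finrank F ↥(V ⊓ kill (Submodule.span F (Set.range u)) (⊥ : Submodule F (m → F))) := by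
  have h1 := finrank_le_of_ker (E' := ∀ i, S i) V
    (V ⊓ kill (Submodule.span F (Set.range u)) ⊥)
    (LinearMap.pi fun i => ((evR (u i)).domRestrict V).codRestrict (S i) (fun v => h v.1 v.2 i)) (by
        intro v hv
        refine ⟨v.2, kill_mem_span v.1 u fun i => ?_, ?_⟩
        · have := congrArg (fun f => ((f i : S i) : m → F)) hv
          exact this
        · intro y hy
          rw [(Submodule.mem_bot F).1 hy, Matrix.zero_vecMul])
  rw [finrank_pi_fintype] at h1
  exact h1

/-- restricting to the matrices that kill the row vectors `w_i` -/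
lemma cutL (V : Submodule F (Matrix m n F)) {b : ℕ} (w : Fin b → m → F)
    (S : Fin b → Submodule F (n → F)) (h : ∀ M ∈ V, ∀ i, w i ᵥ* M ∈ S i) :
    finrank F V ≤ ∑ i, finrank F (S i) +
      finrank F ↥(V ⊓ kill (⊥ : Submodule F (n → F)) (Submodule.span F (Set.range w))) := by
  have h1 := finrank_le_of_ker (E' := ∀ i, S i) V
    (V ⊓ kill ⊥ (Submodule.span F (Set.range w)))
    (LinearMap.pi fun i => ((evL (w i)).domRestrict V).codRestrict (S i) (fun v => h v.1 v.2 i)) (by
        intro v hv
        refine ⟨v.2, ?_, kill_mem_spanL v.1 w fun i => ?_⟩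
        · intro y hy
          rw [(Submodule.mem_bot F).1 hy, Matrix.mulVec_zero]
        · have := congrArg (fun f => ((f i : S i) : n → F)) hv
          exact this)
  rw [finrank_pi_fintype] at h1
  exact h1

/-- Lemma (L2). -/
lemma cnt2 (D : Submodule F (Matrix m n F)) {b : ℕ} (x : Fin b → n → F)
    (hx : LinearIndependent F x) (y : Fin b → m → F) (hy : LinearIndependent F y)
    (Z : Fin b → Submodule F (n → F))
    (h : ∀ C ∈ D, (∀ i, C *ᵥ x i = 0) → ∀ i, ∀ z ∈ Z i, (y i ᵥ* C) ⬝ᵥ z = 0) :
    finrank F D ≤ ∑ i, finrank F (D.map (evR (x i))) + ∑ i, finrank F (perp (Z i)) +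
      (Fintype.card n - b) * (Fintype.card m - b) := by
  have h1 := cutR D x (fun i => D.map (evR (x i))) (fun M hM i => Submodule.mem_map_of_mem hM)
  set K := D ⊓ kill (Submodule.span F (Set.range x)) (⊥ : Submodule F (m → F)) with hK
  have h2 := cutL K y (fun i => perp (Z i)) (by
    intro M hM i z hz
    exact h M hM.1 (fun j => hM.2.1 _ (Submodule.subset_span ⟨j, rfl⟩)) i z hz)
  have h3 : finrank F ↥(K ⊓ kill (⊥ : Submodule F (n → F)) (Submodule.span F (Set.range y))) ≤
      finrank F (kill (Submodule.span F (Set.range x)) (Submodule.span F (Set.range y))) :=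
    Submodule.finrank_mono fun M hM => ⟨hM.1.2.1, hM.2.2⟩
  have h4 := finrank_kill (Submodule.span F (Set.range x)) (Submodule.span F (Set.range y))
  rw [finrank_span_eq_card hy, finrank_span_eq_card hx, Fintype.card_fin] at h4
  omega

end Pool.Agent.H22.DE
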