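import Pool.Agent.H22.DE.Key

/-!
Counting lemmas for symmetric and skew-symmetric matrices (helper22, MP_966f71_lc).
-/

set_option autoImplicit false

open Module Matrix

namespace Pool.Agent.H22.DE

variable {F : Type*} [Field F] {ι : Type*} [Fintype ι] [DecidableEq ι]

lemma card_lt (r : ℕ) :
    2 * Fintype.card {p : Fin r × Fin r // p.1 < p.2} + r = r * r := by
  classical
  have h1 : (Finset.univ.filter fun p : Fin r × Fin r => p.1 < p.2).card =
      (Finset.univ.filter fun p : Fin r × Fin r => p.2 < p.1).card := by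
    refine Finset.card_bij (fun p _ => p.swap) ?_ ?_ ?_
    · intro p hp
      simpa using hp
    · intro p _ q _ h
      exact Prod.swap_injective h
    · intro p hp
      exact ⟨p.swap, by simpa using hp, by simp⟩
  have h2 : (Finset.univ.filter fun p : Fin r × Fin r => p.1 = p.2).card = r := by
    have : (Finset.univ.filter fun p : Fin r × Fin r => p.1 = p.2) =
        Finset.univ.image fun i : Fin r => (i, i) := by
      ext ⟨a, b⟩
      simp only [Finset.mem_filter, Finset.mem_univ, true_and, Finset.mem_image, Prod.mk.injEq]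
      constructor
      · rintro rfl
        exact ⟨a, rfl, rfl⟩
      · rintro ⟨c, rfl, rfl⟩
        rfl
    rw [this, Finset.card_image_of_injective _ (fun a b h => (Prod.mk.inj h).1)]
    simp
  have h3 : (Finset.univ.filter fun p : Fin r × Fin r => p.1 < p.2).card +
      (Finset.univ.filter fun p : Fin r × Fin r => p.2 < p.1).card +
      (Finset.univ.filter fun p : Fin r × Fin r => p.1 = p.2).card = r * r := by
    have e1 := Finset.card_filter_add_card_filter_not (s := (Finset.univ : Finset (Fin r × Fin r)))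
      (fun p : Fin r × Fin r => p.1 < p.2)
    have e2 : (Finset.univ.filter fun p : Fin r × Fin r => ¬ p.1 < p.2).card =
        (Finset.univ.filter fun p : Fin r × Fin r => p.2 < p.1).card +
        (Finset.univ.filter fun p : Fin r × Fin r => p.1 = p.2).card := by
      rw [← Finset.card_union_of_disjoint]
      · congr 1
        ext ⟨a, b⟩
        simp only [Finset.mem_filter, Finset.mem_univ, true_and, Finset.mem_union, not_lt]
        rw [le_iff_lt_or_eq]
        constructor
        · rintro (h | h)
          · exact Or.inl h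
          · exact Or.inr h.symm
        · rintro (h | h)
          · exact Or.inl h
          · exact Or.inr h.symm
      · rw [Finset.disjoint_filter]
        rintro ⟨a, b⟩ _ h1 h2
        simp only at h1 h2
        rw [h2] at h1
        exact lt_irrefl _ h1
    rw [e2] at e1
    simp only [Finset.card_univ, Fintype.card_prod, Fintype.card_fin] at e1
    omega
  rw [Fintype.card_subtype]
  omega

lemma card_le (r : ℕ) :
    2 * Fintype.card {p : Fin r × Fin r // p.1 ≤ p.2} = r * r + r := by
  classical
  have h0 := card_lt r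
  have h2 : (Finset.univ.filter fun p : Fin r × Fin r => p.1 = p.2).card = r := by
    have : (Finset.univ.filter fun p : Fin r × Fin r => p.1 = p.2) =
        Finset.univ.image fun i : Fin r => (i, i) := by
      ext ⟨a, b⟩
      simp only [Finset.mem_filter, Finset.mem_univ, true_and, Finset.mem_image, Prod.mk.injEq]
      constructor
      · rintro rfl
        exact ⟨a, rfl, rfl⟩
      · rintro ⟨c, rfl, rfl⟩
        rfl
    rw [this, Finset.card_image_of_injective _ (fun a b h => (Prod.mk.inj h).1)]
    simp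
  have e2 : (Finset.univ.filter fun p : Fin r × Fin r => p.1 ≤ p.2).card =
      (Finset.univ.filter fun p : Fin r × Fin r => p.1 < p.2).card +
      (Finset.univ.filter fun p : Fin r × Fin r => p.1 = p.2).card := by
    rw [← Finset.card_union_of_disjoint]
    · congr 1
      ext ⟨a, b⟩
      simp only [Finset.mem_filter, Finset.mem_univ, true_and, Finset.mem_union]
      rw [le_iff_lt_or_eq]
    · rw [Finset.disjoint_filter]
      rintro ⟨a, b⟩ _ h1 h2
      simp only at h1 h2
      rw [h2] at h1
      exact lt_irrefl _ h1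
  rw [Fintype.card_subtype] at h0 ⊢
  omega

/-- a matrix that pairs trivially on a complement of `X` and kills `X` on both sides is zero -/
lemma eq_zero_of_pairs (M : Matrix ι ι F) (X X' : Submodule F (ι → F)) (hX : IsCompl X X')
    (h1 : ∀ x ∈ X, M *ᵥ x = 0) (h2 : ∀ x ∈ X, ∀ y, x ⬝ᵥ (M *ᵥ y) = 0)
    (h3 : ∀ x ∈ X', ∀ y ∈ X', x ⬝ᵥ (M *ᵥ y) = 0) : M = 0 := by
  have hall : ∀ x y, x ⬝ᵥ (M *ᵥ y) = 0 := by
    intro x y
    obtain ⟨a, ha, b, hb, rfl⟩ := Submodule.mem_sup.1
      (show x ∈ X ⊔ X' by rw [hX.sup_eq_top]; trivial)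
    obtain ⟨c, hc, d, hd, rfl⟩ := Submodule.mem_sup.1
      (show y ∈ X ⊔ X' by rw [hX.sup_eq_top]; trivial)
    rw [add_dotProduct, h2 a ha, zero_add, Matrix.mulVec_add, h1 c hc, zero_add, h3 b hb d hd]
  ext i j
  have := hall (Pi.single i 1) (Pi.single j 1)
  simpa using this

/-- symmetric matrices that kill `X` -/
lemma finrank_kill_sym (K : Submodule F (Matrix ι ι F)) (X : Submodule F (ι → F))
    (hs : ∀ M ∈ K, Mᵀ = M) (hX : ∀ M ∈ K, ∀ x ∈ X, M *ᵥ x = 0) :
    2 * finrank F K ≤ (Fintype.card ι - finrank F X) * (Fintype.card ι - finrank F X) +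
      (Fintype.card ι - finrank F X) := by
  obtain ⟨X', hX'⟩ := Submodule.exists_isCompl X
  have hc : finrank F X' = Fintype.card ι - finrank F X := by
    have := Submodule.finrank_add_eq_of_isCompl hX'
    rw [finrank_fintype_fun_eq_card] at this
    omega
  set r := finrank F X' with hr
  let e := Module.finBasis F X'
  let g : K →ₗ[F] ({p : Fin r × Fin r // p.1 ≤ p.2} → F) :=
    { toFun := fun M p => (e p.1.1 : ι → F) ⬝ᵥ (M.1 *ᵥ (e p.1.2 : ι → F))
      map_add' := by
        intro M N
        funext p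
        show (e p.1.1 : ι → F) ⬝ᵥ ((M.1 + N.1) *ᵥ (e p.1.2 : ι → F)) = _
        rw [Matrix.add_mulVec, dotProduct_add]
        rfl
      map_smul' := by
        intro c M
        funext p
        show (e p.1.1 : ι → F) ⬝ᵥ ((c • M.1) *ᵥ (e p.1.2 : ι → F)) = _
        rw [Matrix.smul_mulVec, dotProduct_smul]
        rfl }
  have hsymm : ∀ M ∈ K, ∀ x y : ι → F, x ⬝ᵥ (M *ᵥ y) = y ⬝ᵥ (M *ᵥ x) := by
    intro M hM x y
    rw [Matrix.dotProduct_mulVec, ← Matrix.mulVec_transpose, hs M hM, dotProduct_comm]
  have hinj : Function.Injective g := by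
    refine (injective_iff_map_eq_zero g).2 ?_
    intro M hM
    apply Subtype.ext
    have hij : ∀ i j, (e i : ι → F) ⬝ᵥ (M.1 *ᵥ (e j : ι → F)) = 0 := by
      intro i j
      rcases le_total i j with h | h
      · exact congrFun hM ⟨(i, j), h⟩
      · rw [hsymm M.1 M.2]
        exact congrFun hM ⟨(j, i), h⟩
    refine eq_zero_of_pairs M.1 X X' hX' (hX M.1 M.2) ?_ ?_
    · intro x hx y
      rw [hsymm M.1 M.2, hX M.1 M.2 x hx, dotProduct_zero]
    · intro x hx y hy
      have ex := congrArg Subtype.val (e.sum_repr ⟨x, hx⟩)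
      have ey := congrArg Subtype.val (e.sum_repr ⟨y, hy⟩)
      simp only [AddSubmonoidClass.coe_finset_sum, SetLike.val_smul] at ex ey
      rw [← ex, ← ey, Matrix.mulVec_sum, sum_dotProduct]
      refine Finset.sum_eq_zero fun i _ => ?_
      rw [smul_dotProduct, dotProduct_sum, Finset.sum_eq_zero, smul_zero]
      intro j _
      rw [Matrix.mulVec_smul, dotProduct_smul, hij, smul_zero]
  have h3 := LinearMap.finrank_le_finrank_of_injective hinj
  rw [finrank_fintype_fun_eq_card] at h3
  have h4 := card_le r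
  rw [← hc]
  omega

/-- skew-symmetric matrices that kill `X` -/
lemma finrank_kill_alt (h2 : (2 : F) ≠ 0) (K : Submodule F (Matrix ι ι F))
    (X : Submodule F (ι → F)) (hs : ∀ M ∈ K, Mᵀ = -M) (hX : ∀ M ∈ K, ∀ x ∈ X, M *ᵥ x = 0) :
    2 * finrank F K + (Fintype.card ι - finrank F X) ≤
      (Fintype.card ι - finrank F X) * (Fintype.card ι - finrank F X) := by
  obtain ⟨X', hX'⟩ := Submodule.exists_isCompl X
  have hc : finrank F X' = Fintype.card ι - finrank F X := by
    have := Submodule.finrank_add_eq_of_isCompl hX'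
    rw [finrank_fintype_fun_eq_card] at this
    omega
  set r := finrank F X' with hr
  let e := Module.finBasis F X'
  let g : K →ₗ[F] ({p : Fin r × Fin r // p.1 < p.2} → F) :=
    { toFun := fun M p => (e p.1.1 : ι → F) ⬝ᵥ (M.1 *ᵥ (e p.1.2 : ι → F))
      map_add' := by
        intro M N
        funext p
        show (e p.1.1 : ι → F) ⬝ᵥ ((M.1 + N.1) *ᵥ (e p.1.2 : ι → F)) = _
        rw [Matrix.add_mulVec, dotProduct_add]
        rfl
      map_smul' := by
        intro c M
        funext p
        show (e p.1.1 : ι → F) ⬝ᵥ ((c • M.1) *ᵥ (e p.1.2 : ι → F)) = _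
        rw [Matrix.smul_mulVec, dotProduct_smul]
        rfl }
  have hsymm : ∀ M ∈ K, ∀ x y : ι → F, x ⬝ᵥ (M *ᵥ y) = -(y ⬝ᵥ (M *ᵥ x)) := by
    intro M hM x y
    rw [Matrix.dotProduct_mulVec, ← Matrix.mulVec_transpose, hs M hM, Matrix.neg_mulVec,
      neg_dotProduct, dotProduct_comm]
  have hinj : Function.Injective g := by
    refine (injective_iff_map_eq_zero g).2 ?_
    intro M hM
    apply Subtype.ext
    have hij : ∀ i j, (e i : ι → F) ⬝ᵥ (M.1 *ᵥ (e j : ι → F)) = 0 := by
      intro i j
      rcases lt_trichotomy i j with h | h | h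
      · exact congrFun hM ⟨(i, j), h⟩
      · subst h
        have h3 := hsymm M.1 M.2 (e i) (e i)
        have h4 : (2 : F) * ((e i : ι → F) ⬝ᵥ (M.1 *ᵥ (e i : ι → F))) = 0 := by
          linear_combination h3
        exact (mul_eq_zero.1 h4).resolve_left h2
      · rw [hsymm M.1 M.2, neg_eq_zero]
        exact congrFun hM ⟨(j, i), h⟩
    refine eq_zero_of_pairs M.1 X X' hX' (hX M.1 M.2) ?_ ?_
    · intro x hx y
      rw [hsymm M.1 M.2, hX M.1 M.2 x hx, dotProduct_zero, neg_zero]
    · intro x hx y hy
      have ex := congrArg Subtype.val (e.sum_repr ⟨x, hx⟩)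
      have ey := congrArg Subtype.val (e.sum_repr ⟨y, hy⟩)
      simp only [AddSubmonoidClass.coe_finset_sum, SetLike.val_smul] at ex ey
      rw [← ex, ← ey, Matrix.mulVec_sum, sum_dotProduct]
      refine Finset.sum_eq_zero fun i _ => ?_
      rw [smul_dotProduct, dotProduct_sum, Finset.sum_eq_zero, smul_zero]
      intro j _
      rw [Matrix.mulVec_smul, dotProduct_smul, hij, smul_zero]
  have h3 := LinearMap.finrank_le_finrank_of_injective hinj
  rw [finrank_fintype_fun_eq_card] at h3
  have h4 := card_lt r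
  rw [← hc]
  omega

/-- restricting to the matrices that kill independent vectors -/
lemma cnt1' (V : Submodule F (Matrix ι ι F)) {b : ℕ} (u : Fin b → ι → F) :
    ∃ K : Submodule F (Matrix ι ι F), K ≤ V ∧
      (∀ M ∈ K, ∀ x ∈ Submodule.span F (Set.range u), M *ᵥ x = 0) ∧
      finrank F V ≤ ∑ i, finrank F (V.map (evR (u i))) + finrank F K := by
  refine ⟨V ⊓ kill (Submodule.span F (Set.range u)) ⊥, inf_le_left, fun M hM => hM.2.1, ?_⟩
  have h1 := finrank_le_of_ker (E' := ∀ i, V.map (evR (m := ι) (u i))) V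
    (V ⊓ kill (Submodule.span F (Set.range u)) ⊥)
    (LinearMap.pi fun i => ((evR (u i)).domRestrict V).codRestrict (V.map (evR (u i)))
      (fun v => Submodule.mem_map_of_mem v.2)) (by
        intro v hv
        refine ⟨v.2, kill_mem_span v.1 u fun i => ?_, ?_⟩
        · have := congrArg (fun f => ((f i : V.map (evR (m := ι) (u i))) : ι → F)) hv
          exact this
        · intro y hy
          rw [(Submodule.mem_bot F).1 hy, Matrix.zero_vecMul])
  rw [finrank_pi_fintype] at h1
  exact h1

/-- (L1) for symmetric matrices -/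
lemma cntS (V : Submodule F (Matrix ι ι F)) (hs : ∀ M ∈ V, Mᵀ = M) {b : ℕ} (u : Fin b → ι → F)
    (hu : LinearIndependent F u) :
    2 * finrank F V ≤ 2 * ∑ i, finrank F (V.map (evR (u i))) +
      ((Fintype.card ι - b) * (Fintype.card ι - b) + (Fintype.card ι - b)) := by
  obtain ⟨K, hK, hX, h1⟩ := cnt1' V u
  have h2 := finrank_kill_sym K _ (fun M hM => hs M (hK hM)) hX
  rw [finrank_span_eq_card hu, Fintype.card_fin] at h2
  omega

/-- (L1) for skew-symmetric matrices -/
lemma cntA (h2 : (2 : F) ≠ 0) (V : Submodule F (Matrix ι ι F)) (hs : ∀ M ∈ V, Mᵀ = -M) {b : ℕ}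
    (u : Fin b → ι → F) (hu : LinearIndependent F u) :
    2 * finrank F V + (Fintype.card ι - b) ≤ 2 * ∑ i, finrank F (V.map (evR (u i))) +
      (Fintype.card ι - b) * (Fintype.card ι - b) := by
  obtain ⟨K, hK, hX, h1⟩ := cnt1' V u
  have h3 := finrank_kill_alt h2 K _ (fun M hM => hs M (hK hM)) hX
  rw [finrank_span_eq_card hu, Fintype.card_fin] at h3
  omega

end Pool.Agent.H22.DE
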