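import Pool.Agent.H22.DE.Loc

/-!
Common tools for dense spaces of square matrices: small vectors, defects, nearby and generic points
(helper22, MP_966f71_lc).
-/

set_option autoImplicit false
set_option linter.unusedSectionVars false

open Module Matrix

namespace Pool.Agent.H22.DE

variable {F : Type*} [Field F] {σ : Type*} [Fintype σ]
  {ι : Type*} [Fintype ι] [DecidableEq ι]

/-- the vectors `u` with `dim V u ≤ t` -/
def sm (V : Submodule F (Matrix ι ι F)) (t : ℕ) : Set (ι → F) :=
  {u | finrank F (V.map (evR u)) ≤ t}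

/-- the row vectors `w` with `dim w V ≤ t` -/
def smL (V : Submodule F (Matrix ι ι F)) (t : ℕ) : Set (ι → F) :=
  {w | finrank F (V.map (evL w)) ≤ t}

/-- a matrix whose columns are elements of `s` and a basis of its span -/
lemma exists_cols (s : Set (ι → F)) :
    ∃ P : Matrix ι (Fin (finrank F (Submodule.span F s))) F,
      P.rank = finrank F (Submodule.span F s) ∧
      LinearMap.range P.mulVecLin = Submodule.span F s ∧ ∀ j, (fun i => P i j) ∈ s := by
  obtain ⟨u, hu, hus⟩ := exists_indep (F := F) s (b := finrank F (Submodule.span F s)) le_rfl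
  have h1 : LinearMap.range (Matrix.of fun i j => u j i).mulVecLin =
      Submodule.span F (Set.range u) := by
    rw [Matrix.range_mulVecLin]
    rfl
  have h2 : Submodule.span F (Set.range u) = Submodule.span F s := by
    refine Submodule.eq_of_le_of_finrank_eq (Submodule.span_mono ?_) ?_
    · rintro _ ⟨i, rfl⟩
      exact hus i
    · rw [finrank_span_eq_card hu, Fintype.card_fin]
  refine ⟨Matrix.of fun i j => u j i, ?_, h1.trans h2, fun j => hus j⟩
  rw [Matrix.rank, h1, h2]

lemma rank_add_ker (A : Matrix ι ι F) :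
    A.rank + finrank F (LinearMap.ker A.mulVecLin) = Fintype.card ι := by
  rw [Matrix.rank, LinearMap.finrank_range_add_finrank_ker, finrank_fintype_fun_eq_card]

section defects

variable {κ : Type*} [Fintype κ]

lemma rank_mul_add (A : Matrix ι ι F) (P : Matrix ι κ F) :
    P.rank = (A * P).rank + finrank F
      (LinearMap.range P.mulVecLin ⊓ LinearMap.ker A.mulVecLin : Submodule F (ι → F)) := by
  have h1 := finrank_eq_map_add (LinearMap.range P.mulVecLin) A.mulVecLin
  have h2 : (A * P).rank = finrank F ((LinearMap.range P.mulVecLin).map A.mulVecLin) := by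
    rw [Matrix.rank, Matrix.mulVecLin_mul, LinearMap.range_comp]
  rw [h2]
  exact h1

/-- the defect on a subspace is at most the defect -/
lemma defect_le (A : Matrix ι ι F) (P : Matrix ι κ F) :
    P.rank + A.rank ≤ (A * P).rank + Fintype.card ι := by
  have h1 := rank_mul_add A P
  have h2 := rank_add_ker A
  have h3 : finrank F (LinearMap.range P.mulVecLin ⊓ LinearMap.ker A.mulVecLin : Submodule F (ι → F)) ≤
      finrank F (LinearMap.ker A.mulVecLin) := Submodule.finrank_mono inf_le_right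
  omega

/-- equality if the kernel is contained in the subspace -/
lemma defect_eq (A : Matrix ι ι F) (P : Matrix ι κ F)
    (h : ∀ k, A *ᵥ k = 0 → k ∈ LinearMap.range P.mulVecLin) :
    P.rank + A.rank = (A * P).rank + Fintype.card ι := by
  have h1 := rank_mul_add A P
  have h2 := rank_add_ker A
  have h3 : (LinearMap.range P.mulVecLin ⊓ LinearMap.ker A.mulVecLin : Submodule F (ι → F)) =
      LinearMap.ker A.mulVecLin := inf_eq_right.2 fun k hk => h k (by simpa using hk)
  rw [h3] at h1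
  omega

lemma rank_mul_T (A : Matrix ι ι F) (Q : Matrix κ ι F) : (Q * A).rank = (Aᵀ * Qᵀ).rank := by
  rw [← Matrix.rank_transpose, Matrix.transpose_mul]

lemma defectL_le (A : Matrix ι ι F) (Q : Matrix κ ι F) :
    Q.rank + A.rank ≤ (Q * A).rank + Fintype.card ι := by
  rw [rank_mul_T, ← Matrix.rank_transpose A, ← Matrix.rank_transpose Q]
  exact defect_le Aᵀ Qᵀ

lemma defectL_eq (A : Matrix ι ι F) (Q : Matrix κ ι F)
    (h : ∀ w, w ᵥ* A = 0 → w ∈ LinearMap.range Qᵀ.mulVecLin) :
    Q.rank + A.rank = (Q * A).rank + Fintype.card ι := by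
  rw [rank_mul_T, ← Matrix.rank_transpose A, ← Matrix.rank_transpose Q]
  refine defect_eq Aᵀ Qᵀ fun k hk => h k ?_
  rwa [Matrix.mulVec_transpose] at hk

end defects

section pencil

variable {m n m' n' : Type*} [Fintype m] [Fintype n] [Fintype m'] [Fintype n']

omit [Fintype m] [Fintype n'] in
lemma lin_mul (A₀ : Matrix m n F) (A : σ → Matrix m n F) (P : Matrix n n' F) (x : σ → F) :
    lin A₀ A x * P = lin (A₀ * P) (fun i => A i * P) x := by
  unfold lin
  rw [Matrix.add_mul, Matrix.sum_mul]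
  congr 1
  exact Finset.sum_congr rfl fun i _ => Matrix.smul_mul _ _ _

omit [Fintype n] [Fintype m'] in
lemma mul_lin (A₀ : Matrix m n F) (A : σ → Matrix m n F) (Q : Matrix m' m F) (x : σ → F) :
    Q * lin A₀ A x = lin (Q * A₀) (fun i => Q * A i) x := by
  unfold lin
  rw [Matrix.mul_add, Matrix.mul_sum]
  congr 1
  exact Finset.sum_congr rfl fun i _ => Matrix.mul_smul _ _ _

omit [Fintype m] [Fintype n'] in
lemma sy_mul (A₀ : Matrix m n F) (A : σ → Matrix m n F) (P : Matrix n n' F) :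
    sy A₀ A * P.map (MvPolynomial.C (σ := σ)) = sy (A₀ * P) (fun i => A i * P) := by
  unfold sy
  rw [Matrix.add_mul, Matrix.sum_mul, ← Matrix.map_mul]
  congr 1
  refine Finset.sum_congr rfl fun i _ => ?_
  rw [Matrix.smul_mul, ← Matrix.map_mul]

omit [Fintype n] [Fintype m'] in
lemma mul_sy (A₀ : Matrix m n F) (A : σ → Matrix m n F) (Q : Matrix m' m F) :
    Q.map (MvPolynomial.C (σ := σ)) * sy A₀ A = sy (Q * A₀) (fun i => Q * A i) := by
  unfold sy
  rw [Matrix.mul_add, Matrix.mul_sum, ← Matrix.map_mul]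
  congr 1
  refine Finset.sum_congr rfl fun i _ => ?_
  rw [Matrix.mul_smul, ← Matrix.map_mul]

lemma lin_le_sr (A₀ : Matrix m n F) (A : σ → Matrix m n F) (x : σ → F) :
    (lin A₀ A x).rank ≤ sr (sy A₀ A) := by
  rw [← sy_eval]
  exact rank_le_sr _ _

omit [Fintype σ] in
lemma sr_le_width (M : Matrix m n (MvPolynomial σ F)) : sr M ≤ Fintype.card n :=
  Matrix.rank_le_card_width _

omit [Fintype σ] in
lemma sr_le_height (M : Matrix m n (MvPolynomial σ F)) : sr M ≤ Fintype.card m :=
  Matrix.rank_le_card_height _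

end pencil

/-- moving to a nearby point that is optimal on `P` and `Q` -/
lemma exists_near [Infinite F] {u v : ℕ} (A₀ : Matrix ι ι F)
    (A : σ → Matrix ι ι F) (P : Matrix ι (Fin u) F) (Q : Matrix (Fin v) ι F) (a : σ → F) :
    ∃ b : σ → F, nd b a ≤ u + v ∧ (lin A₀ A a).rank ≤ (lin A₀ A b).rank ∧
      sr (sy A₀ A * P.map (MvPolynomial.C (σ := σ))) = (lin A₀ A b * P).rank ∧
      sr (Q.map (MvPolynomial.C (σ := σ)) * sy A₀ A) = (Q * lin A₀ A b).rank := by
  classical
  obtain ⟨q₁, hq₁, hd₁, hw₁⟩ := exists_witness (sy (A₀ * P) (fun i => A i * P)) (sy_deg _ _)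
  obtain ⟨q₂, hq₂, hd₂, hw₂⟩ := exists_witness (sy (Q * A₀) (fun i => Q * A i)) (sy_deg _ _)
  obtain ⟨q₃, hq₃, -, hw₃⟩ := exists_witness_at (sy A₀ A) (sy_deg _ _) a
  have hu := hd₁.trans (sr_le_width _)
  have hv := hd₂.trans (sr_le_height _)
  rw [Fintype.card_fin] at hu hv
  obtain ⟨b₁, hb₁, hev⟩ : ∃ b₁ : σ → F, nd b₁ a ≤ u + v ∧ MvPolynomial.eval b₁ (q₁ * q₂) ≠ 0 := by
    by_contra hno
    push Not at hno
    exact mul_ne_zero hq₁ hq₂ (poly_zero_of_sparse (q₁ * q₂)
      ((MvPolynomial.totalDegree_mul _ _).trans (add_le_add hu hv)) a hno)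
  obtain ⟨b, hb, h1, h2⟩ := exists_line (q₁ * q₂) q₃ a b₁ hev hq₃
  rw [map_mul] at h1
  refine ⟨b, (nd_mono hb).trans hb₁, ?_, ?_, ?_⟩
  · have := hw₃ b h2
    rwa [sy_eval, sy_eval] at this
  · have h3 := hw₁ b (left_ne_zero_of_mul h1)
    rw [sy_eval] at h3
    rw [sy_mul, lin_mul]
    exact le_antisymm h3 (lin_le_sr _ _ _)
  · have h3 := hw₂ b (right_ne_zero_of_mul h1)
    rw [sy_eval] at h3
    rw [mul_sy, mul_lin]
    exact le_antisymm h3 (lin_le_sr _ _ _)

/-- generic points -/
lemma exists_generic [Infinite F] {u v : ℕ} (A₀ : Matrix ι ι F)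
    (A : σ → Matrix ι ι F) (P : Matrix ι (Fin u) F) (Q : Matrix (Fin v) ι F) :
    ∃ b : σ → F, (lin A₀ A b).rank = sr (sy A₀ A) ∧
      sr (sy A₀ A * P.map (MvPolynomial.C (σ := σ))) = (lin A₀ A b * P).rank ∧
      sr (Q.map (MvPolynomial.C (σ := σ)) * sy A₀ A) = (Q * lin A₀ A b).rank := by
  obtain ⟨q, hq, -, hw⟩ := exists_witness (sy A₀ A) (sy_deg _ _)
  obtain ⟨a, ha⟩ : ∃ a : σ → F, MvPolynomial.eval a q ≠ 0 := by
    by_contra hno
    push Not at hno
    exact hq (MvPolynomial.funext fun x => by rw [hno x, map_zero])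
  obtain ⟨b, -, h1, h2, h3⟩ := exists_near A₀ A P Q a
  refine ⟨b, le_antisymm (lin_le_sr _ _ _) (le_trans ?_ h1), h2, h3⟩
  have := hw a ha
  rwa [sy_eval] at this

/-- for small matrices the search radius is the size -/
lemma exists_small [Infinite F] (A₀ : Matrix ι ι F) (A : σ → Matrix ι ι F) (a : σ → F)
    (ha : (lin A₀ A a).rank < sr (sy A₀ A)) :
    ∃ b : σ → F, nd b a ≤ Fintype.card ι ∧ (lin A₀ A a).rank < (lin A₀ A b).rank := by
  classical
  obtain ⟨q, hq, hd, hw⟩ := exists_witness (sy A₀ A) (sy_deg _ _)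
  obtain ⟨b, hb, hev⟩ : ∃ b : σ → F, nd b a ≤ Fintype.card ι ∧ MvPolynomial.eval b q ≠ 0 := by
    by_contra hno
    push Not at hno
    exact hq (poly_zero_of_sparse q (hd.trans (sr_le_width _)) a hno)
  have := hw b hev
  rw [sy_eval] at this
  exact ⟨b, hb, by omega⟩

/-- **The search principle.**  `P`, `Q` are matrices such that at every point where the identities
hold the rank equals the generic rank as soon as the ranks on `P` and `Q` are generic. -/
lemma search [Infinite F] {u v : ℕ} (A₀ : Matrix ι ι F) (A : σ → Matrix ι ι F)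
    (P : Matrix ι (Fin u) F) (Q : Matrix (Fin v) ι F) {R : ℕ} (hR : u + v + 4 ≤ R)
    (hopt : ∀ b : σ → F, (∀ G : Matrix ι ι F, lin A₀ A b * G * lin A₀ A b = lin A₀ A b →
      Idt (lin A₀ A b) G (Submodule.span F (Set.range A))) →
      sr (sy A₀ A * P.map (MvPolynomial.C (σ := σ))) = (lin A₀ A b * P).rank →
      sr (Q.map (MvPolynomial.C (σ := σ)) * sy A₀ A) = (Q * lin A₀ A b).rank →
      sr (sy A₀ A) ≤ (lin A₀ A b).rank)
    (a : σ → F) (ha : (lin A₀ A a).rank < sr (sy A₀ A)) :
    ∃ b : σ → F, nd b a ≤ R ∧ (lin A₀ A a).rank < (lin A₀ A b).rank := by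
  classical
  by_contra hno
  push Not at hno
  obtain ⟨b, hb, hr, h1, h2⟩ := exists_near A₀ A P Q a
  have hb' : (lin A₀ A b).rank = (lin A₀ A a).rank := le_antisymm (hno b (by omega)) hr
  have hId := idt_of_stuck A₀ A b (fun b' h4 => by
    rw [hb']
    refine hno b' ?_
    have := nd_tri b' b a
    omega)
  have := hopt b hId h1 h2
  omega

end Pool.Agent.H22.DE
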