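import Pool.Agent.H22.DE.Com

/-!
Dense spaces of square matrices: dichotomy, local search and rank formula (helper22, MP_966f71_lc).
-/

set_option autoImplicit false

open Module Matrix

namespace Pool.Agent.H22.DE

variable {F : Type*} [Field F] {σ : Type*} [Fintype σ]
  {ι : Type*} [Fintype ι] [DecidableEq ι]

private lemma sm_arith {N c b S D : ℕ} (h1 : D ≤ S + (N - b) * N) (hS : S ≤ b * (2 * c + 3))
    (hD : N * N ≤ D + c * N) (hb : b ≤ N) (hc : 4 * (c + 2) < N) : b ≤ 2 * c := by
  obtain ⟨q, hq⟩ := Nat.exists_eq_add_of_le hb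
  have h2 : N - b = q := by omega
  rw [h2] at h1
  have h3 : b * N ≤ c * N + b * (2 * c + 3) := by
    have : N * N = b * N + q * N := by rw [← Nat.add_mul, ← hq]
    omega
  have h4 : b * ((2 * c + 3) * 2) ≤ b * N := Nat.mul_le_mul_left b (by omega)
  have h5 : b * N ≤ 2 * c * N := by linarith
  exact Nat.le_of_mul_le_mul_right h5 (by omega)

lemma finrank_sm (V : Submodule F (Matrix ι ι F)) {c : ℕ}
    (hV : Fintype.card ι * Fintype.card ι ≤ finrank F V + c * Fintype.card ι)
    (hc : 4 * (c + 2) < Fintype.card ι) :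
    finrank F (Submodule.span F (sm V (2 * c + 3))) ≤ 2 * c := by
  obtain ⟨u, hu, hus⟩ := exists_indep (F := F) (sm V (2 * c + 3))
    (b := finrank F (Submodule.span F (sm V (2 * c + 3)))) le_rfl
  have h1 := cnt1 V u hu
  have h2 : ∑ i, finrank F (V.map (evR (u i))) ≤
      finrank F (Submodule.span F (sm V (2 * c + 3))) * (2 * c + 3) := by
    refine (Finset.sum_le_sum fun i _ => hus i).trans ?_
    simp
  have hb : finrank F (Submodule.span F (sm V (2 * c + 3))) ≤ Fintype.card ι := by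
    have := hu.fintype_card_le_finrank
    rw [Fintype.card_fin, finrank_fintype_fun_eq_card] at this
    exact this
  exact sm_arith h1 h2 hV hb hc

lemma finrank_smL (V : Submodule F (Matrix ι ι F)) {c : ℕ}
    (hV : Fintype.card ι * Fintype.card ι ≤ finrank F V + c * Fintype.card ι)
    (hc : 4 * (c + 2) < Fintype.card ι) :
    finrank F (Submodule.span F (smL V (2 * c + 3))) ≤ 2 * c := by
  obtain ⟨u, hu, hus⟩ := exists_indep (F := F) (smL V (2 * c + 3))
    (b := finrank F (Submodule.span F (smL V (2 * c + 3)))) le_rfl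
  have h1 := cntL V u hu
  rw [Nat.mul_comm (Fintype.card ι) (Fintype.card ι - _)] at h1
  have h2 : ∑ i, finrank F (V.map (evL (u i))) ≤
      finrank F (Submodule.span F (smL V (2 * c + 3))) * (2 * c + 3) := by
    refine (Finset.sum_le_sum fun i _ => hus i).trans ?_
    simp
  have hb : finrank F (Submodule.span F (smL V (2 * c + 3))) ≤ Fintype.card ι := by
    have := hu.fintype_card_le_finrank
    rw [Fintype.card_fin, finrank_fintype_fun_eq_card] at this
    exact this
  exact sm_arith h1 h2 hV hb hc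

/-- **dichotomy at a locally optimal point** -/
lemma dich [Infinite F] {A P : Matrix ι ι F} {V : Submodule F (Matrix ι ι F)}
    (h : Idt A P V) (hP : A * P * A = A) {c : ℕ}
    (hV : Fintype.card ι * Fintype.card ι ≤ finrank F V + c * Fintype.card ι)
    (hc : 4 * (c + 2) < Fintype.card ι) :
    (∀ k, A *ᵥ k = 0 → k ∈ Submodule.span F (sm V (2 * c + 3))) ∨
      (∀ w, w ᵥ* A = 0 → w ∈ Submodule.span F (smL V (2 * c + 3))) := by
  by_contra hcon
  push Not at hcon
  obtain ⟨⟨k, hk, hkU⟩, ⟨w, hw, hwU⟩⟩ := hcon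
  rcases key h hP hV hc hk hw with h1 | h1
  · exact hkU (Submodule.subset_span h1)
  · exact hwU (Submodule.subset_span h1)

/-- **General case**: rank formula and optimality of locally optimal points -/
theorem gen_all [Infinite F] (A₀ : Matrix ι ι F) (A : σ → Matrix ι ι F) {c : ℕ}
    (hV : Fintype.card ι * Fintype.card ι ≤
      finrank F (Submodule.span F (Set.range A)) + c * Fintype.card ι)
    (hc : 4 * (c + 2) < Fintype.card ι) :
    ∃ (u v : ℕ) (P : Matrix ι (Fin u) F) (Q : Matrix (Fin v) ι F),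
      u ≤ 2 * c ∧ v ≤ 2 * c ∧ P.rank = u ∧ Q.rank = v ∧
      (∀ j, (fun i => P i j) ∈ sm (Submodule.span F (Set.range A)) (2 * c + 3)) ∧
      (∀ j, Q j ∈ smL (Submodule.span F (Set.range A)) (2 * c + 3)) ∧
      (Fintype.card ι = sr (sy A₀ A) +
        max (u - sr (sy A₀ A * P.map (MvPolynomial.C (σ := σ))))
          (v - sr (Q.map (MvPolynomial.C (σ := σ)) * sy A₀ A))) ∧
      ∀ b : σ → F, (∀ G : Matrix ι ι F, lin A₀ A b * G * lin A₀ A b = lin A₀ A b →
        Idt (lin A₀ A b) G (Submodule.span F (Set.range A))) →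
        sr (sy A₀ A * P.map (MvPolynomial.C (σ := σ))) = (lin A₀ A b * P).rank →
        sr (Q.map (MvPolynomial.C (σ := σ)) * sy A₀ A) = (Q * lin A₀ A b).rank →
        sr (sy A₀ A) ≤ (lin A₀ A b).rank := by
  classical
  set V := Submodule.span F (Set.range A) with hVdef
  obtain ⟨P, hP1, hP2, hP3⟩ := exists_cols (sm V (2 * c + 3))
  obtain ⟨Q', hQ1, hQ2, hQ3⟩ := exists_cols (smL V (2 * c + 3))
  have hQr : Q'ᵀ.rank = finrank F (Submodule.span F (smL V (2 * c + 3))) := by
    rw [Matrix.rank_transpose, hQ1]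
  have hdich : ∀ (b : σ → F) (G : Matrix ι ι F), lin A₀ A b * G * lin A₀ A b = lin A₀ A b →
      Idt (lin A₀ A b) G V →
      P.rank + (lin A₀ A b).rank = (lin A₀ A b * P).rank + Fintype.card ι ∨
      Q'ᵀ.rank + (lin A₀ A b).rank = (Q'ᵀ * lin A₀ A b).rank + Fintype.card ι := by
    intro b G hG hId
    rcases dich hId hG hV hc with hk | hk
    · exact Or.inl (defect_eq _ _ fun k h => by rw [hP2]; exact hk k h)
    · refine Or.inr (defectL_eq _ _ fun k h => ?_)
      rw [Matrix.transpose_transpose, hQ2]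
      exact hk k h
  obtain ⟨g, hg, hg1, hg2⟩ := exists_generic A₀ A P Q'ᵀ
  have e2 := defect_le (lin A₀ A g) P
  have e2' := defectL_le (lin A₀ A g) Q'ᵀ
  have hu := finrank_sm V hV hc
  have hv := finrank_smL V hV hc
  refine ⟨_, _, P, Q'ᵀ, hu, hv, hP1, hQr, hP3, fun j => hQ3 j, ?_, ?_⟩
  · obtain ⟨G, hG⟩ := exists_ginv (lin A₀ A g)
    have hId := idt_of_stuck A₀ A g (fun b' _ => by
      rw [hg]
      exact lin_le_sr _ _ _) G hG
    have hr1 := Matrix.rank_mul_le_right (lin A₀ A g) P
    have hr2 := Matrix.rank_mul_le_left Q'ᵀ (lin A₀ A g)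
    rw [hg1, hg2, ← hg]
    rcases hdich g G hG hId with h1 | h1
    · omega
    · omega
  · intro b hId h1 h2
    obtain ⟨G, hG⟩ := exists_ginv (lin A₀ A b)
    rcases hdich b G hG (hId G hG) with h3 | h3
    · omega
    · omega

/-- **General case: local search** -/
theorem gen_search [Infinite F] (A₀ : Matrix ι ι F) (A : σ → Matrix ι ι F) {c : ℕ}
    (hV : Fintype.card ι * Fintype.card ι ≤
      finrank F (Submodule.span F (Set.range A)) + c * Fintype.card ι)
    (a : σ → F) (ha : (lin A₀ A a).rank < sr (sy A₀ A)) :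
    ∃ b : σ → F, nd b a ≤ 4 * (c + 2) ∧ (lin A₀ A a).rank < (lin A₀ A b).rank := by
  by_cases hc : 4 * (c + 2) < Fintype.card ι
  · obtain ⟨u, v, P, Q, hu, hv, -, -, -, -, -, hopt⟩ := gen_all A₀ A hV hc
    exact search A₀ A P Q (by omega) hopt a ha
  · obtain ⟨b, hb, hb'⟩ := exists_small A₀ A a ha
    exact ⟨b, by omega, hb'⟩

end Pool.Agent.H22.DE
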