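import Pool.Agent.H22.DE.Alt
import Pool.Agent.H22.DE.Gen

/-!
Few directions: the search for generic rank on small vectors (helper22, MP_966f71_lc).
-/

set_option autoImplicit false
set_option linter.unusedSectionVars false

open Module Matrix

namespace Pool.Agent.H22.DE

variable {F : Type*} [Field F]

lemma line_eval {τ : Type*} (p : MvPolynomial τ F) (a y : τ → F) (t : F) :
    Polynomial.eval t (MvPolynomial.aeval
      (fun i => Polynomial.C (a i) + Polynomial.X * Polynomial.C (y i)) p) =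
      MvPolynomial.eval (a + t • y) p := by
  have h1 : (Polynomial.evalRingHom t).comp (MvPolynomial.aeval
      (fun i => Polynomial.C (a i) + Polynomial.X * Polynomial.C (y i))).toRingHom =
        MvPolynomial.eval (a + t • y) := by
    apply MvPolynomial.ringHom_ext
    · intro r
      simp
    · intro i
      simp only [RingHom.comp_apply, AlgHom.toRingHom_eq_coe, RingHom.coe_coe, MvPolynomial.aeval_X,
        Polynomial.coe_evalRingHom, Polynomial.eval_add, Polynomial.eval_mul, Polynomial.eval_C,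
        Polynomial.eval_X, MvPolynomial.eval_X, Pi.add_apply, Pi.smul_apply, smul_eq_mul]
  exact RingHom.congr_fun h1 p

lemma line_deg {τ : Type*} (p : MvPolynomial τ F) (a y : τ → F) {d : ℕ} (hd : p.totalDegree ≤ d) :
    (MvPolynomial.aeval
      (fun i => Polynomial.C (a i) + Polynomial.X * Polynomial.C (y i)) p).natDegree ≤ d := by
  have h := MvPolynomial.aeval_natDegree_le p hd
    (fun i => Polynomial.C (a i) + Polynomial.X * Polynomial.C (y i)) (n := 1) (by
      intro i
      refine (Polynomial.natDegree_add_le _ _).trans (max_le ?_ ?_)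
      · rw [Polynomial.natDegree_C]
        exact Nat.zero_le _
      · refine (Polynomial.natDegree_mul_le).trans ?_
        rw [Polynomial.natDegree_C, add_zero]
        exact Polynomial.natDegree_X_le)
  simpa using h

/-- two polynomials on two lines -/
lemma exists_on_line {τ τ' : Type*} (q : MvPolynomial τ F) (q' : MvPolynomial τ' F) {d d' : ℕ}
    (hd : q.totalDegree ≤ d) (hd' : q'.totalDegree ≤ d') (z : τ → F) (a y : τ' → F)
    (h : MvPolynomial.eval z q ≠ 0) (h' : MvPolynomial.eval a q' ≠ 0) (S : Finset F)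
    (hS : d + d' < S.card) :
    ∃ t ∈ S, MvPolynomial.eval (t • z) q ≠ 0 ∧ MvPolynomial.eval (a + t • y) q' ≠ 0 := by
  set f₁ := MvPolynomial.aeval
    (fun i => Polynomial.C ((0 : τ → F) i) + Polynomial.X * Polynomial.C (z i)) q with hf₁
  set f₂ := MvPolynomial.aeval
    (fun i => Polynomial.C (a i) + Polynomial.X * Polynomial.C (y i)) q' with hf₂
  have h1 : f₁ ≠ 0 := by
    intro h0
    have := line_eval q 0 z 1
    rw [← hf₁, h0, Polynomial.eval_zero, one_smul, zero_add] at this
    exact h this.symm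
  have h2 : f₂ ≠ 0 := by
    intro h0
    have := line_eval q' a y 0
    rw [← hf₂, h0, Polynomial.eval_zero, zero_smul, add_zero] at this
    exact h' this.symm
  by_contra hno
  push Not at hno
  refine mul_ne_zero h1 h2 (Polynomial.eq_zero_of_natDegree_lt_card_of_eval_eq_zero' _ S ?_ ?_)
  · intro t ht
    rw [Polynomial.eval_mul, hf₁, hf₂, line_eval, line_eval, zero_add]
    by_cases h3 : MvPolynomial.eval (t • z) q = 0
    · rw [h3, zero_mul]
    · rw [hno t ht h3, mul_zero]
  · refine lt_of_le_of_lt (Polynomial.natDegree_mul_le.trans (add_le_add ?_ ?_)) hS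
    · exact line_deg q 0 z hd
    · exact line_deg q' a y hd'

variable {σ : Type*} [Fintype σ] {ι : Type*} [Fintype ι] [DecidableEq ι]

/-- restricting a pencil to few directions does not change its generic rank -/
lemma restrict_pencil [Infinite F] {m n : Type*} [Fintype m] [Fintype n]
    (B₀ : Matrix m n F) (B : σ → Matrix m n F) (I : Finset σ)
    (hI : ∀ i, B i ∈ Submodule.span F (Set.range fun j : I => B j)) (a : σ → F) :
    sr (sy B₀ B) ≤ sr (sy (lin B₀ B a) (fun j : I => B j)) := by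
  classical
  obtain ⟨q, hq, -, hw⟩ := exists_witness (sy B₀ B) (sy_deg _ _)
  obtain ⟨b, hb⟩ : ∃ b : σ → F, MvPolynomial.eval b q ≠ 0 := by
    by_contra hno
    push Not at hno
    exact hq (MvPolynomial.funext fun x => by rw [hno x, map_zero])
  have h1 := hw b hb
  rw [sy_eval] at h1
  refine h1.trans ?_
  have h3 : lin 0 B (b - a) ∈ Submodule.span F (Set.range fun j : I => B j) := by
    rw [lin, zero_add]
    exact Submodule.sum_mem _ fun i _ => Submodule.smul_mem _ _ (hI i)
  obtain ⟨z, hz⟩ := (Submodule.mem_span_range_iff_exists_fun F).1 h3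
  have h4 : lin B₀ B b = lin (lin B₀ B a) (fun j : I => B j) z := by
    have h5 : lin B₀ B b = lin B₀ B a + lin 0 B (b - a) := by
      simp only [lin, zero_add, Pi.sub_apply, sub_smul, Finset.sum_sub_distrib]
      abel
    rw [h5, ← hz]
    rfl
  rw [h4]
  exact lin_le_sr _ _ _

/-- extension of a vector by zero -/
def ext0 (I : Finset σ) [DecidableEq σ] (z : I → F) : σ → F :=
  fun i => if h : i ∈ I then z ⟨i, h⟩ else 0

lemma lin_ext0 [DecidableEq σ] {m n : Type*} [Fintype m] [Fintype n]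
    (B₀ : Matrix m n F) (B : σ → Matrix m n F) (I : Finset σ) (a : σ → F) (z : I → F) (t : F) :
    lin B₀ B (a + t • ext0 I z) = lin (lin B₀ B a) (fun j : I => B j) (t • z) := by
  have h5 : lin B₀ B (a + t • ext0 I z) = lin B₀ B a + lin 0 B (t • ext0 I z) := by
    simp only [lin, zero_add, Pi.add_apply, add_smul, Finset.sum_add_distrib]
    abel
  rw [h5]
  have h6 : lin 0 B (t • ext0 I z) = ∑ j : I, (t • z) j • B j := by
    rw [lin, zero_add]
    rw [← Finset.sum_subset (Finset.subset_univ I) (by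
      intro i _ hi
      simp [ext0, hi])]
    rw [← Finset.sum_coe_sort]
    refine Finset.sum_congr rfl fun j _ => ?_
    simp [ext0]
  rw [h6]
  rfl

/-- a point where the ranks on `K` and `L` are generic, found in few directions -/
lemma exists_step [Infinite F] {s s' : ℕ} (A₀ : Matrix ι ι F) (A : σ → Matrix ι ι F)
    (K : Matrix ι (Fin s) F) (L : Matrix (Fin s') ι F) (I : Finset σ)
    (hI : ∀ i, A i * K ∈ Submodule.span F (Set.range fun j : I => A j * K))
    (hI' : ∀ i, L * A i ∈ Submodule.span F (Set.range fun j : I => L * A j))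
    (S₁ : Finset F) (h0 : (0 : F) ∈ S₁) (h1 : s + s' < S₁.card) (S₂ : Finset F)
    (h2 : s + s' + Fintype.card ι < S₂.card) (a : σ → F) :
    ∃ (y : σ → F) (t : F), (∀ i, y i ∈ S₁) ∧ (∀ i, y i ≠ 0 → i ∈ I) ∧ nd y 0 ≤ s + s' ∧ t ∈ S₂ ∧
      (lin A₀ A a).rank ≤ (lin A₀ A (a + t • y)).rank ∧
      sr (sy A₀ A * K.map (MvPolynomial.C (σ := σ))) = (lin A₀ A (a + t • y) * K).rank ∧
      sr (L.map (MvPolynomial.C (σ := σ)) * sy A₀ A) = (L * lin A₀ A (a + t • y)).rank := by
  classical
  have hgen := restrict_pencil (A₀ * K) (fun i => A i * K) I hI a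
  have hgen' := restrict_pencil (L * A₀) (fun i => L * A i) I hI' a
  obtain ⟨q, hq, hd, hw⟩ := exists_witness
    (sy (lin (A₀ * K) (fun i => A i * K) a) (fun j : I => A j * K)) (sy_deg _ _)
  obtain ⟨p, hp, he, hv⟩ := exists_witness
    (sy (lin (L * A₀) (fun i => L * A i) a) (fun j : I => L * A j)) (sy_deg _ _)
  have hs := hd.trans (sr_le_width _)
  have hs' := he.trans (sr_le_height _)
  rw [Fintype.card_fin] at hs hs'
  have hqp : (q * p).totalDegree ≤ s + s' :=
    (MvPolynomial.totalDegree_mul _ _).trans (add_le_add hs hs')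
  obtain ⟨z, hz, hzn, hev⟩ := exists_sparse (q * p) (mul_ne_zero hq hp) hqp (D := s + s')
    (fun i => (MvPolynomial.degreeOf_le_totalDegree _ i).trans hqp) S₁ h1
    (fun _ => 0) (fun _ => h0)
  obtain ⟨q', hq', hd', hw'⟩ := exists_witness_at (sy A₀ A) (sy_deg _ _) a
  have hN : q'.totalDegree ≤ Fintype.card ι := hd'.trans (Matrix.rank_le_card_width _)
  obtain ⟨t, ht, ht1, ht2⟩ := exists_on_line (q * p) q' hqp hN z a (ext0 I z) hev hq' S₂ h2
  rw [map_mul] at ht1
  refine ⟨ext0 I z, t, ?_, ?_, ?_, ht, ?_, ?_, ?_⟩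
  · intro i
    by_cases h : i ∈ I
    · simpa [ext0, h] using hz ⟨i, h⟩
    · simpa [ext0, h] using h0
  · intro i hi
    by_contra h
    exact hi (by simp [ext0, h])
  · refine le_trans ?_ hzn
    have h3 : {i | ext0 I z i ≠ (0 : σ → F) i} ⊆ Subtype.val '' {j : I | z j ≠ 0} := by
      intro i hi
      have hi' : ext0 I z i ≠ 0 := hi
      by_cases h : i ∈ I
      · exact ⟨⟨i, h⟩, by simpa [ext0, h] using hi', rfl⟩
      · exact absurd (by simp [ext0, h]) hi'
    exact (Set.ncard_le_ncard h3 (Set.toFinite _)).trans (Set.ncard_image_le (Set.toFinite _))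
  · have := hw' _ ht2
    rwa [sy_eval, sy_eval] at this
  · rw [sy_mul, lin_mul]
    refine le_antisymm ?_ (lin_le_sr _ _ _)
    refine hgen.trans ?_
    have := hw _ (left_ne_zero_of_mul ht1)
    rwa [sy_eval, ← lin_ext0] at this
  · rw [mul_sy, mul_lin]
    refine le_antisymm ?_ (lin_le_sr _ _ _)
    refine hgen'.trans ?_
    have := hv _ (right_ne_zero_of_mul ht1)
    rwa [sy_eval, ← lin_ext0] at this

/-- the upper bound given by the columns of `K` -/
lemma sr_upper [Infinite F] {s : ℕ} (A₀ : Matrix ι ι F) (A : σ → Matrix ι ι F)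
    (K : Matrix ι (Fin s) F) :
    K.rank + sr (sy A₀ A) ≤ sr (sy A₀ A * K.map (MvPolynomial.C (σ := σ))) + Fintype.card ι := by
  obtain ⟨g, hg, hg1, -⟩ := exists_generic A₀ A K (0 : Matrix (Fin 0) ι F)
  have := defect_le (lin A₀ A g) K
  rw [hg1, ← hg]
  exact this

/-- the upper bound given by the rows of `L` -/
lemma sr_upperL [Infinite F] {s : ℕ} (A₀ : Matrix ι ι F) (A : σ → Matrix ι ι F)
    (L : Matrix (Fin s) ι F) :
    L.rank + sr (sy A₀ A) ≤ sr (L.map (MvPolynomial.C (σ := σ)) * sy A₀ A) + Fintype.card ι := by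
  obtain ⟨g, hg, -, hg1⟩ := exists_generic A₀ A (0 : Matrix ι (Fin 0) F) L
  have := defectL_le (lin A₀ A g) L
  rw [hg1, ← hg]
  exact this

/-- few directions suffice -/
lemma exists_dirs {m n : Type*} [Fintype m] [Fintype n] (B : σ → Matrix m n F) {d : ℕ}
    (hd : finrank F (Submodule.span F (Set.range B)) ≤ d) :
    ∃ I : Finset σ, I.card ≤ d ∧ ∀ i, B i ∈ Submodule.span F (Set.range fun j : I => B j) := by
  classical
  obtain ⟨u, hu, hus⟩ := exists_indep (F := F) (Set.range B)
    (b := finrank F (Submodule.span F (Set.range B))) le_rfl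
  choose f hf using hus
  refine ⟨Finset.univ.image f, ?_, fun i => ?_⟩
  · refine Finset.card_image_le.trans ?_
    rw [Finset.card_univ, Fintype.card_fin]
    exact hd
  · have h1 : Submodule.span F (Set.range u) = Submodule.span F (Set.range B) := by
      refine Submodule.eq_of_le_of_finrank_eq (Submodule.span_mono ?_) ?_
      · rintro _ ⟨j, rfl⟩
        exact ⟨f j, hf j⟩
      · rw [finrank_span_eq_card hu, Fintype.card_fin]
    have h2 : B i ∈ Submodule.span F (Set.range u) := by
      rw [h1]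
      exact Submodule.subset_span ⟨i, rfl⟩
    refine Submodule.span_mono ?_ h2
    rintro _ ⟨j, rfl⟩
    exact ⟨⟨f j, Finset.mem_image_of_mem _ (Finset.mem_univ _)⟩, hf j⟩

/-- the dimension of the restriction to few small vectors -/
lemma finrank_restrict (A : σ → Matrix ι ι F) {s t : ℕ} (K : Matrix ι (Fin s) F)
    (hK : ∀ j, (fun i => K i j) ∈ sm (Submodule.span F (Set.range A)) t) :
    finrank F (Submodule.span F (Set.range fun i => A i * K)) ≤ s * t := by
  set V := Submodule.span F (Set.range A) with hV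
  let φ : Matrix ι ι F →ₗ[F] Matrix ι (Fin s) F :=
    { toFun := fun M => M * K
      map_add' := fun M N => Matrix.add_mul M N K
      map_smul' := fun r M => Matrix.smul_mul r M K }
  have h1 : Submodule.span F (Set.range fun i => A i * K) = V.map φ := by
    rw [hV, Submodule.map_span, ← Set.range_comp]
    rfl
  rw [h1]
  have h2 : finrank F (V.map φ) ≤ ∑ j, finrank F (V.map (evR fun i => K i j)) + finrank F
      (⊥ : Submodule F (Matrix ι (Fin s) F)) := by
    have := finrank_le_of_ker (E' := ∀ j, V.map (evR (m := ι) fun i => K i j)) (V.map φ) ⊥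
      (LinearMap.pi fun j =>
        { toFun := fun M => ⟨fun i => M.1 i j, by
            obtain ⟨M, N, hN, rfl⟩ := M
            refine ⟨N, hN, ?_⟩
            funext i
            rfl⟩
          map_add' := by
            intro M N
            rfl
          map_smul' := by
            intro r M
            rfl }) (by
        intro M hM
        rw [Submodule.mem_bot]
        ext i j
        have h3 := congrFun hM j
        have h4 := congrArg (fun f : V.map (evR (m := ι) fun i => K i j) => (f : ι → F) i) h3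
        exact h4)
    rw [finrank_pi_fintype] at this
    exact this
  rw [finrank_bot, add_zero] at h2
  refine h2.trans ?_
  refine (Finset.sum_le_sum fun j _ => hK j).trans ?_
  simp

section general

lemma finrank_sm_gen (V : Submodule F (Matrix ι ι F)) {c : ℕ}
    (hV : Fintype.card ι * Fintype.card ι ≤ finrank F V + c * Fintype.card ι)
    (hc : 10 * (c + 2) ≤ Fintype.card ι) :
    finrank F (Submodule.span F (sm V (4 * c + 7))) ≤ 2 * c := by
  by_contra hcon
  push Not at hcon
  obtain ⟨u, hu, hus⟩ := exists_indep (F := F) (sm V (4 * c + 7)) (b := 2 * c + 1) hcon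
  have h1 := cnt1 V u hu
  have h2 : ∑ i, finrank F (V.map (evR (u i))) ≤ (2 * c + 1) * (4 * c + 7) := by
    refine (Finset.sum_le_sum fun i _ => hus i).trans ?_
    simp
  obtain ⟨q, hq⟩ := Nat.exists_eq_add_of_le (show 2 * c + 1 ≤ Fintype.card ι by omega)
  have h3 : Fintype.card ι - (2 * c + 1) = q := by omega
  rw [h3] at h1
  rw [hq] at h1 hV hc
  nlinarith

lemma finrank_smL_gen (V : Submodule F (Matrix ι ι F)) {c : ℕ}
    (hV : Fintype.card ι * Fintype.card ι ≤ finrank F V + c * Fintype.card ι)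
    (hc : 10 * (c + 2) ≤ Fintype.card ι) :
    finrank F (Submodule.span F (smL V (4 * c + 7))) ≤ 2 * c := by
  by_contra hcon
  push Not at hcon
  obtain ⟨u, hu, hus⟩ := exists_indep (F := F) (smL V (4 * c + 7)) (b := 2 * c + 1) hcon
  have h1 := cntL V u hu
  have h2 : ∑ i, finrank F (V.map (evL (u i))) ≤ (2 * c + 1) * (4 * c + 7) := by
    refine (Finset.sum_le_sum fun i _ => hus i).trans ?_
    simp
  obtain ⟨q, hq⟩ := Nat.exists_eq_add_of_le (show 2 * c + 1 ≤ Fintype.card ι by omega)
  have h3 : Fintype.card ι - (2 * c + 1) = q := by omega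
  rw [h3] at h1
  rw [hq] at h1 hV hc
  nlinarith

/-- **general class: locally optimal points** -/
theorem gen_small [Infinite F] {A P : Matrix ι ι F} {V : Submodule F (Matrix ι ι F)}
    (h : Idt A P V) (hP : A * P * A = A) {c : ℕ}
    (hV : Fintype.card ι * Fintype.card ι ≤ finrank F V + c * Fintype.card ι)
    (hc : 10 * (c + 2) ≤ Fintype.card ι) :
    (∀ k, A *ᵥ k = 0 → k ∈ sm V (4 * c + 7)) ∨ (∀ w, w ᵥ* A = 0 → w ∈ smL V (4 * c + 7)) := by
  by_contra hcon
  push Not at hcon
  obtain ⟨⟨k, hk, hkU⟩, ⟨w, hw, hwU⟩⟩ := hcon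
  rcases key h hP hV (by omega) hk hw with h1 | h1
  · exact hkU (show finrank F (V.map (evR k)) ≤ 4 * c + 7 by omega)
  · exact hwU (show finrank F (V.map (evL w)) ≤ 4 * c + 7 by omega)

/-- **general class: optimality criterion** (`B`, `B'` span the kernel and the left kernel) -/
theorem gen_crit [Infinite F] (A₀ : Matrix ι ι F) (A : σ → Matrix ι ι F) {c : ℕ}
    (hV : Fintype.card ι * Fintype.card ι ≤
      finrank F (Submodule.span F (Set.range A)) + c * Fintype.card ι)
    (hc : 10 * (c + 2) ≤ Fintype.card ι) (a : σ → F)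
    (hst : ∀ b : σ → F, nd b a ≤ 4 → (lin A₀ A b).rank ≤ (lin A₀ A a).rank) {s s' : ℕ}
    (K : Matrix ι (Fin s) F) (L : Matrix (Fin s') ι F)
    (hK : sr (sy A₀ A * K.map (MvPolynomial.C (σ := σ))) = (lin A₀ A a * K).rank)
    (hL : sr (L.map (MvPolynomial.C (σ := σ)) * sy A₀ A) = (L * lin A₀ A a).rank)
    (B B' : Set (ι → F)) (hB : ∀ k, lin A₀ A a *ᵥ k = 0 ↔ k ∈ Submodule.span F B)
    (hB' : ∀ w, w ᵥ* lin A₀ A a = 0 ↔ w ∈ Submodule.span F B')
    (hker : ∀ k ∈ B, k ∈ sm (Submodule.span F (Set.range A)) (4 * c + 7) →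
      k ∈ LinearMap.range K.mulVecLin)
    (hcok : ∀ w ∈ B', w ∈ smL (Submodule.span F (Set.range A)) (4 * c + 7) →
      w ∈ LinearMap.range Lᵀ.mulVecLin) :
    sr (sy A₀ A) ≤ (lin A₀ A a).rank := by
  classical
  obtain ⟨G, hG⟩ := exists_ginv (lin A₀ A a)
  have hId := idt_of_stuck A₀ A a hst G hG
  rcases gen_small hId hG hV hc with h1 | h1
  · have h4 : Submodule.span F B ≤ LinearMap.range K.mulVecLin := Submodule.span_le.2 fun k hk =>
      hker k hk (h1 k ((hB k).2 (Submodule.subset_span hk)))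
    have h2 := defect_eq (lin A₀ A a) K fun k hk => h4 ((hB k).1 hk)
    have h3 := sr_upper A₀ A K
    omega
  · have h4 : Submodule.span F B' ≤ LinearMap.range Lᵀ.mulVecLin := Submodule.span_le.2 fun w hw =>
      hcok w hw (h1 w ((hB' w).2 (Submodule.subset_span hw)))
    have h2 := defectL_eq (lin A₀ A a) L fun k hk => h4 ((hB' k).1 hk)
    have h3 := sr_upperL A₀ A L
    omega

end general

section symmetric

/-- **symmetric class: optimality criterion** (`B` spans the kernel) -/
theorem sym_crit [Infinite F] (h2 : (2 : F) ≠ 0) (A₀ : Matrix ι ι F) (A : σ → Matrix ι ι F)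
    (h0 : A₀ᵀ = A₀) (hs : ∀ i, (A i)ᵀ = A i) {c : ℕ}
    (hV : Fintype.card ι * (Fintype.card ι + 1) ≤
      2 * finrank F (Submodule.span F (Set.range A)) + 2 * c * Fintype.card ι)
    (hc : 10 * (c + 2) ≤ Fintype.card ι) (a : σ → F)
    (hst : ∀ b : σ → F, nd b a ≤ 4 → (lin A₀ A b).rank ≤ (lin A₀ A a).rank) {s : ℕ}
    (K : Matrix ι (Fin s) F)
    (hK : sr (sy A₀ A * K.map (MvPolynomial.C (σ := σ))) = (lin A₀ A a * K).rank)
    (B : Set (ι → F)) (hB : ∀ k, lin A₀ A a *ᵥ k = 0 ↔ k ∈ Submodule.span F B)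
    (hker : ∀ k ∈ B, k ∈ sm (Submodule.span F (Set.range A)) (4 * c + 7) →
      k ∈ LinearMap.range K.mulVecLin) :
    sr (sy A₀ A) ≤ (lin A₀ A a).rank := by
  classical
  have hA := lin_sym A₀ A h0 hs a
  obtain ⟨G, hG, hG'⟩ := sym_ginv hA
  have hId := idt_of_stuck A₀ A a hst G hG
  have h5 : Submodule.span F B ≤ LinearMap.range K.mulVecLin := Submodule.span_le.2 fun k hk =>
    hker k hk (sym_small h2 (span_sym A hs) hA hG' hId hV hc
      ((hB k).2 (Submodule.subset_span hk)))
  have h4 := defect_eq (lin A₀ A a) K fun k hk => h5 ((hB k).1 hk)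
  have h3 := sr_upper A₀ A K
  omega

end symmetric

section skew

/-- **skew-symmetric class: kernels at locally optimal points** -/
theorem alt_small [Infinite F] (h2 : (2 : F) ≠ 0) {A P : Matrix ι ι F}
    {V : Submodule F (Matrix ι ι F)} (hs : ∀ M ∈ V, Mᵀ = -M) (hA : Aᵀ = -A) (hP : Pᵀ = -P)
    (h : Idt A P V) {c : ℕ}
    (hV : Fintype.card ι * Fintype.card ι ≤
      2 * finrank F V + 2 * c * Fintype.card ι + Fintype.card ι)
    (hc : 10 * (c + 2) ≤ Fintype.card ι) {k : ι → F} (hk : A *ᵥ k = 0)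
    (hkU : k ∉ sm V (4 * c + 7)) {l : ι → F} (hl : A *ᵥ l = 0) :
    ∃ s : F, l - s • k ∈ sm V (4 * c + 7) := by
  by_contra hno
  push Not at hno
  have hlarge : ∀ z, z ∉ sm V (4 * c + 7) → 4 * c + 8 ≤ finrank F (V.map (evR z)) := by
    intro z hz
    by_contra hlt
    exact hz (show finrank F (V.map (evR z)) ≤ 4 * c + 7 by omega)
  exact alt_key h2 hs hA hP h hV (by omega) hk hl (hlarge k hkU)
    (fun s => le_trans (by omega) (hlarge _ (hno s)))

/-- **skew-symmetric class: optimality criterion** (`B` spans the kernel) -/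
theorem alt_crit [Infinite F] (h2 : (2 : F) ≠ 0) (A₀ : Matrix ι ι F) (A : σ → Matrix ι ι F)
    (h0 : A₀ᵀ = -A₀) (hs : ∀ i, (A i)ᵀ = -A i) {c : ℕ}
    (hV : Fintype.card ι * Fintype.card ι ≤
      2 * finrank F (Submodule.span F (Set.range A)) + 2 * c * Fintype.card ι + Fintype.card ι)
    (hc : 10 * (c + 2) ≤ Fintype.card ι) (a : σ → F)
    (hst : ∀ b : σ → F, nd b a ≤ 4 → (lin A₀ A b).rank ≤ (lin A₀ A a).rank) {s : ℕ}
    (K : Matrix ι (Fin s) F)
    (hK : sr (sy A₀ A * K.map (MvPolynomial.C (σ := σ))) = (lin A₀ A a * K).rank)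
    (B : Set (ι → F)) (hB : ∀ k, lin A₀ A a *ᵥ k = 0 ↔ k ∈ Submodule.span F B)
    (hker : ∀ k ∈ B, k ∈ sm (Submodule.span F (Set.range A)) (4 * c + 7) →
      k ∈ LinearMap.range K.mulVecLin)
    (hker' : ∀ k ∈ B, ∀ l ∈ B, ∀ s : F, k ∉ sm (Submodule.span F (Set.range A)) (4 * c + 7) →
      l - s • k ∈ sm (Submodule.span F (Set.range A)) (4 * c + 7) →
      l - s • k ∈ LinearMap.range K.mulVecLin) :
    sr (sy A₀ A) ≤ (lin A₀ A a).rank := by
  classical
  have hA := lin_alt A₀ A h0 hs a
  obtain ⟨G, hG, hG'⟩ := alt_ginv hA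
  have hId := idt_of_stuck A₀ A a hst G hG
  have hB0 : ∀ k ∈ B, lin A₀ A a *ᵥ k = 0 := fun k hk => (hB k).2 (Submodule.subset_span hk)
  obtain ⟨k, h3⟩ : ∃ k, Submodule.span F B ≤
      (LinearMap.range K.mulVecLin ⊓ LinearMap.ker (lin A₀ A a).mulVecLin) ⊔
        Submodule.span F {k} := by
    by_cases hk : ∃ k ∈ B, k ∉ sm (Submodule.span F (Set.range A)) (4 * c + 7)
    · obtain ⟨k, hkB, hkU⟩ := hk
      refine ⟨k, Submodule.span_le.2 fun l hl => ?_⟩
      obtain ⟨r, hr⟩ := alt_small h2 (span_alt A hs) hA hG' hId hV hc (hB0 k hkB) hkU (hB0 l hl)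
      have h4 : lin A₀ A a *ᵥ (l - r • k) = 0 := by
        rw [Matrix.mulVec_sub, Matrix.mulVec_smul, hB0 k hkB, hB0 l hl, smul_zero, sub_zero]
      have e : l = (l - r • k) + r • k := by abel
      rw [e]
      exact Submodule.add_mem_sup ⟨hker' k hkB l hl r hkU hr, h4⟩ (Submodule.smul_mem _ _
        (Submodule.mem_span_singleton_self _))
    · push Not at hk
      exact ⟨0, Submodule.span_le.2 fun l hl =>
        Submodule.mem_sup_left ⟨hker l hl (hk l hl), hB0 l hl⟩⟩
  have h3' : LinearMap.ker (lin A₀ A a).mulVecLin ≤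
      (LinearMap.range K.mulVecLin ⊓ LinearMap.ker (lin A₀ A a).mulVecLin) ⊔
        Submodule.span F {k} := fun l hl => h3 ((hB l).1 (by simpa using hl))
  have h4 := Submodule.finrank_mono h3'
  have h5 := finrank_sup_le (LinearMap.range K.mulVecLin ⊓
    LinearMap.ker (lin A₀ A a).mulVecLin) k
  have h6 := rank_mul_add (lin A₀ A a) K
  have h7 := rank_add_ker (lin A₀ A a)
  have h8 := sr_upper A₀ A K
  obtain ⟨r, hr⟩ := even_rank h2 _ hA
  obtain ⟨g, hg, -, -⟩ := exists_generic A₀ A K (0 : Matrix (Fin 0) ι F)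
  obtain ⟨r', hr'⟩ := even_rank h2 _ (lin_alt A₀ A h0 hs g)
  omega

end skew

end Pool.Agent.H22.DE
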