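import Pool.Agent.H20.Edm.Minor
import Pool.Agent.H22.DE.Cnt

/-!
Generalized inverses, lower semicontinuity of the rank on a line, and the identities
`w M (P M)^j k = 0` at a point `A` where the rank cannot be increased (helper22, MP_966f71_lc).
-/

set_option autoImplicit false

open Module Matrix

namespace Pool.Agent.H22.DE

variable {F : Type*} [Field F] {m n : Type*} [Fintype m] [Fintype n] [DecidableEq m] [DecidableEq n]

/-- every matrix has a generalized inverse -/
lemma exists_ginv (A : Matrix m n F) : ∃ P : Matrix n m F, A * P * A = A := by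
  classical
  let f := A.mulVecLin
  obtain ⟨s, hs⟩ := f.rangeRestrict.exists_rightInverse_of_surjective
    (LinearMap.range_rangeRestrict f)
  obtain ⟨p, hp⟩ := LinearMap.exists_leftInverse_of_injective (LinearMap.range f).subtype
    (LinearMap.ker_eq_bot.2 (Submodule.injective_subtype _))
  refine ⟨LinearMap.toMatrix' (s.comp p), ?_⟩
  have h1 : ∀ x, f (s (p (f x))) = f x := by
    intro x
    have h2 : p (f x) = ⟨f x, LinearMap.mem_range_self f x⟩ := by
      have := LinearMap.congr_fun hp ⟨f x, LinearMap.mem_range_self f x⟩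
      simpa using this
    rw [h2]
    have := LinearMap.congr_fun hs ⟨f x, LinearMap.mem_range_self f x⟩
    have := congrArg Subtype.val this
    simpa using this
  apply Matrix.toLin'.injective
  apply LinearMap.ext
  intro x
  rw [Matrix.toLin'_mul, Matrix.toLin'_mul, Matrix.toLin'_toMatrix']
  exact h1 x

omit [DecidableEq m] in
/-- lower semicontinuity of the rank on a line -/
lemma exists_rank_le [Infinite F] (X Y : Matrix m n F) :
    ∃ t : F, t ≠ 0 ∧ X.rank ≤ (X + t • Y).rank := by
  classical
  obtain ⟨f, g, h⟩ := Pool.Agent.H20.Edm.exists_minor X (le_refl _)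
  let p : Polynomial F := ((X.map Polynomial.C + (Polynomial.X : Polynomial F) •
    Y.map Polynomial.C).submatrix f g).det
  have hp : ∀ t : F, p.eval t = ((X + t • Y).submatrix f g).det := by
    intro t
    show Polynomial.eval t (((X.map Polynomial.C + (Polynomial.X : Polynomial F) •
      Y.map Polynomial.C).submatrix f g).det) = _
    rw [← Polynomial.coe_evalRingHom, RingHom.map_det]
    congr 1
    ext i j
    simp only [RingHom.mapMatrix_apply, Matrix.map_apply, Matrix.submatrix_apply, Matrix.add_apply,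
      Matrix.smul_apply, smul_eq_mul, Polynomial.coe_evalRingHom, Polynomial.eval_add,
      Polynomial.eval_mul, Polynomial.eval_X, Polynomial.eval_C]
  have hp0 : p ≠ 0 := by
    intro h0
    apply h
    have := hp 0
    rw [h0, Polynomial.eval_zero, zero_smul, add_zero] at this
    exact this.symm
  by_contra hcon
  push Not at hcon
  apply hp0
  have h1 : (Polynomial.X * p : Polynomial F) = 0 := by
    apply Polynomial.funext
    intro t
    rw [Polynomial.eval_mul, Polynomial.eval_X, Polynomial.eval_zero]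
    by_cases ht : t = 0
    · rw [ht, zero_mul]
    · have h2 := hcon t ht
      have h3 : p.eval t = 0 := by
        by_contra h4
        rw [hp] at h4
        exact absurd (Pool.Agent.H20.Edm.le_rank_of_minor _ f g h4) (not_le.2 h2)
      rw [h3, mul_zero]
  exact (mul_eq_zero.1 h1).resolve_left Polynomial.X_ne_zero

omit [DecidableEq m] in
/-- if `z` lies in the range of `A + t M` for all `t ≠ 0` and the rank of `A + t M` is never larger
than that of `A`, then `z` is in the range of `A` -/
lemma mem_range_of_stuck [Infinite F] (A M : Matrix m n F)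
    (hr : ∀ t : F, (A + t • M).rank ≤ A.rank) (z : m → F)
    (hz : ∀ t : F, t ≠ 0 → z ∈ LinearMap.range (A + t • M).mulVecLin) :
    z ∈ LinearMap.range A.mulVecLin := by
  classical
  by_contra hcon
  let zc : Matrix m Unit F := Matrix.of fun i _ => z i
  obtain ⟨t, ht, hle⟩ := exists_rank_le (Matrix.fromCols A zc) (Matrix.fromCols M 0)
  have h1 : A.rank < (Matrix.fromCols A zc).rank := by
    rw [Matrix.rank, Matrix.rank]
    apply Submodule.finrank_lt_finrank_of_lt
    refine lt_of_le_of_ne ?_ ?_
    · rintro _ ⟨x, rfl⟩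
      refine ⟨Sum.elim x 0, ?_⟩
      simp [Matrix.fromCols_mulVec]
    · intro heq
      apply hcon
      rw [heq]
      refine ⟨Sum.elim 0 1, ?_⟩
      simp only [Matrix.mulVecLin_apply, Matrix.fromCols_mulVec]
      ext i
      simp [zc, Matrix.mulVec, dotProduct]
  have h2 : (Matrix.fromCols A zc + t • Matrix.fromCols M 0).rank ≤ (A + t • M).rank := by
    rw [Matrix.rank, Matrix.rank]
    apply Submodule.finrank_mono
    rintro _ ⟨x, rfl⟩
    have h3 : (Matrix.fromCols A zc + t • Matrix.fromCols M 0).mulVecLin x =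
        (A + t • M).mulVecLin (x ∘ Sum.inl) + x (Sum.inr ()) • z := by
      simp only [Matrix.mulVecLin_apply, Matrix.add_mulVec, Matrix.smul_mulVec,
        Matrix.fromCols_mulVec, Matrix.zero_mulVec, add_zero]
      have h4 : zc *ᵥ (x ∘ Sum.inr) = x (Sum.inr ()) • z := by
        ext i
        simp [zc, Matrix.mulVec, dotProduct, mul_comm]
      rw [h4]
      abel
    rw [h3]
    exact Submodule.add_mem _ (LinearMap.mem_range_self _ _)
      (Submodule.smul_mem _ _ (hz t ht))
  have := hr t
  omega

omit [Fintype m] [DecidableEq m] [DecidableEq n] in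
/-- telescoping sum -/
lemma tele (A M : Matrix m n F) (w : ℕ → n → F) (t : F) (h0 : A *ᵥ w 0 = 0) :
    ∀ j : ℕ, (∀ i < j, A *ᵥ w (i + 1) = M *ᵥ w i) →
      (A + t • M) *ᵥ (∑ i ∈ Finset.range (j + 1), (-t) ^ i • w i) =
        -((-t) ^ (j + 1) • (M *ᵥ w j)) := by
  intro j
  induction j with
  | zero =>
    intro _
    simp [Matrix.add_mulVec, h0, Matrix.smul_mulVec]
  | succ j ih =>
    intro h
    rw [Finset.sum_range_succ, Matrix.mulVec_add, ih (fun i hi => h i (by omega))]
    rw [Matrix.mulVec_smul, Matrix.add_mulVec, h j (by omega), Matrix.smul_mulVec, smul_add,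
      smul_smul]
    have : (-t) ^ (j + 1) * t = -((-t) ^ (j + 1 + 1)) := by ring
    rw [this, neg_smul]
    abel

/-- **The identities.**  If the rank of `A + t M` never exceeds that of `A`, then for `A k = 0`
all vectors `M (P M)^j k` are in the range of `A`. -/
lemma stuck_mem [Infinite F] (A M : Matrix m n F) (P : Matrix n m F) (hP : A * P * A = A)
    (hr : ∀ t : F, (A + t • M).rank ≤ A.rank) (k : n → F) (hk : A *ᵥ k = 0) (j : ℕ) :
    A *ᵥ (P *ᵥ (M *ᵥ (((P * M) ^ j) *ᵥ k))) = M *ᵥ (((P * M) ^ j) *ᵥ k) := by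
  have hrange : ∀ z ∈ LinearMap.range A.mulVecLin, A *ᵥ (P *ᵥ z) = z := by
    rintro _ ⟨x, rfl⟩
    rw [Matrix.mulVecLin_apply, Matrix.mulVec_mulVec, Matrix.mulVec_mulVec, hP]
  induction j using Nat.strong_induction_on with
  | _ j ih =>
    apply hrange
    refine mem_range_of_stuck A M hr _ fun t ht => ?_
    have h1 := tele A M (fun i => ((P * M) ^ i) *ᵥ k) t (by simpa using hk) j (by
      intro i hi
      have := ih i hi
      rw [pow_succ', ← Matrix.mulVec_mulVec, ← Matrix.mulVec_mulVec]
      exact this)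
    have h2 : M *ᵥ (((P * M) ^ j) *ᵥ k) = (-((-t) ^ (j + 1))⁻¹) •
        ((A + t • M) *ᵥ (∑ i ∈ Finset.range (j + 1), (-t) ^ i • (((P * M) ^ i) *ᵥ k))) := by
      rw [h1, smul_neg, neg_smul, neg_neg, smul_smul, inv_mul_cancel₀, one_smul]
      exact pow_ne_zero _ (neg_ne_zero.2 ht)
    rw [h2]
    exact Submodule.smul_mem _ _ ⟨_, rfl⟩

/-- the same, paired with a row vector that kills `A` -/
lemma stuck_zero [Infinite F] (A M : Matrix m n F) (P : Matrix n m F) (hP : A * P * A = A)
    (hr : ∀ t : F, (A + t • M).rank ≤ A.rank) (k : n → F) (hk : A *ᵥ k = 0)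
    (w : m → F) (hw : w ᵥ* A = 0) (j : ℕ) :
    w ⬝ᵥ (M *ᵥ (((P * M) ^ j) *ᵥ k)) = 0 := by
  rw [← stuck_mem A M P hP hr k hk j, Matrix.dotProduct_mulVec, hw, zero_dotProduct]

end Pool.Agent.H22.DE
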