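import Pool.Agent.H22.DE.Prog

/-!
Kernelisation: the rank of `A(x) K` for a matrix `K` with few columns is the rank of few rows and few
variables (helper22, MP_966f71_lc).
-/

set_option autoImplicit false
set_option linter.unusedSectionVars false

open Module Matrix

namespace Pool.Agent.H22.DE

variable {F : Type*} [Field F]

/-- the generic rank is attained -/
lemma exists_sr [Infinite F] {σ : Type*} [Fintype σ] {m n : Type*} [Fintype m] [Fintype n]
    (B₀ : Matrix m n F) (B : σ → Matrix m n F) : ∃ x, sr (sy B₀ B) ≤ (lin B₀ B x).rank := by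
  classical
  obtain ⟨q, hq, -, hw⟩ := exists_witness (sy B₀ B) (sy_deg _ _)
  obtain ⟨b, hb⟩ : ∃ b : σ → F, MvPolynomial.eval b q ≠ 0 := by
    by_contra hno
    push Not at hno
    exact hq (MvPolynomial.funext fun x => by rw [hno x, map_zero])
  have h1 := hw b hb
  rw [sy_eval] at h1
  exact ⟨b, h1⟩

/-- comparison of generic ranks -/
lemma sr_le_sr [Infinite F] {σ τ : Type*} [Fintype σ] [Fintype τ] {m n m' n' : Type*} [Fintype m]
    [Fintype n] [Fintype m'] [Fintype n'] (B₀ : Matrix m n F) (B : σ → Matrix m n F)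
    (C₀ : Matrix m' n' F) (C : τ → Matrix m' n' F)
    (h : ∀ x, ∃ y, (lin B₀ B x).rank ≤ (lin C₀ C y).rank) : sr (sy B₀ B) ≤ sr (sy C₀ C) := by
  obtain ⟨x, hx⟩ := exists_sr B₀ B
  obtain ⟨y, hy⟩ := h x
  exact hx.trans (hy.trans (lin_le_sr _ _ _))

lemma submatrix_eq_mul {m n m' : Type*} [Fintype m] [DecidableEq m] (M : Matrix m n F)
    (f : m' → m) : M.submatrix f id = (1 : Matrix m m F).submatrix f id * M := by
  ext i j
  simp [Matrix.mul_apply, Matrix.one_apply]

lemma submatrix_eq_mul' {m n n' : Type*} [Fintype n] [DecidableEq n] (M : Matrix m n F)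
    (g : n' → n) : M.submatrix id g = M * (1 : Matrix n n F).submatrix id g := by
  ext i j
  simp [Matrix.mul_apply, Matrix.one_apply]

lemma rank_rows_le {m n m' : Type*} [Fintype m] [Fintype n] [Fintype m'] (M : Matrix m n F)
    (f : m' → m) : (M.submatrix f id).rank ≤ M.rank := by
  classical
  rw [submatrix_eq_mul]
  exact Matrix.rank_mul_le_right _ _

lemma rank_cols_le {m n n' : Type*} [Fintype m] [Fintype n] [Fintype n'] (M : Matrix m n F)
    (g : n' → n) : (M.submatrix id g).rank ≤ M.rank := by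
  classical
  rw [submatrix_eq_mul']
  exact Matrix.rank_mul_le_left _ _

/-- few rows of a pencil span all rows -/
lemma exists_rows {σ : Type*} [Fintype σ] {m n : Type*} [Fintype m] [Fintype n]
    (B₀ : Matrix m n F) (B : σ → Matrix m n F) :
    ∃ J : Finset m, J.card ≤ Fintype.card n * (Fintype.card σ + 1) ∧
      ∃ R : Matrix m J F, ∀ x : σ → F,
        lin B₀ B x = R * (lin B₀ B x).submatrix (fun j : J => (j : m)) id := by
  classical
  -- the row `i` of the pencil as a matrix indexed by the coefficients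
  let w : m → Matrix (Option σ) n F := fun i o j => match o with
    | none => B₀ i j
    | some k => B k i j
  have hd : finrank F (Submodule.span F (Set.range w)) ≤ Fintype.card n * (Fintype.card σ + 1) := by
    refine (Submodule.finrank_le _).trans ?_
    rw [Module.finrank_matrix, Fintype.card_option, Module.finrank_self, mul_one, Nat.mul_comm]
  obtain ⟨J, hJ, hspan⟩ := exists_dirs w hd
  choose c hc using fun i => (Submodule.mem_span_range_iff_exists_fun F).1 (hspan i)
  refine ⟨J, hJ, Matrix.of fun i j => c i j, fun x => ?_⟩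
  ext i j
  have h0 : ∀ o : Option σ, w i o j = ∑ k : J, c i k * w k o j := by
    intro o
    rw [← hc i]
    simp [Matrix.sum_apply]
  have h1 := h0 none
  have h2 := fun k : σ => h0 (some k)
  simp only [w] at h1 h2
  simp only [lin, Matrix.add_apply, Matrix.sum_apply, Matrix.smul_apply, smul_eq_mul,
    Matrix.mul_apply, Matrix.of_apply, Matrix.submatrix_apply, id_eq]
  rw [h1]
  have h3 : ∀ k : σ, x k * B k i j = ∑ l : J, c i l * (x k * B k l j) := by
    intro k
    rw [h2 k, Finset.mul_sum]
    exact Finset.sum_congr rfl fun l _ => by ring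
  rw [Finset.sum_congr rfl fun k _ => h3 k, Finset.sum_comm, ← Finset.sum_add_distrib]
  refine Finset.sum_congr rfl fun l _ => ?_
  rw [← Finset.mul_sum]
  ring

/-- **Kernel, rows.** -/
theorem kernel_rows [Infinite F] {σ : Type*} [Fintype σ] {n s : ℕ} (B₀ : Matrix (Fin n) (Fin s) F)
    (B : σ → Matrix (Fin n) (Fin s) F) (I : Finset σ)
    (hI : ∀ i, B i ∈ Submodule.span F (Set.range fun j : I => B j)) :
    ∃ (m : ℕ) (f : Fin m → Fin n) (g : Fin I.card → σ), m ≤ s * (I.card + 1) ∧
      Function.Injective f ∧ Function.Injective g ∧ (∀ j, g j ∈ I) ∧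
      sr (sy (B₀.submatrix f id) fun j => (B (g j)).submatrix f id) = sr (sy B₀ B) := by
  classical
  let e : Fin I.card ≃ I := (Fintype.equivFinOfCardEq (Fintype.card_coe I)).symm
  obtain ⟨J, hJ, R, hR⟩ := exists_rows B₀ (fun j : Fin I.card => B (e j))
  rw [Fintype.card_fin, Fintype.card_fin] at hJ
  let e' : Fin J.card ≃ J := (Fintype.equivFinOfCardEq (Fintype.card_coe J)).symm
  have hsub : ∀ (f : Fin J.card → Fin n) (y : Fin I.card → F),
      lin (B₀.submatrix f id) (fun j => (B (e j)).submatrix f id) y =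
        (lin B₀ (fun j : Fin I.card => B (e j)) y).submatrix f id := by
    intro f y
    ext i j
    simp [lin, Matrix.sum_apply]
  refine ⟨J.card, fun j => (e' j : Fin n), fun j => (e j : σ), hJ,
    Subtype.val_injective.comp e'.injective, Subtype.val_injective.comp e.injective,
    fun j => (e j).2, ?_⟩
  refine le_antisymm (sr_le_sr _ _ _ _ fun y => ?_) (sr_le_sr _ _ _ _ fun x => ?_)
  · have h1 : lin 0 (fun j : Fin I.card => B (e j)) y ∈ Submodule.span F (Set.range B) := by
      rw [lin, zero_add]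
      exact Submodule.sum_mem _ fun i _ => Submodule.smul_mem _ _ (Submodule.subset_span ⟨_, rfl⟩)
    obtain ⟨x, hx⟩ := (Submodule.mem_span_range_iff_exists_fun F).1 h1
    refine ⟨x, ?_⟩
    rw [hsub]
    refine (rank_rows_le _ _).trans (le_of_eq ?_)
    congr 1
    have h2 : lin B₀ (fun j : Fin I.card => B (e j)) y =
        B₀ + lin 0 (fun j : Fin I.card => B (e j)) y := by simp [lin]
    rw [h2, ← hx]
    rfl
  · have h1 : lin 0 B x ∈ Submodule.span F (Set.range fun j : Fin I.card => B (e j)) := by
      rw [lin, zero_add]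
      refine Submodule.sum_mem _ fun i _ => Submodule.smul_mem _ _ ?_
      refine Submodule.span_mono ?_ (hI i)
      rintro _ ⟨j, rfl⟩
      exact ⟨e.symm j, by simp⟩
    obtain ⟨y, hy⟩ := (Submodule.mem_span_range_iff_exists_fun F).1 h1
    refine ⟨y, ?_⟩
    have h2 : lin B₀ B x = lin B₀ (fun j : Fin I.card => B (e j)) y := by
      have h3 : lin B₀ B x = B₀ + lin 0 B x := by simp [lin]
      rw [h3, ← hy]
      rfl
    rw [h2, hsub]
    have h4 : ((lin B₀ (fun j : Fin I.card => B (e j)) y).submatrix (fun j : J => (j : Fin n)) id) =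
        ((lin B₀ (fun j : Fin I.card => B (e j)) y).submatrix (fun j => (e' j : Fin n)) id).submatrix
          e'.symm id := by
      ext i j
      simp
    calc (lin B₀ (fun j : Fin I.card => B (e j)) y).rank
        = (R * (lin B₀ (fun j : Fin I.card => B (e j)) y).submatrix
            (fun j : J => (j : Fin n)) id).rank := by rw [← hR]
      _ ≤ ((lin B₀ (fun j : Fin I.card => B (e j)) y).submatrix
            (fun j : J => (j : Fin n)) id).rank := Matrix.rank_mul_le_right _ _
      _ ≤ _ := by
        rw [h4]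
        exact rank_rows_le _ _

/-- transposing does not change the generic rank -/
lemma sr_transpose [Infinite F] {σ : Type*} [Fintype σ] {m n : Type*} [Fintype m] [Fintype n]
    (B₀ : Matrix m n F) (B : σ → Matrix m n F) :
    sr (sy B₀ᵀ fun i => (B i)ᵀ) = sr (sy B₀ B) := by
  have h : ∀ x : σ → F, lin B₀ᵀ (fun i => (B i)ᵀ) x = (lin B₀ B x)ᵀ := by
    intro x
    ext i j
    simp [lin, Matrix.sum_apply]
  refine le_antisymm (sr_le_sr _ _ _ _ fun x => ⟨x, ?_⟩) (sr_le_sr _ _ _ _ fun x => ⟨x, ?_⟩)
  · rw [h, Matrix.rank_transpose]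
  · rw [h, Matrix.rank_transpose]

/-- **Kernel, columns.** -/
theorem kernel_cols [Infinite F] {σ : Type*} [Fintype σ] {n s : ℕ} (B₀ : Matrix (Fin s) (Fin n) F)
    (B : σ → Matrix (Fin s) (Fin n) F) (I : Finset σ)
    (hI : ∀ i, B i ∈ Submodule.span F (Set.range fun j : I => B j)) :
    ∃ (m : ℕ) (f : Fin m → Fin n) (g : Fin I.card → σ), m ≤ s * (I.card + 1) ∧
      Function.Injective f ∧ Function.Injective g ∧ (∀ j, g j ∈ I) ∧
      sr (sy (B₀.submatrix id f) fun j => (B (g j)).submatrix id f) = sr (sy B₀ B) := by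
  obtain ⟨m, f, g, hm, hf, hg, hgI, h⟩ := kernel_rows B₀ᵀ (fun i => (B i)ᵀ) I (by
    intro i
    have h1 : Submodule.span F (Set.range fun j : I => (B j)ᵀ) =
        (Submodule.span F (Set.range fun j : I => B j)).map
          (Matrix.transposeLinearEquiv (Fin s) (Fin n) F F).toLinearMap := by
      rw [Submodule.map_span, ← Set.range_comp]
      rfl
    rw [h1]
    exact ⟨B i, hI i, rfl⟩)
  refine ⟨m, f, g, hm, hf, hg, hgI, ?_⟩
  rw [← sr_transpose B₀ B, ← h, ← sr_transpose (B₀.submatrix id f)]
  rfl

end Pool.Agent.H22.DE
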