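import Pool.Agent.H22.DE.Idn

/-!
The key lemma for dense spaces of square matrices (helper22, MP_966f71_lc): at a point `A` where the
identities hold, every pair of a kernel vector `k` and a row vector `w` with `w A = 0` has
`dim V k ≤ 2c+4` or `dim w V ≤ 4c+7`.
-/

set_option autoImplicit false

open Module Matrix

namespace Pool.Agent.H22.DE

variable {F : Type*} [Field F]

section general

variable {E : Type*} [AddCommGroup E] [Module F E] [FiniteDimensional F E]

omit [FiniteDimensional F E] in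
/-- independent vectors in a set with a large span -/
lemma exists_indep (s : Set E) {b : ℕ} (hb : b ≤ finrank F (Submodule.span F s)) :
    ∃ u : Fin b → E, LinearIndependent F u ∧ ∀ i, u i ∈ s := by
  classical
  obtain ⟨t, hts, hspan, hli⟩ := exists_linearIndependent F s
  by_cases hfin : t.Finite
  · have := hfin.fintype
    have h1 : finrank F (Submodule.span F s) = Fintype.card t := by
      rw [← hspan]
      have := finrank_span_eq_card hli
      rw [Subtype.range_coe] at this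
      exact this
    let e : Fin b → t := fun i => (Fintype.equivFin t).symm ⟨i.1, by omega⟩
    have he : Function.Injective e := by
      intro i j hij
      have := (Fintype.equivFin t).symm.injective hij
      exact Fin.ext (by simpa using this)
    exact ⟨fun i => (e i : E), hli.comp e he, fun i => hts (e i).2⟩
  · have : Infinite t := (Set.not_finite.1 hfin).to_subtype
    let e : Fin b ↪ t := Fin.valEmbedding.trans (Infinite.natEmbedding t)
    exact ⟨fun i => (e i : E), hli.comp e e.injective, fun i => hts (e i).2⟩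

omit [FiniteDimensional F E] in
/-- the complement of a proper subspace spans -/
lemma span_compl (V p : Submodule F E) {v₀ : E} (hv₀ : v₀ ∈ V) (h : v₀ ∉ p) :
    ∀ v ∈ V, v ∈ Submodule.span F {v | v ∈ V ∧ v ∉ p} := by
  intro v hv
  by_cases hp : v ∈ p
  · have h1 : v + v₀ ∉ p := by
      intro h2
      exact h (by simpa using p.sub_mem h2 hp)
    have : v = (v + v₀) - v₀ := by abel
    rw [this]
    exact Submodule.sub_mem _ (Submodule.subset_span ⟨V.add_mem hv hv₀, h1⟩)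
      (Submodule.subset_span ⟨hv₀, h⟩)
  · exact Submodule.subset_span ⟨hv, hp⟩

end general

variable {ι : Type*} [Fintype ι] [DecidableEq ι]

/-- The identities at a point `A` with generalized inverse `P`. -/
def Idt (A P : Matrix ι ι F) (V : Submodule F (Matrix ι ι F)) : Prop :=
  ∀ M ∈ V, ∀ k, A *ᵥ k = 0 → ∀ j ≤ 3,
    A *ᵥ (P *ᵥ (M *ᵥ (((P * M) ^ j) *ᵥ k))) = M *ᵥ (((P * M) ^ j) *ᵥ k)

/-- the annihilator of `k` and `w` in `V` -/
def ann (V : Submodule F (Matrix ι ι F)) (k w : ι → F) : Submodule F (Matrix ι ι F) :=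
  V ⊓ LinearMap.ker (evR k) ⊓ LinearMap.ker (evL w)

omit [DecidableEq ι] in
lemma mem_ann {V : Submodule F (Matrix ι ι F)} {k w : ι → F} {C : Matrix ι ι F} :
    C ∈ ann V k w ↔ C ∈ V ∧ C *ᵥ k = 0 ∧ w ᵥ* C = 0 := by
  simp [ann, and_assoc]

omit [DecidableEq ι] in
lemma finrank_ann (V : Submodule F (Matrix ι ι F)) (k w : ι → F) :
    finrank F V ≤ finrank F (ann V k w) + 2 * Fintype.card ι := by
  have h := finrank_le_of_ker (E' := (ι → F) × (ι → F)) V (ann V k w)
    (((evR k).domRestrict V).prod ((evL w).domRestrict V)) (by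
      intro v hv
      have h1 := congrArg Prod.fst hv
      have h2 := congrArg Prod.snd hv
      exact mem_ann.2 ⟨v.2, h1, h2⟩)
  rw [finrank_prod, finrank_fintype_fun_eq_card] at h
  omega

section identities

variable {A P : Matrix ι ι F} {V : Submodule F (Matrix ι ι F)}

omit [DecidableEq ι] in
lemma w_zero {w z : ι → F} (hw : w ᵥ* A = 0) (hz : A *ᵥ (P *ᵥ z) = z) : w ⬝ᵥ z = 0 := by
  rw [← hz, Matrix.dotProduct_mulVec, hw, zero_dotProduct]

/-- `C x` is in the range of `A` -/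
lemma idt_one (h : Idt A P V) {k w : ι → F} (hk : A *ᵥ k = 0) {B C : Matrix ι ι F} (hB : B ∈ V)
    (hC : C ∈ ann V k w) :
    A *ᵥ (P *ᵥ (C *ᵥ (P *ᵥ (B *ᵥ k)))) = C *ᵥ (P *ᵥ (B *ᵥ k)) := by
  obtain ⟨hC1, hC2, -⟩ := mem_ann.1 hC
  have h1 := h B hB k hk 1 (by norm_num)
  have h2 := h (B + C) (V.add_mem hB hC1) k hk 1 (by norm_num)
  rw [pow_one, ← Matrix.mulVec_mulVec] at h1 h2
  rw [Matrix.add_mulVec, Matrix.add_mulVec, hC2, add_zero, Matrix.mulVec_add, Matrix.mulVec_add,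
    h1] at h2
  exact add_left_cancel h2

/-- the quadratic identity -/
lemma idt_quad [Infinite F] (h : Idt A P V) {k w : ι → F} (hk : A *ᵥ k = 0) (hw : w ᵥ* A = 0)
    {B C : Matrix ι ι F} (hB : B ∈ V) (hC : C ∈ ann V k w) :
    (w ᵥ* B) ⬝ᵥ (P *ᵥ (C *ᵥ (P *ᵥ (C *ᵥ (P *ᵥ (B *ᵥ k)))))) = 0 := by
  obtain ⟨hC1, hC2, hC3⟩ := mem_ann.1 hC
  set x := P *ᵥ (B *ᵥ k) with hx
  set u := w ᵥ* B with hu
  have key : ∀ s : F, u ⬝ᵥ (P *ᵥ (B *ᵥ (P *ᵥ (B *ᵥ x)))) +
      s * (u ⬝ᵥ (P *ᵥ (B *ᵥ (P *ᵥ (C *ᵥ x)))) + u ⬝ᵥ (P *ᵥ (C *ᵥ (P *ᵥ (B *ᵥ x))))) +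
      s * s * (u ⬝ᵥ (P *ᵥ (C *ᵥ (P *ᵥ (C *ᵥ x))))) = 0 := by
    intro s
    have hM : B + s • C ∈ V := V.add_mem hB (V.smul_mem s hC1)
    have h1 := w_zero hw (h _ hM k hk 3 le_rfl)
    have h2 : ((P * (B + s • C)) ^ 3) *ᵥ k =
        P *ᵥ ((B + s • C) *ᵥ (P *ᵥ ((B + s • C) *ᵥ x))) := by
      have e : (B + s • C) *ᵥ k = B *ᵥ k := by
        rw [Matrix.add_mulVec, Matrix.smul_mulVec, hC2, smul_zero, add_zero]
      rw [pow_succ, pow_succ, pow_one, ← Matrix.mulVec_mulVec, ← Matrix.mulVec_mulVec,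
        ← Matrix.mulVec_mulVec, ← Matrix.mulVec_mulVec, ← Matrix.mulVec_mulVec, e, ← hx]
    rw [h2, Matrix.dotProduct_mulVec, Matrix.vecMul_add, Matrix.vecMul_smul, hC3, smul_zero,
      add_zero, ← hu] at h1
    simp only [Matrix.add_mulVec, Matrix.smul_mulVec, Matrix.mulVec_add, Matrix.mulVec_smul,
      dotProduct_add, dotProduct_smul, smul_eq_mul] at h1
    rw [← h1]
    ring
  classical
  have k0 := key 0
  have k1 := key 1
  simp only [zero_mul, add_zero] at k0
  obtain ⟨t, ht⟩ := Infinite.exists_notMem_finset ({0, 1} : Finset F)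
  simp only [Finset.mem_insert, Finset.mem_singleton, not_or] at ht
  have kt := key t
  rw [k0, zero_add] at k1 kt
  rw [one_mul, one_mul, one_mul] at k1
  have h3 : t * (t - 1) * (u ⬝ᵥ (P *ᵥ (C *ᵥ (P *ᵥ (C *ᵥ x))))) = 0 := by
    linear_combination kt - t * k1
  exact (mul_eq_zero.1 h3).resolve_left (mul_ne_zero ht.1 (sub_ne_zero.2 ht.2))

/-- the polarised identity -/
lemma idt_polar [Infinite F] (h : Idt A P V) {k w : ι → F} (hk : A *ᵥ k = 0) (hw : w ᵥ* A = 0)
    {B C C' : Matrix ι ι F} (hB : B ∈ V) (hC : C ∈ ann V k w) (hC' : C' ∈ ann V k w) :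
    (w ᵥ* B) ⬝ᵥ (P *ᵥ (C *ᵥ (P *ᵥ (C' *ᵥ (P *ᵥ (B *ᵥ k)))))) +
    (w ᵥ* B) ⬝ᵥ (P *ᵥ (C' *ᵥ (P *ᵥ (C *ᵥ (P *ᵥ (B *ᵥ k)))))) = 0 := by
  have h1 := idt_quad h hk hw hB hC
  have h2 := idt_quad h hk hw hB hC'
  have h3 := idt_quad h hk hw hB ((ann V k w).add_mem hC hC')
  simp only [Matrix.add_mulVec, Matrix.mulVec_add, dotProduct_add] at h3
  linear_combination h3 - h1 - h2

/-- `P` is injective on a subspace of the range of `A` -/
lemma finrank_map_P (W : Submodule F (ι → F)) (hW : ∀ z ∈ W, A *ᵥ (P *ᵥ z) = z) :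
    finrank F (W.map P.mulVecLin) = finrank F W := by
  have h1 := finrank_eq_map_add W P.mulVecLin
  have h2 : W ⊓ LinearMap.ker P.mulVecLin = ⊥ := by
    rw [eq_bot_iff]
    rintro z ⟨hz, hz'⟩
    have h3 : P *ᵥ z = 0 := hz'
    have h4 := hW z hz
    rw [h3, Matrix.mulVec_zero] at h4
    exact (Submodule.mem_bot F).2 h4.symm
  rw [h2, finrank_bot] at h1
  omega

/-- `w B P A = w B` -/
lemma idt_row (h : Idt A P V) (hP : A * P * A = A) {w : ι → F} (hw : w ᵥ* A = 0)
    {B : Matrix ι ι F} (hB : B ∈ V) : ((w ᵥ* B) ᵥ* P) ᵥ* A = w ᵥ* B := by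
  apply dotProduct_eq
  intro z
  have hk : A *ᵥ (z - P *ᵥ (A *ᵥ z)) = 0 := by
    rw [Matrix.mulVec_sub, Matrix.mulVec_mulVec, Matrix.mulVec_mulVec, hP, sub_self]
  have h1 := w_zero hw (h B hB _ hk 0 (by norm_num))
  rw [pow_zero, Matrix.one_mulVec, Matrix.mulVec_sub, dotProduct_sub] at h1
  rw [← Matrix.dotProduct_mulVec, ← Matrix.dotProduct_mulVec, ← Matrix.dotProduct_mulVec]
  rw [← Matrix.dotProduct_mulVec]
  exact (sub_eq_zero.1 h1).symm

end identities

/-- two proper subspaces do not cover -/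
lemma exists_notMem_two {E : Type*} [AddCommGroup E] [Module F E] (V S T : Submodule F E)
    (hS : ∃ v ∈ V, v ∉ S) (hT : ∃ v ∈ V, v ∉ T) : ∃ v ∈ V, v ∉ S ∧ v ∉ T := by
  obtain ⟨v, hv, hvS⟩ := hS
  obtain ⟨w, hw, hwT⟩ := hT
  by_cases h1 : v ∈ T
  · by_cases h2 : w ∈ S
    · refine ⟨v + w, V.add_mem hv hw, fun h => hvS ?_, fun h => hwT ?_⟩
      · simpa using S.sub_mem h h2
      · simpa using T.sub_mem h h1
    · exact ⟨w, hw, h2, hwT⟩
  · exact ⟨v, hv, hvS, h1⟩

private lemma select_aux {E E₁ : Type*} [AddCommGroup E] [Module F E] [AddCommGroup E₁]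
    [Module F E₁] [FiniteDimensional F E₁] (V : Submodule F E) (f : E →ₗ[F] E₁) {b : ℕ}
    (B : Fin b → E) (hf : b + 1 ≤ finrank F (V.map f))
    (h : LinearIndependent F (fun i => f (B i))) :
    ∃ v ∈ V, v ∉ (Submodule.span F (Set.range fun i => f (B i))).comap f := by
  by_contra hno
  push Not at hno
  have h5 : V.map f ≤ Submodule.span F (Set.range fun i => f (B i)) := by
    rintro _ ⟨v, hv, rfl⟩
    exact hno v hv
  have h6 := Submodule.finrank_mono h5
  rw [finrank_span_eq_card h, Fintype.card_fin] at h6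
  omega

private lemma cons_map {E E₁ : Type*} (φ : E → E₁) {b : ℕ} (v : E) (B : Fin b → E) :
    (fun i => φ ((Fin.cons v B : Fin (b + 1) → E) i)) =
      (Fin.cons (φ v) (fun i => φ (B i)) : Fin (b + 1) → E₁) := by
  funext i
  refine Fin.cases ?_ (fun i => ?_) i
  · rfl
  · rfl

/-- simultaneous selection of independent values of two linear maps -/
lemma select {E E₁ E₂ : Type*} [AddCommGroup E] [Module F E] [AddCommGroup E₁] [Module F E₁]
    [FiniteDimensional F E₁] [AddCommGroup E₂] [Module F E₂] [FiniteDimensional F E₂]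
    (V : Submodule F E) (f : E →ₗ[F] E₁) (g : E →ₗ[F] E₂) (b : ℕ)
    (hf : b ≤ finrank F (V.map f)) (hg : b ≤ finrank F (V.map g)) :
    ∃ B : Fin b → E, (∀ i, B i ∈ V) ∧ LinearIndependent F (fun i => f (B i)) ∧
      LinearIndependent F (fun i => g (B i)) := by
  induction b with
  | zero => exact ⟨Fin.elim0, fun i => i.elim0, linearIndependent_empty_type,
      linearIndependent_empty_type⟩
  | succ b ih =>
    obtain ⟨B, hB, h1, h2⟩ := ih (by omega) (by omega)
    obtain ⟨v, hv, hv1, hv2⟩ := exists_notMem_two V _ _ (select_aux V f B hf h1)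
      (select_aux V g B hg h2)
    refine ⟨Fin.cons v B, ?_, ?_, ?_⟩
    · intro i
      refine Fin.cases ?_ (fun i => ?_) i
      · exact hv
      · exact hB i
    · rw [cons_map f]
      exact linearIndependent_finCons.2 ⟨h1, hv1⟩
    · rw [cons_map g]
      exact linearIndependent_finCons.2 ⟨h2, hv2⟩

private lemma key_arith {N c s D : ℕ}
    (hcnt : D ≤ s + (N - (2 * c + 4)) * (N - (2 * c + 4)))
    (hs : s = (2 * c + 4) * N) (hD : N * N ≤ D + (c + 2) * N)
    (hc : 4 * (c + 2) < N) : False := by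
  obtain ⟨q, hq⟩ := Nat.exists_eq_add_of_le (show 2 * c + 4 ≤ N by omega)
  have h2 : N - (2 * c + 4) = q := by omega
  rw [h2] at hcnt
  have h3 : 2 * c + 4 < q := by omega
  have h4 : (2 * c + 4) * (2 * c + 4) < (2 * c + 4) * q := Nat.mul_lt_mul_of_pos_left h3 (by omega)
  subst hq
  nlinarith

/-- **Key lemma** -/
theorem key [Infinite F] {A P : Matrix ι ι F} {V : Submodule F (Matrix ι ι F)}
    (h : Idt A P V) (hP : A * P * A = A) {c : ℕ}
    (hV : Fintype.card ι * Fintype.card ι ≤ finrank F V + c * Fintype.card ι)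
    (hc : 4 * (c + 2) < Fintype.card ι) {k w : ι → F} (hk : A *ᵥ k = 0) (hw : w ᵥ* A = 0) :
    finrank F (V.map (evR k)) ≤ 2 * c + 3 ∨ finrank F (V.map (evL w)) ≤ 2 * c + 3 := by
  classical
  by_contra hcon
  push Not at hcon
  obtain ⟨hcon1, hcon2⟩ := hcon
  set N := Fintype.card ι with hN
  set D := ann V k w with hDdef
  have hD : N * N ≤ finrank F D + (c + 2) * N := by
    have := finrank_ann V k w
    rw [← hDdef, ← hN] at this
    have e : (c + 2) * N = c * N + 2 * N := by ring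
    omega
  have hPinj : ∀ B ∈ V, A *ᵥ (P *ᵥ (B *ᵥ k)) = B *ᵥ k := by
    intro B hB
    have := h B hB k hk 0 (by norm_num)
    rwa [pow_zero, Matrix.one_mulVec] at this
  have hX : finrank F ((V.map (evR k)).map P.mulVecLin) = finrank F (V.map (evR k)) := by
    refine finrank_map_P (A := A) _ ?_
    rintro _ ⟨B, hB, rfl⟩
    exact hPinj B hB
  rw [← Submodule.map_comp] at hX
  obtain ⟨B, hBV, hx, hu⟩ := select V (P.mulVecLin ∘ₗ evR k) (evL w) (2 * c + 4)
    (by omega) (by omega)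
  let x : Fin (2 * c + 4) → ι → F := fun i => P *ᵥ (B i *ᵥ k)
  let y : Fin (2 * c + 4) → ι → F := fun i => (w ᵥ* B i) ᵥ* P
  have hx' : LinearIndependent F x := hx
  have hy : LinearIndependent F y := by
    have h1 : (fun i => evL w (B i)) = (Matrix.vecMulLinear A) ∘ y := by
      funext i
      exact (idt_row h hP hw (hBV i)).symm
    exact LinearIndependent.of_comp (Matrix.vecMulLinear A) (h1 ▸ hu)
  let Z : Fin (2 * c + 4) → Submodule F (ι → F) := fun i => (D.map (evR (x i))).map P.mulVecLin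
  have hZ : ∀ i, finrank F (Z i) = finrank F (D.map (evR (x i))) := by
    intro i
    refine finrank_map_P (A := A) _ ?_
    rintro _ ⟨C, hC, rfl⟩
    exact idt_one h hk (hBV i) hC
  have hcnt := cnt2 D x hx' y hy Z (by
    rintro C' hC' hCX i _ ⟨_, ⟨C, hC, rfl⟩, rfl⟩
    have h1 := idt_polar h hk hw (hBV i) hC hC'
    have h2 : C' *ᵥ (P *ᵥ (B i *ᵥ k)) = 0 := hCX i
    rw [h2, Matrix.mulVec_zero, Matrix.mulVec_zero, Matrix.mulVec_zero, dotProduct_zero,
      zero_add] at h1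
    show (((w ᵥ* B i) ᵥ* P) ᵥ* C') ⬝ᵥ (P *ᵥ (C *ᵥ (P *ᵥ (B i *ᵥ k)))) = 0
    rw [← Matrix.dotProduct_mulVec, ← Matrix.dotProduct_mulVec]
    exact h1)
  have hs : ∑ i, finrank F (D.map (evR (x i))) + ∑ i, finrank F (perp (Z i)) =
      (2 * c + 4) * N := by
    rw [← Finset.sum_add_distrib, Finset.sum_congr rfl (fun i _ => show
      finrank F (D.map (evR (x i))) + finrank F (perp (Z i)) = N by
        have h2 := finrank_perp (Z i)
        rw [hZ i] at h2
        omega)]
    simp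
  exact key_arith hcnt hs hD hc

end Pool.Agent.H22.DE
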