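import Pool.Agent.H22.DE.Spr
import Pool.Agent.H22.DE.Key

/-!
From local optimality (no improvement by changing at most four coordinates) to the identities `Idt`
(helper22, MP_966f71_lc).
-/

set_option autoImplicit false

open Module Matrix

namespace Pool.Agent.H22.DE

variable {F : Type*} [Field F] {σ : Type*} [Fintype σ]
  {ι : Type*} [Fintype ι] [DecidableEq ι]

/-- all entries have total degree at most `d` -/
def td (d : ℕ) (M : Matrix ι ι (MvPolynomial σ F)) : Prop := ∀ i j, (M i j).totalDegree ≤ d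

omit [Fintype σ] [DecidableEq ι] in
lemma td_mul {d e : ℕ} {M N : Matrix ι ι (MvPolynomial σ F)} (hM : td d M) (hN : td e N) :
    td (d + e) (M * N) := by
  intro i j
  rw [Matrix.mul_apply]
  refine (MvPolynomial.totalDegree_finsetSum _ _).trans (Finset.sup_le fun k _ => ?_)
  exact (MvPolynomial.totalDegree_mul _ _).trans (add_le_add (hM i k) (hN k j))

omit [Fintype σ] [Fintype ι] [DecidableEq ι] in
lemma td_C (M : Matrix ι ι F) : td 0 (M.map (MvPolynomial.C (σ := σ))) := by
  intro i j
  rw [Matrix.map_apply, MvPolynomial.totalDegree_C]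

omit [Fintype σ] in
lemma td_pow {d : ℕ} {M : Matrix ι ι (MvPolynomial σ F)} (hM : td d M) (j : ℕ) :
    td (j * d) (M ^ j) := by
  induction j with
  | zero =>
    intro i j
    rw [pow_zero, Matrix.one_apply]
    split_ifs <;> simp
  | succ j ih =>
    rw [pow_succ, Nat.succ_mul]
    exact td_mul ih hM

omit [DecidableEq ι] in
lemma lin_add_smul (A₀ : Matrix ι ι F) (A : σ → Matrix ι ι F) (b x : σ → F) (t : F) :
    lin A₀ A b + t • lin 0 A x = lin A₀ A (b + t • x) := by
  unfold lin
  rw [zero_add, Finset.smul_sum, add_assoc, ← Finset.sum_add_distrib]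
  congr 1
  refine Finset.sum_congr rfl fun i _ => ?_
  rw [smul_smul, ← add_smul]
  rfl

omit [Fintype ι] [DecidableEq ι] in
lemma mem_span_lin (A : σ → Matrix ι ι F) {M : Matrix ι ι F}
    (hM : M ∈ Submodule.span F (Set.range A)) : ∃ x : σ → F, lin 0 A x = M := by
  obtain ⟨x, hx⟩ := (Submodule.mem_span_range_iff_exists_fun F).1 hM
  exact ⟨x, by rw [lin, zero_add]; exact hx⟩

omit [DecidableEq ι] in
lemma lin_mem_span (A : σ → Matrix ι ι F) (x : σ → F) :
    lin 0 A x ∈ Submodule.span F (Set.range A) := by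
  rw [lin, zero_add]
  exact Submodule.sum_mem _ fun i _ => Submodule.smul_mem _ _ (Submodule.subset_span ⟨i, rfl⟩)

/-- **local optimality implies the identities** -/
theorem idt_of_stuck [Infinite F] [DecidableEq σ] (A₀ : Matrix ι ι F) (A : σ → Matrix ι ι F)
    (b : σ → F) (h4 : ∀ b' : σ → F, nd b' b ≤ 4 → (lin A₀ A b').rank ≤ (lin A₀ A b).rank)
    (P : Matrix ι ι F) (hP : lin A₀ A b * P * lin A₀ A b = lin A₀ A b) :
    Idt (lin A₀ A b) P (Submodule.span F (Set.range A)) := by
  intro M hM k hk j hj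
  obtain ⟨x, rfl⟩ := mem_span_lin A hM
  set B := lin A₀ A b with hB
  -- the polynomial identity
  let G : Matrix ι ι (MvPolynomial σ F) :=
    (B * P - 1).map (MvPolynomial.C (σ := σ)) * (sy 0 A * (P.map (MvPolynomial.C (σ := σ)) * sy 0 A) ^ j)
  have hG : ∀ z : σ → F, G.map (MvPolynomial.eval z) =
      (B * P - 1) * (lin 0 A z * (P * lin 0 A z) ^ j) := by
    intro z
    have h1 : ∀ N : Matrix ι ι F, (N.map (MvPolynomial.C (σ := σ))).map (MvPolynomial.eval z) = N := by
      intro N
      ext i j
      simp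
    show ((MvPolynomial.eval z).mapMatrix G) = _
    simp only [G, map_mul, map_pow, RingHom.mapMatrix_apply]
    rw [h1, h1, sy_eval]
  have hdeg : td 4 G := by
    have h1 : td (σ := σ) 1 (sy 0 A) := sy_deg 0 A
    have h2 := td_mul (td_C (B * P - 1)) (td_mul h1 (td_pow (td_mul (td_C P) h1) j))
    intro i l
    exact (h2 i l).trans (by omega)
  have hzero : ∀ i : ι, ∑ l, G i l * MvPolynomial.C (k l) = 0 := by
    intro i
    refine poly_zero_of_sparse _ (d := 4) ?_ 0 ?_
    · refine (MvPolynomial.totalDegree_finsetSum _ _).trans (Finset.sup_le fun l _ => ?_)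
      refine (MvPolynomial.totalDegree_mul _ _).trans ?_
      rw [MvPolynomial.totalDegree_C, add_zero]
      exact hdeg i l
    · intro z hz
      have h1 := stuck_mem B (lin 0 A z) P hP (fun t => by
        rw [hB, lin_add_smul]
        refine h4 _ (le_trans (nd_mono ?_) hz)
        intro i hi
        have hi' : z i = 0 := hi
        simp [hi']) k hk j
      have h2 : ((B * P - 1) * (lin 0 A z * (P * lin 0 A z) ^ j)) *ᵥ k = 0 := by
        rw [← Matrix.mulVec_mulVec, ← Matrix.mulVec_mulVec, Matrix.sub_mulVec, Matrix.one_mulVec,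
          ← Matrix.mulVec_mulVec, h1, sub_self]
      rw [← hG z] at h2
      have h3 := congrFun h2 i
      rw [Matrix.mulVec, dotProduct] at h3
      rw [map_sum]
      simp only [map_mul, MvPolynomial.eval_C]
      exact h3
  have hfin : ((B * P - 1) * (lin 0 A x * (P * lin 0 A x) ^ j)) *ᵥ k = 0 := by
    rw [← hG x]
    ext i
    have h1 := congrArg (MvPolynomial.eval x) (hzero i)
    rw [map_sum, map_zero] at h1
    simp only [map_mul, MvPolynomial.eval_C] at h1
    exact h1
  rw [← Matrix.mulVec_mulVec, ← Matrix.mulVec_mulVec, Matrix.sub_mulVec, Matrix.one_mulVec,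
    ← Matrix.mulVec_mulVec] at hfin
  exact sub_eq_zero.1 hfin

end Pool.Agent.H22.DE
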