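import Pool.Agent.H22.DE.Fpt

/-!
Progress of the local search for dense spaces of square matrices (helper22, MP_966f71_lc).
-/

set_option autoImplicit false
set_option linter.unusedSectionVars false

open Module Matrix

namespace Pool.Agent.H22.DE

variable {F : Type*} [Field F] {σ : Type*} [Fintype σ]

/-- passing to points whose new coordinates lie in `T` -/
lemma exists_grid' {m n : Type*} [Fintype m] [Fintype n] (A₀ : Matrix m n F)
    (A : σ → Matrix m n F) (T : Finset F) (a b : σ → F) (hT : (lin A₀ A b).rank < T.card) :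
    ∃ b' : σ → F, (∀ i, b' i = a i ∨ b' i ∈ T) ∧ (∀ i, b i = a i → b' i = a i) ∧
      (lin A₀ A b).rank ≤ (lin A₀ A b').rank := by
  classical
  let A₀' : Matrix m n F := A₀ + ∑ i, (if b i = a i then a i else 0) • A i
  let A' : σ → Matrix m n F := fun i => if b i = a i then 0 else A i
  have hlin : ∀ x : σ → F, lin A₀' A' x = lin A₀ A (fun i => if b i = a i then a i else x i) := by
    intro x
    simp only [lin, A₀', A']
    rw [add_assoc, ← Finset.sum_add_distrib]
    congr 1
    refine Finset.sum_congr rfl fun i _ => ?_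
    by_cases h : b i = a i
    · simp [h]
    · simp [h]
  have hb : lin A₀' A' b = lin A₀ A b := by
    rw [hlin]
    congr 1
    funext i
    by_cases h : b i = a i
    · simp [h]
    · simp [h]
  obtain ⟨q, hq, hdeg, hw⟩ := exists_witness_at (sy A₀' A') (sy_deg A₀' A') b
  rw [sy_eval, hb] at hdeg hw
  obtain ⟨b₁, hb₁, hev⟩ : ∃ b₁ : σ → F, (∀ i, b₁ i ∈ T) ∧ MvPolynomial.eval b₁ q ≠ 0 := by
    by_contra hno
    push Not at hno
    have : q = 0 := MvPolynomial.eq_zero_of_eval_zero_at_prod_finset q (fun _ => T)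
      (fun i => lt_of_le_of_lt ((MvPolynomial.degreeOf_le_totalDegree q i).trans hdeg) hT) hno
    exact hq (by rw [this, map_zero])
  refine ⟨fun i => if b i = a i then a i else b₁ i, ?_, ?_, ?_⟩
  · intro i
    by_cases h : b i = a i
    · exact Or.inl (by simp only [h, if_true])
    · exact Or.inr (by simp only [h, if_false]; exact hb₁ i)
  · intro i h
    simp [h]
  · have := hw b₁ hev
    rwa [sy_eval, hlin] at this

variable {ι : Type*} [Fintype ι] [DecidableEq ι]

/-- an improvement at distance at most `r` gives one with new coordinates in `T` -/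
lemma improve_grid (A₀ : Matrix ι ι F) (A : σ → Matrix ι ι F) (T : Finset F)
    (hT : Fintype.card ι < T.card) (a b : σ → F) {r : ℕ} (hb : nd b a ≤ r)
    (hr : (lin A₀ A a).rank < (lin A₀ A b).rank) :
    ∃ b' : σ → F, nd b' a ≤ r ∧ (∀ i, b' i = a i ∨ b' i ∈ T) ∧
      (lin A₀ A a).rank < (lin A₀ A b').rank := by
  obtain ⟨b', h1, h2, h3⟩ := exists_grid' A₀ A T a b
    (lt_of_le_of_lt (Matrix.rank_le_card_width _) hT)
  exact ⟨b', (nd_mono h2).trans hb, h1, lt_of_lt_of_le hr h3⟩

/-- **Progress.**  `crit` is the optimality criterion. -/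
theorem progress [Infinite F] {s s' : ℕ} (A₀ : Matrix ι ι F) (A : σ → Matrix ι ι F)
    (K : Matrix ι (Fin s) F) (L : Matrix (Fin s') ι F) (I : Finset σ)
    (hI : ∀ i, A i * K ∈ Submodule.span F (Set.range fun j : I => A j * K))
    (hI' : ∀ i, L * A i ∈ Submodule.span F (Set.range fun j : I => L * A j))
    (T S₁ S₂ : Finset F) (hT : Fintype.card ι < T.card) (h0 : (0 : F) ∈ S₁)
    (h1 : s + s' < S₁.card) (h2 : s + s' + Fintype.card ι < S₂.card) (a : σ → F) (E : Prop)
    (crit : (∀ b : σ → F, nd b a ≤ 4 → (lin A₀ A b).rank ≤ (lin A₀ A a).rank) →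
      sr (sy A₀ A * K.map (MvPolynomial.C (σ := σ))) = (lin A₀ A a * K).rank →
      sr (L.map (MvPolynomial.C (σ := σ)) * sy A₀ A) = (L * lin A₀ A a).rank →
      ¬ E → sr (sy A₀ A) ≤ (lin A₀ A a).rank)
    (ha : (lin A₀ A a).rank < sr (sy A₀ A)) :
    (∃ b : σ → F, nd b a ≤ 4 ∧ (∀ i, b i = a i ∨ b i ∈ T) ∧
      (lin A₀ A a).rank < (lin A₀ A b).rank) ∨
    (∃ (y : σ → F), ∃ z ∈ S₂, (∀ i, y i ∈ S₁) ∧ (∀ i, y i ≠ 0 → i ∈ I) ∧ nd y 0 ≤ s + s' ∧
      (lin A₀ A a).rank ≤ (lin A₀ A (a + z • y)).rank ∧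
      (lin A₀ A a * K).rank ≤ (lin A₀ A (a + z • y) * K).rank ∧
      (L * lin A₀ A a).rank ≤ (L * lin A₀ A (a + z • y)).rank ∧
      (lin A₀ A a * K).rank + (L * lin A₀ A a).rank <
        (lin A₀ A (a + z • y) * K).rank + (L * lin A₀ A (a + z • y)).rank) ∨
    E := by
  by_cases hst : ∀ b : σ → F, nd b a ≤ 4 → (lin A₀ A b).rank ≤ (lin A₀ A a).rank
  · by_cases hE : E
    · exact Or.inr (Or.inr hE)
    · refine Or.inr (Or.inl ?_)
      obtain ⟨y, z, hy1, hy2, hy3, hz, hr, hK, hL⟩ := exists_step A₀ A K L I hI hI' S₁ h0 h1 S₂ h2 a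
      have k1 : (lin A₀ A a * K).rank ≤ sr (sy A₀ A * K.map (MvPolynomial.C (σ := σ))) := by
        rw [sy_mul, lin_mul]
        exact lin_le_sr _ _ _
      have k2 : (L * lin A₀ A a).rank ≤ sr (L.map (MvPolynomial.C (σ := σ)) * sy A₀ A) := by
        rw [mul_sy, mul_lin]
        exact lin_le_sr _ _ _
      refine ⟨y, z, hz, hy1, hy2, hy3, hr, by omega, by omega, ?_⟩
      by_contra hlt
      push Not at hlt
      have := crit hst (by omega) (by omega) hE
      omega
  · push Not at hst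
    obtain ⟨b, hb, hr⟩ := hst
    exact Or.inl (improve_grid A₀ A T hT a b hb hr)

end Pool.Agent.H22.DE
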