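import Pool.Agent.H22.DE.Idn

/-!
Sparse points of polynomials, matrices of linear forms, and rank at sparse points
(helper22, MP_966f71_lc).
-/

set_option autoImplicit false

open Module Matrix

namespace Pool.Agent.H22.DE

variable {F : Type*} [Field F] {σ : Type*} [Fintype σ] [DecidableEq σ]
  {m n : Type*} [Fintype m] [Fintype n]

/-- the number of places where `b` and `a` differ -/
noncomputable def nd (b a : σ → F) : ℕ := {i | b i ≠ a i}.ncard

omit [Field F] [DecidableEq σ] in
lemma nd_mono {b a b' a' : σ → F} (h : ∀ i, b' i = a' i → b i = a i) : nd b a ≤ nd b' a' :=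
  Set.ncard_le_ncard (fun i hi h' => hi (h i h')) (Set.toFinite _)

omit [Field F] [DecidableEq σ] in
lemma nd_tri (b c a : σ → F) : nd b a ≤ nd b c + nd c a := by
  refine le_trans (Set.ncard_le_ncard ?_ (Set.toFinite _)) (Set.ncard_union_le _ _)
  intro i hi
  by_contra hcon
  simp only [Set.mem_union, not_or] at hcon
  have h1 : b i = c i := by
    by_contra h
    exact hcon.1 h
  have h2 : c i = a i := by
    by_contra h
    exact hcon.2 h
  exact hi (h1.trans h2)

omit [Field F] [DecidableEq σ] in
lemma nd_le (b a : σ → F) : nd b a ≤ Fintype.card σ := by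
  refine (Set.ncard_le_ncard (Set.subset_univ _) (Set.toFinite _)).trans ?_
  rw [Set.ncard_univ, Nat.card_eq_fintype_card]

/-- a nonzero polynomial of total degree at most `d` is nonzero at a grid point that differs from a
given grid point in at most `d` places -/
lemma exists_sparse (q : MvPolynomial σ F) (hq : q ≠ 0) {d D : ℕ} (hd : q.totalDegree ≤ d)
    (hD : ∀ i, q.degreeOf i ≤ D) (T : Finset F) (hT : D < T.card) (a : σ → F)
    (ha : ∀ i, a i ∈ T) :
    ∃ b : σ → F, (∀ i, b i ∈ T) ∧ nd b a ≤ d ∧
      MvPolynomial.eval b q ≠ 0 := by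
  classical
  obtain ⟨t, ht, hdeg⟩ : ∃ t ∈ q.support, q.totalDegree = t.degree := by
    have hne : q.support.Nonempty := by
      rw [Finset.nonempty_iff_ne_empty]
      intro h0
      exact hq (MvPolynomial.support_eq_empty.1 h0)
    obtain ⟨t, ht, hs⟩ := Finset.exists_mem_eq_sup q.support hne
      (fun s => s.sum fun _ e => e)
    exact ⟨t, ht, by rw [MvPolynomial.totalDegree, hs]; rfl⟩
  obtain ⟨b, hb, hev⟩ := MvPolynomial.combinatorial_nullstellensatz_exists_eval_nonzero q t
    (MvPolynomial.mem_support_iff.1 ht) hdeg (fun i => if t i = 0 then {a i} else T) (by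
      intro i
      by_cases h0 : t i = 0
      · simp [h0]
      · simp only [h0, if_false]
        have h1 : t i ≤ q.degreeOf i := MvPolynomial.monomial_le_degreeOf i ht
        exact lt_of_le_of_lt (h1.trans (hD i)) hT)
  refine ⟨b, ?_, ?_, hev⟩
  · intro i
    have := hb i
    by_cases h0 : t i = 0
    · simp only [h0, if_true, Finset.mem_singleton] at this
      rw [this]
      exact ha i
    · simpa only [h0, if_false] using this
  · have h1 : {i | b i ≠ a i} ⊆ (t.support : Set σ) := by
      intro i hi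
      rw [Finset.mem_coe, Finsupp.mem_support_iff]
      intro h0
      have := hb i
      simp only [h0, if_true, Finset.mem_singleton] at this
      exact hi this
    refine (Set.ncard_le_ncard h1 (Set.toFinite _)).trans (le_trans ?_ hd)
    rw [Set.ncard_coe_finset]
    rw [hdeg, Finsupp.degree]
    refine (Finset.card_eq_sum_ones _).le.trans (Finset.sum_le_sum fun i hi => ?_)
    exact Nat.one_le_iff_ne_zero.2 (Finsupp.mem_support_iff.1 hi)

/-- over an infinite field: a polynomial of total degree at most `d` that vanishes at all points that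
differ from `a` in at most `d` places is zero -/
lemma poly_zero_of_sparse [Infinite F] (q : MvPolynomial σ F) {d : ℕ} (hd : q.totalDegree ≤ d)
    (a : σ → F) (h : ∀ b : σ → F, nd b a ≤ d → MvPolynomial.eval b q = 0) : q = 0 := by
  classical
  by_contra hq
  obtain ⟨T₀, hT₀⟩ := Infinite.exists_subset_card_eq F (d + 1)
  obtain ⟨b, -, hb, hev⟩ := exists_sparse q hq hd (D := d)
    (fun i => (MvPolynomial.degreeOf_le_totalDegree q i).trans hd)
    (T₀ ∪ Finset.univ.image a)
    (lt_of_lt_of_le (by omega : d < T₀.card) (Finset.card_le_card Finset.subset_union_left)) a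
    (fun i => Finset.mem_union_right _ (Finset.mem_image_of_mem _ (Finset.mem_univ i)))
  exact hev (h b hb)

omit [Fintype σ] [DecidableEq σ] in
/-- two polynomials, one nonzero at `a`, the other at `b₁`: both are nonzero at a point of the line -/
lemma exists_line [Infinite F] (q q' : MvPolynomial σ F) (a b₁ : σ → F)
    (h : MvPolynomial.eval b₁ q ≠ 0) (h' : MvPolynomial.eval a q' ≠ 0) :
    ∃ b : σ → F, (∀ i, b₁ i = a i → b i = a i) ∧ MvPolynomial.eval b q ≠ 0 ∧
      MvPolynomial.eval b q' ≠ 0 := by
  let l : σ → Polynomial F := fun i => Polynomial.C (a i) + Polynomial.X * Polynomial.C (b₁ i - a i)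
  have hev : ∀ (p : MvPolynomial σ F) (t : F), Polynomial.eval t (MvPolynomial.aeval l p) =
      MvPolynomial.eval (fun i => a i + t * (b₁ i - a i)) p := by
    intro p t
    have h1 : (Polynomial.evalRingHom t).comp (MvPolynomial.aeval l).toRingHom =
        MvPolynomial.eval (fun i => a i + t * (b₁ i - a i)) := by
      apply MvPolynomial.ringHom_ext
      · intro r
        simp
      · intro i
        simp [l]
    exact RingHom.congr_fun h1 p
  have h1 : (MvPolynomial.aeval l q) * (MvPolynomial.aeval l q') ≠ 0 := by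
    refine mul_ne_zero ?_ ?_
    · intro h0
      have := hev q 1
      rw [h0, Polynomial.eval_zero] at this
      apply h
      simpa using this.symm
    · intro h0
      have := hev q' 0
      rw [h0, Polynomial.eval_zero] at this
      apply h'
      simpa using this.symm
  obtain ⟨t, ht⟩ : ∃ t, Polynomial.eval t ((MvPolynomial.aeval l q) * (MvPolynomial.aeval l q')) ≠ 0 := by
    by_contra hno
    push Not at hno
    exact h1 (Polynomial.funext fun t => by rw [hno t, Polynomial.eval_zero])
  rw [Polynomial.eval_mul, hev, hev] at ht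
  refine ⟨fun i => a i + t * (b₁ i - a i), ?_, left_ne_zero_of_mul ht, right_ne_zero_of_mul ht⟩
  intro i hi
  simp [hi]

omit [Fintype σ] [DecidableEq σ] in
lemma totalDegree_det_le {r : ℕ} (M : Matrix (Fin r) (Fin r) (MvPolynomial σ F))
    (h : ∀ i j, (M i j).totalDegree ≤ 1) : (M.det).totalDegree ≤ r := by
  classical
  rw [Matrix.det_apply]
  refine (MvPolynomial.totalDegree_finsetSum _ _).trans (Finset.sup_le fun τ _ => ?_)
  have h1 : (Equiv.Perm.sign τ • ∏ i, M (τ i) i : MvPolynomial σ F)
      = MvPolynomial.C ((Equiv.Perm.sign τ : ℤ) : F) * ∏ i, M (τ i) i := by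
    rw [Units.smul_def, zsmul_eq_mul]
    simp
  rw [h1]
  refine (MvPolynomial.totalDegree_mul _ _).trans ?_
  rw [MvPolynomial.totalDegree_C, zero_add]
  refine (MvPolynomial.totalDegree_finsetProd _ _).trans ?_
  refine (Finset.sum_le_sum fun i _ => h (τ i) i).trans ?_
  simp

/-- rank over the field of rational functions -/
noncomputable def sr (M : Matrix m n (MvPolynomial σ F)) : ℕ :=
  (M.map (algebraMap (MvPolynomial σ F) (FractionRing (MvPolynomial σ F)))).rank

omit [Fintype σ] [DecidableEq σ] in
lemma rank_le_sr (M : Matrix m n (MvPolynomial σ F)) (x : σ → F) :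
    (M.map (MvPolynomial.eval x)).rank ≤ sr M :=
  Pool.Agent.H20.Edm.rank_eval_le M x

omit [Fintype σ] [DecidableEq σ] in
/-- a witness polynomial for the generic rank -/
lemma exists_witness (M : Matrix m n (MvPolynomial σ F)) (hM : ∀ i j, (M i j).totalDegree ≤ 1) :
    ∃ q : MvPolynomial σ F, q ≠ 0 ∧ q.totalDegree ≤ sr M ∧
      ∀ b, MvPolynomial.eval b q ≠ 0 → sr M ≤ (M.map (MvPolynomial.eval b)).rank := by
  obtain ⟨f, g, h⟩ := (Pool.Agent.H20.Edm.sym_minor_iff M (sr M)).1 le_rfl
  refine ⟨_, h, totalDegree_det_le _ fun i j => hM _ _, fun b hb => ?_⟩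
  refine Pool.Agent.H20.Edm.le_rank_of_minor _ f g ?_
  rw [Pool.Agent.H20.Edm.eval_minor]
  exact hb

omit [Fintype σ] [DecidableEq σ] in
/-- a witness polynomial for the rank at a point -/
lemma exists_witness_at (M : Matrix m n (MvPolynomial σ F)) (hM : ∀ i j, (M i j).totalDegree ≤ 1)
    (a : σ → F) :
    ∃ q : MvPolynomial σ F, MvPolynomial.eval a q ≠ 0 ∧
      q.totalDegree ≤ (M.map (MvPolynomial.eval a)).rank ∧
      ∀ b, MvPolynomial.eval b q ≠ 0 →
        (M.map (MvPolynomial.eval a)).rank ≤ (M.map (MvPolynomial.eval b)).rank := by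
  obtain ⟨f, g, h⟩ := Pool.Agent.H20.Edm.exists_minor (M.map (MvPolynomial.eval a)) le_rfl
  rw [Pool.Agent.H20.Edm.eval_minor] at h
  refine ⟨_, h, totalDegree_det_le _ fun i j => hM _ _, fun b hb => ?_⟩
  refine Pool.Agent.H20.Edm.le_rank_of_minor _ f g ?_
  rw [Pool.Agent.H20.Edm.eval_minor]
  exact hb

/-- `A₀ + ∑ xᵢ Aᵢ` at a point -/
def lin (A₀ : Matrix m n F) (A : σ → Matrix m n F) (x : σ → F) : Matrix m n F :=
  A₀ + ∑ i, x i • A i

/-- `A₀ + ∑ Xᵢ Aᵢ` -/
noncomputable def sy (A₀ : Matrix m n F) (A : σ → Matrix m n F) :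
    Matrix m n (MvPolynomial σ F) :=
  A₀.map MvPolynomial.C + ∑ i, (MvPolynomial.X i : MvPolynomial σ F) • (A i).map MvPolynomial.C

omit [DecidableEq σ] [Fintype m] [Fintype n] in
lemma sy_eval (A₀ : Matrix m n F) (A : σ → Matrix m n F) (x : σ → F) :
    (sy A₀ A).map (MvPolynomial.eval x) = lin A₀ A x := by
  ext i j
  simp [sy, lin, Matrix.add_apply, Matrix.sum_apply, Matrix.map_apply]

omit [DecidableEq σ] [Fintype m] [Fintype n] in
lemma sy_deg (A₀ : Matrix m n F) (A : σ → Matrix m n F) (i : m) (j : n) :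
    (sy A₀ A i j).totalDegree ≤ 1 := by
  classical
  simp only [sy, Matrix.add_apply, Matrix.sum_apply, Matrix.map_apply, Matrix.smul_apply,
    smul_eq_mul]
  refine (MvPolynomial.totalDegree_add _ _).trans (max_le ?_ ?_)
  · rw [MvPolynomial.totalDegree_C]
    exact Nat.zero_le _
  · refine (MvPolynomial.totalDegree_finsetSum _ _).trans (Finset.sup_le fun k _ => ?_)
    refine (MvPolynomial.totalDegree_mul _ _).trans ?_
    rw [MvPolynomial.totalDegree_X, MvPolynomial.totalDegree_C]

omit [DecidableEq σ] in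
/-- passing to grid points -/
lemma exists_grid (A₀ : Matrix m n F) (A : σ → Matrix m n F) (T : Finset F)
    (a : σ → F) (ha : ∀ i, a i ∈ T) (b : σ → F)
    (hT : (lin A₀ A b).rank < T.card) :
    ∃ b' : σ → F, (∀ i, b' i ∈ T) ∧ (∀ i, b i = a i → b' i = a i) ∧
      (lin A₀ A b).rank ≤ (lin A₀ A b').rank := by
  classical
  let A₀' : Matrix m n F := A₀ + ∑ i, (if b i = a i then a i else 0) • A i
  let A' : σ → Matrix m n F := fun i => if b i = a i then 0 else A i
  have hlin : ∀ x : σ → F, lin A₀' A' x = lin A₀ A (fun i => if b i = a i then a i else x i) := by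
    intro x
    simp only [lin, A₀', A']
    rw [add_assoc, ← Finset.sum_add_distrib]
    congr 1
    refine Finset.sum_congr rfl fun i _ => ?_
    by_cases h : b i = a i
    · simp [h]
    · simp [h]
  have hb : lin A₀' A' b = lin A₀ A b := by
    rw [hlin]
    congr 1
    funext i
    by_cases h : b i = a i
    · simp [h]
    · simp [h]
  obtain ⟨q, hq, hdeg, hw⟩ := exists_witness_at (sy A₀' A') (sy_deg A₀' A') b
  rw [sy_eval, hb] at hdeg hw
  obtain ⟨b₁, hb₁, hev⟩ : ∃ b₁ : σ → F, (∀ i, b₁ i ∈ T) ∧ MvPolynomial.eval b₁ q ≠ 0 := by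
    by_contra hno
    push Not at hno
    have : q = 0 := MvPolynomial.eq_zero_of_eval_zero_at_prod_finset q (fun _ => T)
      (fun i => lt_of_le_of_lt ((MvPolynomial.degreeOf_le_totalDegree q i).trans hdeg) hT) hno
    exact hq (by rw [this, map_zero])
  refine ⟨fun i => if b i = a i then a i else b₁ i, ?_, ?_, ?_⟩
  · intro i
    by_cases h : b i = a i
    · simp only [h, if_true]; exact ha i
    · simp only [h, if_false]; exact hb₁ i
  · intro i h
    simp [h]
  · have := hw b₁ hev
    rwa [sy_eval, hlin] at this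

end Pool.Agent.H22.DE
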