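import Pool.Agent.H22.DE.Com
import Pool.Agent.H22.DE.CntS

/-!
Dense spaces of symmetric matrices: local search and rank formula (helper22, MP_966f71_lc).
-/

set_option autoImplicit false

open Module Matrix

namespace Pool.Agent.H22.DE

variable {F : Type*} [Field F] {σ : Type*} [Fintype σ]
  {ι : Type*} [Fintype ι] [DecidableEq ι]

/-- a symmetric generalized inverse -/
lemma sym_ginv {A : Matrix ι ι F} (hA : Aᵀ = A) :
    ∃ P : Matrix ι ι F, A * P * A = A ∧ Pᵀ = P := by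
  obtain ⟨G, hG⟩ := exists_ginv A
  have hG' : A * Gᵀ * A = A := by
    have := congrArg Matrix.transpose hG
    rw [Matrix.transpose_mul, Matrix.transpose_mul, hA, ← Matrix.mul_assoc] at this
    exact this
  refine ⟨G * A * Gᵀ, ?_, ?_⟩
  · rw [← Matrix.mul_assoc, ← Matrix.mul_assoc, hG, hG']
  · rw [Matrix.transpose_mul, Matrix.transpose_mul, Matrix.transpose_transpose, hA,
      Matrix.mul_assoc]

lemma mulVec_sym {M : Matrix ι ι F} (h : Mᵀ = M) (x : ι → F) : x ᵥ* M = M *ᵥ x := by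
  rw [← Matrix.mulVec_transpose, h]

/-- `X` is spanned by vectors with a small image -/
lemma exists_indep' (X : Submodule F (ι → F)) {b : ℕ} (hb : b ≤ finrank F X) :
    ∃ u : Fin b → ι → F, LinearIndependent F u ∧ ∀ i, u i ∈ X := by
  have h : b ≤ finrank F (Submodule.span F (X : Set (ι → F))) := by rwa [Submodule.span_eq]
  exact exists_indep (F := F) (X : Set (ι → F)) h

/-- an isotropic subspace -/
lemma finrank_iso {A P : Matrix ι ι F} (Z : Submodule F (ι → F))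
    (hZ : ∀ z ∈ Z, A *ᵥ (P *ᵥ z) = z) (h : ∀ z ∈ Z, ∀ z' ∈ Z, z' ⬝ᵥ (P *ᵥ z) = 0) :
    2 * finrank F Z ≤ Fintype.card ι := by
  have h1 := finrank_map_P (A := A) (P := P) Z hZ
  have h2 : Z.map P.mulVecLin ≤ perp Z := by
    rintro _ ⟨z, hz, rfl⟩
    refine mem_perp.2 fun z' hz' => ?_
    rw [dotProduct_comm]
    exact h z hz z' hz'
  have h3 := Submodule.finrank_mono h2
  have h4 := finrank_perp Z
  omega

private lemma sym_arith {N c S D : ℕ}
    (h1 : 2 * D ≤ 2 * S + ((N - (4 * c + 8)) * (N - (4 * c + 8)) + (N - (4 * c + 8))))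
    (hS : 2 * S ≤ (4 * c + 8) * N) (hD : N * (N + 1) ≤ 2 * D + 2 * (c + 2) * N)
    (hc : 10 * (c + 2) ≤ N) : False := by
  obtain ⟨q, hq⟩ := Nat.exists_eq_add_of_le (show 4 * c + 8 ≤ N by omega)
  have h2 : N - (4 * c + 8) = q := by omega
  rw [h2] at h1
  have h3 : 4 * c + 8 ≤ q := by omega
  have h4 : (4 * c + 8) * (4 * c + 8) ≤ (4 * c + 8) * q := Nat.mul_le_mul_left _ h3
  subst hq
  nlinarith

/-- **kernel vectors are small** -/
lemma sym_small [Infinite F] (h2 : (2 : F) ≠ 0) {A P : Matrix ι ι F}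
    {V : Submodule F (Matrix ι ι F)} (hs : ∀ M ∈ V, Mᵀ = M) (hA : Aᵀ = A) (hP : Pᵀ = P)
    (h : Idt A P V) {c : ℕ}
    (hV : Fintype.card ι * (Fintype.card ι + 1) ≤ 2 * finrank F V + 2 * c * Fintype.card ι)
    (hc : 10 * (c + 2) ≤ Fintype.card ι) {k : ι → F} (hk : A *ᵥ k = 0) :
    finrank F (V.map (evR k)) ≤ 4 * c + 7 := by
  by_contra hcon
  push Not at hcon
  have hk' : k ᵥ* A = 0 := by rw [mulVec_sym hA, hk]
  set D := ann V k k with hDdef
  have hPinj : ∀ B ∈ V, A *ᵥ (P *ᵥ (B *ᵥ k)) = B *ᵥ k := by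
    intro B hB
    have := h B hB k hk 0 (by norm_num)
    rwa [pow_zero, Matrix.one_mulVec] at this
  have hX : finrank F ((V.map (evR k)).map P.mulVecLin) = finrank F (V.map (evR k)) := by
    refine finrank_map_P (A := A) _ ?_
    rintro _ ⟨B, hB, rfl⟩
    exact hPinj B hB
  have hsmall : ∀ x ∈ (V.map (evR k)).map P.mulVecLin,
      2 * finrank F (D.map (evR x)) ≤ Fintype.card ι := by
    rintro _ ⟨_, ⟨B, hB, rfl⟩, rfl⟩
    change 2 * finrank F (D.map (evR (P *ᵥ (B *ᵥ k)))) ≤ _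
    refine finrank_iso (A := A) (P := P) _ ?_ ?_
    · rintro _ ⟨C, hC, rfl⟩
      exact idt_one h hk hB hC
    · rintro _ ⟨C, hC, rfl⟩ _ ⟨C', hC', rfl⟩
      have hp := idt_polar h hk hk' hB hC hC'
      have hC1 := hs C (mem_ann.1 hC).1
      have hC1' := hs C' (mem_ann.1 hC').1
      have hB1 := hs B hB
      have hr : ∀ C : Matrix ι ι F, Cᵀ = C → ∀ y, (k ᵥ* B) ⬝ᵥ (P *ᵥ (C *ᵥ y)) =
          (C *ᵥ (P *ᵥ (B *ᵥ k))) ⬝ᵥ y := by
        intro C hC y
        rw [Matrix.dotProduct_mulVec, Matrix.dotProduct_mulVec, mulVec_sym hB1, mulVec_sym hP,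
          mulVec_sym hC]
      rw [hr C hC1, hr C' hC1'] at hp
      have hq : (C *ᵥ (P *ᵥ (B *ᵥ k))) ⬝ᵥ (P *ᵥ (C' *ᵥ (P *ᵥ (B *ᵥ k)))) =
          (C' *ᵥ (P *ᵥ (B *ᵥ k))) ⬝ᵥ (P *ᵥ (C *ᵥ (P *ᵥ (B *ᵥ k)))) := by
        rw [Matrix.dotProduct_mulVec, mulVec_sym hP, dotProduct_comm]
      rw [hq] at hp
      have h3 : (2 : F) * ((C' *ᵥ (P *ᵥ (B *ᵥ k))) ⬝ᵥ (P *ᵥ (C *ᵥ (P *ᵥ (B *ᵥ k))))) = 0 := by
        linear_combination hp
      exact (mul_eq_zero.1 h3).resolve_left h2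
  obtain ⟨u, hu, huX⟩ := exists_indep' ((V.map (evR k)).map P.mulVecLin) (b := 4 * c + 8)
    (by omega)
  have h3 := cntS D (fun M hM => hs M (mem_ann.1 hM).1) u hu
  have h4 : 2 * ∑ i, finrank F (D.map (evR (u i))) ≤ (4 * c + 8) * Fintype.card ι := by
    rw [Finset.mul_sum]
    refine (Finset.sum_le_sum fun i _ => hsmall _ (huX i)).trans ?_
    simp
  have hD : Fintype.card ι * (Fintype.card ι + 1) ≤
      2 * finrank F D + 2 * (c + 2) * Fintype.card ι := by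
    have := finrank_ann V k k
    rw [← hDdef] at this
    have e : 2 * (c + 2) * Fintype.card ι = 2 * c * Fintype.card ι + 2 * (2 * Fintype.card ι) := by
      ring
    omega
  exact sym_arith h3 h4 hD hc

private lemma sym_arith' {N c S D : ℕ}
    (h1 : 2 * D ≤ 2 * S + ((N - (2 * c + 1)) * (N - (2 * c + 1)) + (N - (2 * c + 1))))
    (hS : S ≤ (2 * c + 1) * (4 * c + 7)) (hD : N * (N + 1) ≤ 2 * D + 2 * c * N)
    (hc : 10 * (c + 2) ≤ N) : False := by
  obtain ⟨q, hq⟩ := Nat.exists_eq_add_of_le (show 2 * c + 1 ≤ N by omega)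
  have h2 : N - (2 * c + 1) = q := by omega
  rw [h2] at h1
  have h3 : 8 * c + 19 ≤ q := by omega
  have h4 : (2 * c + 2) * (8 * c + 19) ≤ (2 * c + 2) * q := Nat.mul_le_mul_left _ h3
  subst hq
  nlinarith

lemma finrank_sm_sym (V : Submodule F (Matrix ι ι F)) (hs : ∀ M ∈ V, Mᵀ = M) {c : ℕ}
    (hV : Fintype.card ι * (Fintype.card ι + 1) ≤ 2 * finrank F V + 2 * c * Fintype.card ι)
    (hc : 10 * (c + 2) ≤ Fintype.card ι) :
    finrank F (Submodule.span F (sm V (4 * c + 7))) ≤ 2 * c := by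
  by_contra hcon
  push Not at hcon
  obtain ⟨u, hu, hus⟩ := exists_indep (F := F) (sm V (4 * c + 7)) (b := 2 * c + 1) hcon
  have h1 := cntS V hs u hu
  have h2 : ∑ i, finrank F (V.map (evR (u i))) ≤ (2 * c + 1) * (4 * c + 7) := by
    refine (Finset.sum_le_sum fun i _ => hus i).trans ?_
    simp
  exact sym_arith' h1 h2 hV hc

lemma lin_sym (A₀ : Matrix ι ι F) (A : σ → Matrix ι ι F) (h0 : A₀ᵀ = A₀)
    (h : ∀ i, (A i)ᵀ = A i) (x : σ → F) : (lin A₀ A x)ᵀ = lin A₀ A x := by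
  rw [lin, Matrix.transpose_add, Matrix.transpose_sum, h0]
  congr 1
  refine Finset.sum_congr rfl fun i _ => ?_
  rw [Matrix.transpose_smul, h i]

lemma span_sym (A : σ → Matrix ι ι F) (h : ∀ i, (A i)ᵀ = A i) :
    ∀ M ∈ Submodule.span F (Set.range A), Mᵀ = M := by
  intro M hM
  obtain ⟨x, rfl⟩ := mem_span_lin A hM
  exact lin_sym 0 A Matrix.transpose_zero h x

/-- **Symmetric case**: rank formula and optimality of locally optimal points -/
theorem sym_all [Infinite F] (h2 : (2 : F) ≠ 0) (A₀ : Matrix ι ι F) (A : σ → Matrix ι ι F)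
    (h0 : A₀ᵀ = A₀) (hs : ∀ i, (A i)ᵀ = A i) {c : ℕ}
    (hV : Fintype.card ι * (Fintype.card ι + 1) ≤
      2 * finrank F (Submodule.span F (Set.range A)) + 2 * c * Fintype.card ι)
    (hc : 10 * (c + 2) ≤ Fintype.card ι) :
    ∃ (u : ℕ) (P : Matrix ι (Fin u) F), u ≤ 2 * c ∧ P.rank = u ∧
      (∀ j, (fun i => P i j) ∈ sm (Submodule.span F (Set.range A)) (4 * c + 7)) ∧
      (u + sr (sy A₀ A) = sr (sy A₀ A * P.map (MvPolynomial.C (σ := σ))) + Fintype.card ι) ∧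
      ∀ b : σ → F, (∀ G : Matrix ι ι F, lin A₀ A b * G * lin A₀ A b = lin A₀ A b →
        Idt (lin A₀ A b) G (Submodule.span F (Set.range A))) →
        sr (sy A₀ A * P.map (MvPolynomial.C (σ := σ))) = (lin A₀ A b * P).rank →
        sr (sy A₀ A) ≤ (lin A₀ A b).rank := by
  classical
  set V := Submodule.span F (Set.range A) with hVdef
  have hsV := span_sym A hs
  obtain ⟨P, hP1, hP2, hP3⟩ := exists_cols (sm V (4 * c + 7))
  have hker : ∀ b : σ → F, (∀ G : Matrix ι ι F, lin A₀ A b * G * lin A₀ A b = lin A₀ A b →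
      Idt (lin A₀ A b) G V) →
      P.rank + (lin A₀ A b).rank = (lin A₀ A b * P).rank + Fintype.card ι := by
    intro b hId
    have hA := lin_sym A₀ A h0 hs b
    obtain ⟨G, hG, hG'⟩ := sym_ginv hA
    refine defect_eq _ _ fun k h => ?_
    rw [hP2]
    exact Submodule.subset_span (sym_small h2 hsV hA hG' (hId G hG) hV hc h)
  obtain ⟨g, hg, hg1, -⟩ := exists_generic A₀ A P (0 : Matrix (Fin 0) ι F)
  refine ⟨_, P, finrank_sm_sym V hsV hV hc, hP1, hP3, ?_, ?_⟩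
  · have h3 := hker g (idt_of_stuck A₀ A g (fun b' _ => by
      rw [hg]
      exact lin_le_sr _ _ _))
    rw [hg1, ← hg]
    omega
  · intro b hId h1
    have h3 := hker b hId
    have h4 := defect_le (lin A₀ A g) P
    rw [hg, ← hg1] at h4
    omega

/-- **Symmetric case: local search** -/
theorem sym_search [Infinite F] (h2 : (2 : F) ≠ 0) (A₀ : Matrix ι ι F) (A : σ → Matrix ι ι F)
    (h0 : A₀ᵀ = A₀) (hs : ∀ i, (A i)ᵀ = A i) {c : ℕ}
    (hV : Fintype.card ι * (Fintype.card ι + 1) ≤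
      2 * finrank F (Submodule.span F (Set.range A)) + 2 * c * Fintype.card ι)
    (a : σ → F) (ha : (lin A₀ A a).rank < sr (sy A₀ A)) :
    ∃ b : σ → F, nd b a ≤ 10 * (c + 2) ∧ (lin A₀ A a).rank < (lin A₀ A b).rank := by
  by_cases hc : 10 * (c + 2) ≤ Fintype.card ι
  · obtain ⟨u, P, hu, -, -, -, hopt⟩ := sym_all h2 A₀ A h0 hs hV hc
    exact search A₀ A P (0 : Matrix (Fin 0) ι F) (by omega) (fun b h1 h3 _ => hopt b h1 h3) a ha
  · obtain ⟨b, hb, hb'⟩ := exists_small A₀ A a ha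
    exact ⟨b, by omega, hb'⟩

end Pool.Agent.H22.DE
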